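import Pool.Agent.HT42.Defs
import Pool.Agent.TBK.ChainL

/-!
# HT42/Alg: every region of the chain satisfies `Reg`
-/

set_option autoImplicit false

namespace Pool.Agent.HT42

open Pool.Agent.DFJ Pool.Agent.TBK

theorem act_rec (c : ℂ) (m : ℤ) (v : ℂ × ℂ) :
    act c (m + 2) v = ((c ^ 2 + 2) * (act c (m + 1) v).1 - (act c m v).1,
      (c ^ 2 + 2) * (act c (m + 1) v).2 - (act c m v).2) := by
  have h1 : act c (m + 1) v = act c 1 (act c m v) := by rw [add_comm, act_add]
  have h2 : act c (m + 2) v = act c 1 (act c (m + 1) v) := by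
    rw [← act_add]
    congr 1
    ring
  rw [h2, h1]
  generalize act c m v = p
  obtain ⟨x, y⟩ := p
  rw [act_one, act_one]
  ext <;> simp <;> ring

theorem act_pos (c u q : ℂ) (k : ℕ) :
    act c (k : ℤ) (u, q) =
      ((te k (c ^ 2 + 2) / 2 - al k (c ^ 2 + 2) * c ^ 2 / 2) * u - al k (c ^ 2 + 2) * c * q,
        -(al k (c ^ 2 + 2)) * c * u +
          (te k (c ^ 2 + 2) / 2 + al k (c ^ 2 + 2) * c ^ 2 / 2) * q) := by
  induction k using Nat.twoStepInduction with
  | zero =>
    rw [Nat.cast_zero, act_zero]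
    ext <;> simp
  | one =>
    rw [Nat.cast_one, act_one, te_one, al_one]
    ext
    · simp only []
      ring
    · simp only []
      ring
  | more k ih1 ih2 =>
    have h := act_rec c k (u, q)
    have e1 : ((k + 2 : ℕ) : ℤ) = (k : ℤ) + 2 := by push_cast; ring
    have e2 : ((k + 1 : ℕ) : ℤ) = (k : ℤ) + 1 := by push_cast; ring
    rw [e2] at ih2
    rw [e1, h, ih2, ih1, te_step, al_step]
    ext
    · simp only []
      ring
    · simp only []
      ring

theorem act_neg (c u q : ℂ) (k : ℕ) :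
    act c (-(k : ℤ)) (u, q) =
      ((te k (c ^ 2 + 2) / 2 + al k (c ^ 2 + 2) * c ^ 2 / 2) * u + al k (c ^ 2 + 2) * c * q,
        (al k (c ^ 2 + 2)) * c * u +
          (te k (c ^ 2 + 2) / 2 - al k (c ^ 2 + 2) * c ^ 2 / 2) * q) := by
  induction k using Nat.twoStepInduction with
  | zero =>
    rw [Nat.cast_zero, neg_zero, act_zero]
    ext <;> simp
  | one =>
    rw [Nat.cast_one, act_neg_one, te_one, al_one]
    ext
    · simp only []
      ring
    · simp only []
      ring
  | more k ih1 ih2 =>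
    have h := act_rec c (-((k + 2 : ℕ) : ℤ)) (u, q)
    have e1 : -((k + 2 : ℕ) : ℤ) + 2 = -(k : ℤ) := by push_cast; ring
    have e2 : -((k + 2 : ℕ) : ℤ) + 1 = -((k + 1 : ℕ) : ℤ) := by push_cast; ring
    rw [e1, e2] at h
    have g1 := congrArg Prod.fst h
    have g2 := congrArg Prod.snd h
    rw [ih1, ih2] at g1 g2
    simp only [] at g1 g2
    rw [te_step, al_step]
    ext
    · simp only []
      linear_combination g1
    · simp only []
      linear_combination g2

theorem reg_chain (b : ℕ → ℤ) (w : ℂ) (i : ℕ) :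
    ∃ e C P : ℂ, Reg (b (i + 1)).natAbs (Wc b w i) (Wc b w (i + 1)) (Wc b w (i + 2)) e C P := by
  set u := Wc b w i with hu
  set c := Wc b w (i + 1) with hc
  set q := Qc b w i with hq
  have hf : q ^ 2 + c * u * q = u ^ 2 + c ^ 2 := chain_form b w i
  have hW : Wc b w (i + 2) = (act c (b (i + 1)) (u, q)).1 := W_step b w i
  have hP : (q + u * c / 2) ^ 2 = u ^ 2 + c ^ 2 + u ^ 2 * c ^ 2 / 4 := by
    linear_combination hf
  rcases Int.natAbs_eq (b (i + 1)) with hb | hb
  · generalize (b (i + 1)).natAbs = m at hb ⊢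
    rw [hb, act_pos] at hW
    simp only [] at hW
    refine ⟨al m (c ^ 2 + 2), te m (c ^ 2 + 2) / 2, q + u * c / 2, rfl, by ring, ?_, hP, ?_⟩
    · linear_combination (1 / 4 : ℂ) * te_sq m (c ^ 2 + 2)
    · rw [hW]; ring
  · generalize (b (i + 1)).natAbs = m at hb ⊢
    rw [hb, act_neg] at hW
    simp only [] at hW
    refine ⟨-al m (c ^ 2 + 2), te m (c ^ 2 + 2) / 2, q + u * c / 2, norm_neg _, by ring, ?_, hP, ?_⟩
    · linear_combination (1 / 4 : ℂ) * te_sq m (c ^ 2 + 2)
    · rw [hW]; ring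

end Pool.Agent.HT42
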