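import Pool.Agent.HT42.Defs2
import Pool.Agent.HT42.Alg

/-!
# HT42/AlgY: the middle label of a region and its neighbours
-/

set_option autoImplicit false

namespace Pool.Agent.HT42

open Pool.Agent.DFJ Pool.Agent.TBK

theorem te_double (k : ℕ) (s : ℂ) : te (2 * k) s + 2 = te k s ^ 2 := by
  obtain ⟨x, y, hxy, rfl⟩ := exists_lam s
  rw [te_lam hxy, te_lam hxy, pow_mul', pow_mul']
  have h : x ^ k * y ^ k = 1 := by rw [← mul_pow, hxy, one_pow]
  linear_combination (-2 : ℂ) * h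

theorem te_succ_sub (k : ℕ) (s : ℂ) :
    te (k + 1) s - te k s = (s - 2) * (al (k + 1) s + al k s) := by
  rw [te_eq (k + 1), te_eq k, al_step]
  ring

theorem te_odd_sub (k : ℕ) (s : ℂ) :
    te (2 * k + 1) s - 2 = (s - 2) * (al (k + 1) s + al k s) ^ 2 := by
  rw [te_odd]
  ring

theorem sum_act (c : ℂ) (l : ℤ) (p : ℂ × ℂ) :
    (act c l p).1 + (act c (-l) p).1 = te l.natAbs (c ^ 2 + 2) * p.1 := by
  obtain ⟨Y, Z⟩ := p
  rcases Int.natAbs_eq l with h | h
  · generalize l.natAbs = k at h ⊢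
    rw [h, act_pos, act_neg]
    simp only []
    ring
  · generalize l.natAbs = k at h ⊢
    rw [h, neg_neg, act_pos, act_neg]
    simp only []
    ring

theorem diff_act (c : ℂ) (k : ℕ) (p : ℂ × ℂ) :
    (act c ((k + 1 : ℕ) : ℤ) p).1 - (act c (-(k : ℤ)) p).1 =
      -((al (k + 1) (c ^ 2 + 2) + al k (c ^ 2 + 2)) * c * p.2) := by
  obtain ⟨Y, Z⟩ := p
  rw [act_pos, act_neg]
  simp only []
  have h := te_succ_sub k (c ^ 2 + 2)
  linear_combination (Y / 2) * h

theorem yy_even {c : ℂ} {b : ℤ} (hb : Even b) (u q : ℂ) :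
    ((act c b (u, q)).1 + u) ^ 2 = (te b.natAbs (c ^ 2 + 2) + 2) * yy c b (u, q) ^ 2 := by
  obtain ⟨l, rfl⟩ := hb
  have e1 : (l + l) / 2 = l := by omega
  have e2 : (l + l).natAbs = 2 * l.natAbs := by omega
  have hyy : yy c (l + l) (u, q) = (act c l (u, q)).1 := by
    unfold yy
    rw [if_pos ⟨l, rfl⟩, e1]
  have h1 : act c (l + l) (u, q) = act c l (act c l (u, q)) := act_add _ _ _ _
  have h2 : (u, q) = act c (-l) (act c l (u, q)) := by
    rw [← act_add, neg_add_cancel, act_zero]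
  have h3 := sum_act c l (act c l (u, q))
  rw [← h1, ← h2] at h3
  simp only [] at h3
  rw [hyy, e2, te_double, h3]
  ring

theorem yy_odd {c : ℂ} {b : ℤ} (hb : ¬ Even b) (u q : ℂ) :
    ((act c b (u, q)).1 - u) ^ 2 = (te b.natAbs (c ^ 2 + 2) - 2) * yy c b (u, q) ^ 2 := by
  have hb' := hb
  rw [Int.not_even_iff_odd] at hb'
  obtain ⟨l, rfl⟩ := hb'
  have e1 : (2 * l + 1) / 2 = l := by omega
  have hyy : yy c (2 * l + 1) (u, q) = (act c l (u, q)).2 := by
    unfold yy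
    rw [if_neg hb, e1]
  have h1 : act c (2 * l + 1) (u, q) = act c (l + 1) (act c l (u, q)) := by
    rw [← act_add]
    congr 1
    ring
  have h2 : (u, q) = act c (-l) (act c l (u, q)) := by
    rw [← act_add, neg_add_cancel, act_zero]
  have key : ∃ k : ℕ, (2 * l + 1).natAbs = 2 * k + 1 ∧
      ((act c (2 * l + 1) (u, q)).1 - u) ^ 2 =
        ((al (k + 1) (c ^ 2 + 2) + al k (c ^ 2 + 2)) * c * (act c l (u, q)).2) ^ 2 := by
    rcases le_or_gt 0 l with hl | hl
    · obtain ⟨k, rfl⟩ := Int.eq_ofNat_of_zero_le hl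
      refine ⟨k, by omega, ?_⟩
      have h3 := diff_act c k (act c (k : ℤ) (u, q))
      have e3 : ((k + 1 : ℕ) : ℤ) = (k : ℤ) + 1 := by push_cast; ring
      rw [e3, ← h1, ← h2] at h3
      simp only [] at h3
      rw [h3]
      ring
    · obtain ⟨k, hk⟩ := Int.eq_ofNat_of_zero_le (show 0 ≤ -l - 1 by omega)
      refine ⟨k, by omega, ?_⟩
      have h3 := diff_act c k (act c l (u, q))
      have e3 : ((k + 1 : ℕ) : ℤ) = -l := by push_cast; omega
      have e4 : -(k : ℤ) = l + 1 := by omega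
      rw [e3, e4, ← h1, ← h2] at h3
      simp only [] at h3
      linear_combination (u - (act c (2 * l + 1) (u, q)).1 -
        (al (k + 1) (c ^ 2 + 2) + al k (c ^ 2 + 2)) * c * (act c l (u, q)).2) * h3
  obtain ⟨k, hk1, hk2⟩ := key
  rw [hyy, hk1, te_odd_sub, hk2]
  ring

end Pool.Agent.HT42
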