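import Pool.Agent.HT42.Alg

/-!
# HT42/Bd: a priori bounds for a closed chain
-/

set_option autoImplicit false

namespace Pool.Agent.HT42

open Pool.Agent.DFJ Pool.Agent.TBK

theorem al_grow {s : ℂ} (hs : 14 ≤ ‖s‖) (m : ℕ) :
    ‖al m s‖ ≤ ‖al (m + 1) s‖ ∧ 1 ≤ ‖al (m + 1) s‖ := by
  induction m with
  | zero => simp
  | succ m ih =>
    obtain ⟨h1, h2⟩ := ih
    have h3 : ‖s‖ * ‖al (m + 1) s‖ - ‖al m s‖ ≤ ‖al (m + 2) s‖ := by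
      rw [al_step, ← norm_mul]
      exact norm_sub_norm_le _ _
    have h4 : ‖al (m + 1) s‖ ≤ ‖al (m + 2) s‖ := by nlinarith
    exact ⟨h4, h2.trans h4⟩

theorem al_ge {s : ℂ} (hs : 14 ≤ ‖s‖) {m : ℕ} (hm : 2 ≤ m) : 3 ≤ ‖al m s‖ := by
  obtain ⟨k, rfl⟩ : ∃ k, m = k + 2 := ⟨m - 2, by omega⟩
  obtain ⟨h1, h2⟩ := al_grow hs k
  have h3 : ‖s‖ * ‖al (k + 1) s‖ - ‖al k s‖ ≤ ‖al (k + 2) s‖ := by
    rw [al_step, ← norm_mul]
    exact norm_sub_norm_le _ _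
  nlinarith

/-- the main inequality of a region -/
theorem Reg.main {m : ℕ} {u c u' e C P : ℂ} (h : Reg m u c u' e C P) :
    ‖e‖ ^ 2 * ‖c‖ ^ 4 ≤ ‖u‖ ^ 2 +
      ‖u'‖ * (‖u'‖ + 2 * (1 + ‖e‖ * ‖c‖ * (‖c‖ + 2) / 2) * ‖u‖) := by
  have hC : ‖C‖ ≤ 1 + ‖e‖ * ‖c‖ * (‖c‖ + 2) / 2 := by
    have h1 : ‖C‖ ^ 2 ≤ 1 + ‖e‖ ^ 2 * (‖c‖ ^ 2 * (‖c‖ ^ 2 + 4)) / 4 := by
      rw [← norm_pow, h.hCC]
      refine (norm_add_le _ _).trans ?_
      rw [norm_one, norm_div, norm_mul, norm_mul, norm_pow, norm_pow]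
      have h2 : ‖c ^ 2 + 4‖ ≤ ‖c‖ ^ 2 + 4 := by
        refine (norm_add_le _ _).trans ?_
        rw [norm_pow]
        norm_num
      have h4 : ‖(4 : ℂ)‖ = 4 := by norm_num
      rw [h4]
      gcongr
    have h0 : 0 ≤ ‖e‖ * ‖c‖ := mul_nonneg (norm_nonneg _) (norm_nonneg _)
    have hc := norm_nonneg c
    refine abs_le_of_sq_le_sq' ?_ (by positivity) |>.2
    refine h1.trans ?_
    nlinarith [mul_nonneg h0 hc, mul_nonneg (mul_nonneg h0 h0) hc]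
  have hprod : u' * (C * u + e * c * P) = u ^ 2 - e ^ 2 * c ^ 4 := by
    rw [h.rel]
    linear_combination u ^ 2 * h.hCC - e ^ 2 * c ^ 2 * h.hP
  have hsum : C * u + e * c * P = 2 * C * u - u' := by
    rw [h.rel]; ring
  rw [hsum] at hprod
  have h5 : ‖e‖ ^ 2 * ‖c‖ ^ 4 = ‖u ^ 2 - u' * (2 * C * u - u')‖ := by
    rw [hprod, ← norm_pow, ← norm_pow, ← norm_mul]
    congr 1
    ring
  rw [h5]
  refine (norm_sub_le _ _).trans ?_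
  rw [norm_pow, norm_mul]
  have h6 : ‖2 * C * u - u'‖ ≤ ‖u'‖ + 2 * (1 + ‖e‖ * ‖c‖ * (‖c‖ + 2) / 2) * ‖u‖ := by
    refine (norm_sub_le _ _).trans ?_
    rw [norm_mul, norm_mul, add_comm]
    have h2 : ‖(2 : ℂ)‖ = 2 := by norm_num
    rw [h2]
    gcongr
  gcongr

theorem Reg.grow {m : ℕ} {u c u' e C P : ℂ} (h : Reg m u c u' e C P) (hm : 2 ≤ m)
    (hc : 4 ≤ ‖c‖) (hu : ‖u‖ ≤ ‖c‖) : ‖c‖ < ‖u'‖ := by
  by_contra hcon
  have hu' : ‖u'‖ ≤ ‖c‖ := not_lt.1 hcon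
  have hs : 14 ≤ ‖c ^ 2 + 2‖ := by
    have h1 := norm_sub_norm_le (c ^ 2) (-2)
    rw [norm_pow, norm_neg, sub_neg_eq_add] at h1
    have h2 : ‖(2 : ℂ)‖ = 2 := by norm_num
    rw [h2] at h1
    nlinarith
  have he : 3 ≤ ‖e‖ := by
    rw [h.he]
    exact al_ge hs hm
  have h1 := h.main
  set x := ‖c‖
  set y := ‖e‖
  have h2 : ‖u‖ ^ 2 ≤ x ^ 2 := by
    have := norm_nonneg u
    nlinarith
  have h3 : ‖u'‖ * (‖u'‖ + 2 * (1 + y * x * (x + 2) / 2) * ‖u‖) ≤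
      x * (x + 2 * (1 + y * x * (x + 2) / 2) * x) := by
    gcongr
  have hx : 0 < x := by linarith
  have hy : 0 < y := by linarith
  have h4 : y ^ 2 * x ^ 4 ≤ x ^ 2 * (4 + y * x ^ 2 + 2 * y * x) := by nlinarith
  have h5 : y ^ 2 * x ^ 2 ≤ 4 + y * x ^ 2 + 2 * y * x := by
    have h6 : x ^ 2 * (y ^ 2 * x ^ 2) ≤ x ^ 2 * (4 + y * x ^ 2 + 2 * y * x) := by
      linarith [h4]
    exact le_of_mul_le_mul_left h6 (by positivity)
  have h6 : 3 * (y * x ^ 2) ≤ y ^ 2 * x ^ 2 := by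
    have : 0 ≤ (y - 3) * (y * x ^ 2) := mul_nonneg (by linarith) (by positivity)
    nlinarith
  have h7 : 4 * (y * x) ≤ y * x ^ 2 := by
    have : 0 ≤ (x - 4) * (y * x) := mul_nonneg (by linarith) (by positivity)
    nlinarith
  have h8 : 12 ≤ y * x := by nlinarith
  nlinarith

theorem Reg.al_le {m : ℕ} {u c u' e C P : ℂ} (h : Reg m u c u' e C P) (hc1 : 1 ≤ ‖c‖)
    (hc : ‖c‖ ≤ 4) (hu : ‖u‖ ≤ 4) (hu' : ‖u'‖ ≤ 4) : ‖e‖ ≤ 160 := by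
  by_contra hcon
  have he : 160 < ‖e‖ := not_le.1 hcon
  have h1 := h.main
  set x := ‖c‖
  set y := ‖e‖
  have hx : 0 < x := by linarith
  have hy : 0 < y := by linarith
  have h2 : ‖u‖ ^ 2 ≤ 16 := by
    have := norm_nonneg u
    nlinarith
  have h3 : ‖u'‖ * (‖u'‖ + 2 * (1 + y * x * (x + 2) / 2) * ‖u‖) ≤
      4 * (4 + 2 * (1 + y * x * (x + 2) / 2) * 4) := by
    gcongr
  have h4 : y * x * (x + 2) ≤ y * x * 6 := by
    gcongr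
    linarith
  have h5 : y ^ 2 * x ^ 4 ≤ 64 + 96 * (y * x) := by nlinarith
  have h6 : y ^ 2 * x ≤ y ^ 2 * x ^ 4 := by
    have h7 : x ≤ x ^ 4 := le_self_pow₀ hc1 (by norm_num)
    gcongr
  have h7 : 160 * (y * x) ≤ y ^ 2 * x := by
    have : 0 ≤ (y - 160) * (y * x) := mul_nonneg (by linarith) (by positivity)
    nlinarith
  have h8 : 160 ≤ y * x := by nlinarith
  linarith

variable {n : ℕ} {b : ℕ → ℤ} {w : ℂ}

theorem W_lt (hb : ∀ j, 1 ≤ j → j ≤ n → 2 ≤ (b j).natAbs) (h : Wc b w (n + 1) = 0) {j : ℕ}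
    (hj : j ≤ n) : ‖Wc b w j‖ < 4 := by
  classical
  by_contra hcon
  have hex : ∃ j, 4 ≤ ‖Wc b w j‖ := ⟨j, not_lt.1 hcon⟩
  set k := Nat.find hex with hk
  have hk1 : 4 ≤ ‖Wc b w k‖ := Nat.find_spec hex
  have hkj : k ≤ j := Nat.find_min' hex (not_lt.1 hcon)
  have hk0 : k ≠ 0 := by
    intro h0
    rw [h0, W_zero, norm_zero] at hk1
    norm_num at hk1
  obtain ⟨i, hi⟩ : ∃ i, k = i + 1 := ⟨k - 1, by omega⟩
  have hlt : ‖Wc b w i‖ < 4 := by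
    by_contra h0
    have := Nat.find_min' hex (not_lt.1 h0)
    omega
  have key : ∀ l, i + l ≤ n → 4 ≤ ‖Wc b w (i + l + 1)‖ ∧ ‖Wc b w (i + l)‖ ≤ ‖Wc b w (i + l + 1)‖ := by
    intro l
    induction l with
    | zero =>
      intro _
      rw [add_zero, ← hi]
      exact ⟨hk1, by linarith⟩
    | succ l ih =>
      intro hl
      obtain ⟨h1, h2⟩ := ih (by omega)
      obtain ⟨e, C, P, hr⟩ := reg_chain b w (i + l)
      have h3 := hr.grow (hb (i + l + 1) (by omega) (by omega)) h1 h2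
      have e1 : i + (l + 1) = i + l + 1 := by ring
      rw [e1]
      exact ⟨by linarith, h3.le⟩
  have h1 := (key (n - i) (by omega)).1
  have e1 : i + (n - i) + 1 = n + 1 := by omega
  rw [e1, h, norm_zero] at h1
  norm_num at h1

theorem al_bound (hb : ∀ j, 1 ≤ j → j ≤ n → 2 ≤ (b j).natAbs) (h : Wc b w (n + 1) = 0)
    {i : ℕ} (hi : i + 1 ≤ n) (h1 : 1 ≤ ‖Wc b w (i + 1)‖) {e C P : ℂ}
    (hr : Reg (b (i + 1)).natAbs (Wc b w i) (Wc b w (i + 1)) (Wc b w (i + 2)) e C P) :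
    ‖e‖ ≤ 160 := by
  refine hr.al_le h1 (W_lt hb h hi).le (W_lt hb h (by omega)).le ?_
  rcases Nat.lt_or_ge (i + 1) n with h2 | h2
  · exact (W_lt hb h (by omega)).le
  · have e1 : i + 2 = n + 1 := by omega
    rw [e1, h, norm_zero]
    norm_num

end Pool.Agent.HT42
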