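import Pool.Agent.TBK.Chain

/-!
# HT42/Defs: one region of the chain (shared by the modules of HT42, do not change)
-/

set_option autoImplicit false

namespace Pool.Agent.HT42

open Pool.Agent.DFJ Pool.Agent.TBK

/-- One region of the chain of traces: `u, c, u'` are consecutive terms, `m` is the absolute value
of the parameter, `s = c² + 2`. -/
structure Reg (m : ℕ) (u c u' e C P : ℂ) : Prop where
  he : ‖e‖ = ‖al m (c ^ 2 + 2)‖
  hC : 2 * C = te m (c ^ 2 + 2)
  hCC : C ^ 2 = 1 + e ^ 2 * (c ^ 2 * (c ^ 2 + 4)) / 4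
  hP : P ^ 2 = u ^ 2 + c ^ 2 + u ^ 2 * c ^ 2 / 4
  rel : u' = C * u - e * c * P

end Pool.Agent.HT42
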