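import Pool.Agent.TBK.Mats

/-!
# HT42/Defs2: the middle labels (shared by the parity modules, do not change)

The powers `M(c)^l (u, q)` are the pairs `(x_{2l}, x_{2l+1})` of a sequence with
`x_{m+1} = x_{m-1} - c x_m`; the middle label of the region with parameter `b` is `x_b`.
-/

set_option autoImplicit false

namespace Pool.Agent.HT42

open Pool.Agent.DFJ Pool.Agent.TBK

/-- The middle label `x_b` (`b / 2` is rounded down). -/
noncomputable def yy (c : ℂ) (b : ℤ) (v : ℂ × ℂ) : ℂ :=
  open Classical in if Even b then (act c (b / 2) v).1 else (act c (b / 2) v).2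

/-- The conjugator `H` with `hs x t a H (n + 1) = 1`, a word in `x` and `t`. -/
def Hw {G : Type*} [Group G] (x t : G) (a : ℕ → ℤ) (n : ℕ) : G := (hs x t a 1 (n + 1))⁻¹

/-- The group element whose label is the middle label of the region `j`. -/
noncomputable def Aw {G : Type*} [Group G] (x t : G) (a : ℕ → ℤ) (n j : ℕ) : G :=
  open Classical in
  if Even (a j) then Xw x t a j ^ (a j / 2) * hs x t a (Hw x t a n) (j - 1)
  else if Even j then
    (hs x t a (Hw x t a n) j)⁻¹ * (Xw x t a j ^ (a j / 2) * hs x t a (Hw x t a n) (j - 1))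
  else
    (hs x t a (Hw x t a n) j)⁻¹ * (Xw x t a j ^ (a j / 2 + 1) * hs x t a (Hw x t a n) (j - 1))

end Pool.Agent.HT42
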