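import Mathlib

/-!
# HT42/Density: almost all integer vectors have only large entries (helper file for MP_0b8c9e_gt)
-/

set_option autoImplicit false

namespace Pool.Agent.HT42

open Finset in
theorem card_one (X : ℕ) : Nat.card {z : ℤ // z ≠ 0 ∧ |z| ≤ (X : ℤ)} = 2 * X := by
  rw [Nat.subtype_card ((Finset.Icc (-(X : ℤ)) X).erase 0)]
  · rw [Finset.card_erase_of_mem (by simp), Int.card_Icc]
    omega
  · intro z
    rw [Finset.mem_erase, Finset.mem_Icc, abs_le]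

theorem card_two (R X : ℕ) :
    2 * X - 2 * R ≤ Nat.card {z : ℤ // R + 1 ≤ z.natAbs ∧ |z| ≤ (X : ℤ)} := by
  rw [Nat.subtype_card ((Finset.Icc (-(X : ℤ)) X) \ (Finset.Icc (-(R : ℤ)) R))]
  · refine le_trans ?_ (Finset.le_card_sdiff _ _)
    rw [Int.card_Icc, Int.card_Icc]
    omega
  · intro z
    rw [Finset.mem_sdiff, Finset.mem_Icc, Finset.mem_Icc, abs_le]
    constructor
    · rintro ⟨h1, h2⟩
      refine ⟨?_, h1⟩
      by_contra h3
      exact h2 (by omega)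
    · rintro ⟨h1, h2⟩
      exact ⟨h2, by omega⟩

theorem card_pi {N : ℕ} (p : ℤ → Prop) :
    Nat.card {a : Fin N → ℤ // ∀ j, p (a j)} = Nat.card {z : ℤ // p z} ^ N := by
  rw [Nat.card_congr (Equiv.subtypePiEquivPi (p := fun _ : Fin N => p)), Nat.card_pi]
  simp

theorem finite_pi {N : ℕ} (X : ℕ) : {a : Fin N → ℤ | ∀ j, a j ≠ 0 ∧ |a j| ≤ (X : ℤ)}.Finite := by
  refine Set.Finite.subset (Set.Finite.pi' (t := fun _ : Fin N => Set.Icc (-(X : ℤ)) X)
    (fun _ => Set.finite_Icc _ _)) ?_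
  intro a ha j
  exact abs_le.mp (ha j).2

theorem density {N : ℕ} (hN : 1 ≤ N) (R : ℕ) (S : Set (Fin N → ℤ))
    (hS : ∀ a : Fin N → ℤ, (∀ j, R ≤ (a j).natAbs) → a ∈ S) :
    Filter.Tendsto (fun X : ℕ =>
      (Nat.card {a : Fin N → ℤ // (∀ j, a j ≠ 0 ∧ |a j| ≤ (X : ℤ)) ∧ a ∈ S} : ℝ) /
        (Nat.card {a : Fin N → ℤ // ∀ j, a j ≠ 0 ∧ |a j| ≤ (X : ℤ)} : ℝ))
      Filter.atTop (nhds 1) := by
  have hT : ∀ X : ℕ, Nat.card {a : Fin N → ℤ // ∀ j, a j ≠ 0 ∧ |a j| ≤ (X : ℤ)} = (2 * X) ^ N := by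
    intro X
    rw [card_pi (fun z => z ≠ 0 ∧ |z| ≤ (X : ℤ)), card_one]
  have hup : ∀ X : ℕ, Nat.card {a : Fin N → ℤ // (∀ j, a j ≠ 0 ∧ |a j| ≤ (X : ℤ)) ∧ a ∈ S} ≤
      (2 * X) ^ N := by
    intro X
    rw [← hT X]
    exact Nat.card_mono (finite_pi X) (fun a ha => ha.1)
  have hlow : ∀ X : ℕ, (2 * X - 2 * R) ^ N ≤
      Nat.card {a : Fin N → ℤ // (∀ j, a j ≠ 0 ∧ |a j| ≤ (X : ℤ)) ∧ a ∈ S} := by
    intro X
    refine (Nat.pow_le_pow_left (card_two R X) N).trans ?_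
    rw [← card_pi (fun z => R + 1 ≤ z.natAbs ∧ |z| ≤ (X : ℤ))]
    refine Nat.card_mono ((finite_pi X).subset fun a ha => ha.1) ?_
    intro a ha
    have ha' : ∀ j, R + 1 ≤ (a j).natAbs ∧ |a j| ≤ (X : ℤ) := ha
    refine ⟨fun j => ⟨?_, (ha' j).2⟩, hS a fun j => ?_⟩
    · intro h0
      have := (ha' j).1
      rw [h0] at this
      simp at this
    · have := (ha' j).1
      omega
  have hlim : Filter.Tendsto (fun X : ℕ => (1 - (R : ℝ) / (X : ℝ)) ^ N) Filter.atTop (nhds 1) := by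
    have h1 : Filter.Tendsto (fun X : ℕ => (R : ℝ) / (X : ℝ)) Filter.atTop (nhds 0) :=
      tendsto_const_div_atTop_nhds_zero_nat (R : ℝ)
    have h2 := ((tendsto_const_nhds (x := (1 : ℝ))).sub h1).pow N
    rw [sub_zero, one_pow] at h2
    exact h2
  refine tendsto_of_tendsto_of_tendsto_of_le_of_le' hlim tendsto_const_nhds ?_ ?_
  · filter_upwards [Filter.eventually_ge_atTop (R + 1)] with X hX
    have hX0 : (0 : ℝ) < X := by
      have : 0 < X := by omega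
      exact_mod_cast this
    rw [hT X]
    push_cast
    rw [le_div_iff₀ (by positivity), ← mul_pow]
    have h3 : (1 - (R : ℝ) / (X : ℝ)) * (2 * X) = ((2 * X - 2 * R : ℕ) : ℝ) := by
      rw [Nat.cast_sub (by omega)]
      push_cast
      field_simp
    rw [h3]
    exact_mod_cast hlow X
  · filter_upwards with X
    rw [hT X]
    refine div_le_one_of_le₀ ?_ (by positivity)
    exact_mod_cast hup X

end Pool.Agent.HT42
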