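import Pool.Agent.TBK.GrpA
import Pool.Agent.TBK.Mats
import Pool.Agent.TBK.KK

/-!
# HT42/Dih: the elements `X_j` of the knot group are not trivial

The dihedral quotient `x ↦ r 1`, `t ↦ sr 0` of order `2 |k_{2g+1}|` maps `X_j` to `r (k_j)`.
-/

set_option autoImplicit false

namespace Pool.Agent.HT42

open Pool.Agent.DFJ Pool.Agent.TBK DihedralGroup

theorem dih_Xw (a : ℕ → ℤ) (D : ℕ) (j : ℕ) :
    Xw (r 1 : DihedralGroup D) (sr 0) a j = r ((kk (sg a) j : ℤ) : ZMod D) := by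
  induction j using Nat.twoStepInduction with
  | zero =>
    have h0 : kk (sg a) 0 = 0 := rfl
    have h1 : Xw (r 1 : DihedralGroup D) (sr 0) a 0 = 1 := rfl
    rw [h0, h1, Int.cast_zero, r_zero]
  | one =>
    have h0 : kk (sg a) 1 = 1 := rfl
    have h1 : Xw (r 1 : DihedralGroup D) (sr 0) a 1 = r 1 := rfl
    rw [h0, h1, Int.cast_one]
  | more j ih1 ih2 =>
    have hk : kk (sg a) (j + 2) = kk (sg a) j + 2 * sg a (j + 1) * kk (sg a) (j + 1) := rfl
    rw [hk]
    unfold sg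
    by_cases hj : Even j
    · have hj1 : Odd (j + 1) := hj.add_one
      rw [Xw_even _ _ a hj, ih1, ih2, r_zpow, inv_r, inv_sr, sr_mul_r, sr_mul_sr, r_mul_r, r_mul_r,
        hj1.neg_one_pow]
      congr 1
      push_cast
      unfold sg
      ring
    · have hj1 : Even (j + 1) := by rw [Nat.even_add_one]; exact hj
      rw [Xw_odd _ _ a hj, ih1, ih2, r_zpow, inv_r, inv_sr, r_mul_r, r_mul_sr, sr_mul_r,
        sr_mul_sr, hj1.neg_one_pow]
      congr 1
      push_cast
      unfold sg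
      ring

theorem X_ne_one {g : ℕ} {a : ℕ → ℤ} (ha : ∀ j, 1 ≤ j → j ≤ 2 * g → a j ≠ 0) {j : ℕ}
    (hj1 : 1 ≤ j) (hj2 : j ≤ 2 * g) :
    Xw (PresentedGroup.of 0 : TBGroup g a) (PresentedGroup.of 1) a j ≠ 1 := by
  have hb : ∀ j, 1 ≤ j → j ≤ 2 * g → sg a j ≠ 0 := by
    intro j h1 h2
    have h4 := ha j h1 h2
    rw [← Int.natAbs_ne_zero] at h4 ⊢
    rwa [sg_natAbs]
  set D : ℕ := (kk (sg a) (2 * g + 1)).natAbs with hD
  have hrel : ∀ w ∈ ({Xw (FreeGroup.of 0) (FreeGroup.of 1) a (2 * g + 1)} :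
      Set (FreeGroup (Fin 2))),
      FreeGroup.lift (![(r 1 : DihedralGroup D), sr 0]) w = 1 := by
    intro w hw
    rw [Set.mem_singleton_iff] at hw
    subst hw
    have ea : FreeGroup.lift (![(r 1 : DihedralGroup D), sr 0]) (FreeGroup.of 0) = r 1 :=
      FreeGroup.lift_apply_of
    have eb : FreeGroup.lift (![(r 1 : DihedralGroup D), sr 0]) (FreeGroup.of 1) = sr 0 :=
      FreeGroup.lift_apply_of
    rw [map_Xw, ea, eb, dih_Xw]
    have h0 : ((kk (sg a) (2 * g + 1) : ℤ) : ZMod D) = 0 := by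
      rw [ZMod.intCast_zmod_eq_zero_iff_dvd, hD, Int.natCast_natAbs]
      exact (abs_dvd _ _).2 dvd_rfl
    rw [h0, r_zero]
  set f : TBGroup g a →* DihedralGroup D := PresentedGroup.toGroup hrel with hf
  have hfx : f (PresentedGroup.of 0) = r 1 := PresentedGroup.toGroup.of hrel
  have hft : f (PresentedGroup.of 1) = sr 0 := PresentedGroup.toGroup.of hrel
  intro h
  have h1 := congrArg f h
  rw [map_Xw, hfx, hft, dih_Xw, map_one, one_def] at h1
  have h2 : ((kk (sg a) j : ℤ) : ZMod D) = 0 := by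
    injection h1
  rw [ZMod.intCast_zmod_eq_zero_iff_dvd, hD, Int.natCast_natAbs, abs_dvd] at h2
  have hne : kk (sg a) j ≠ 0 := kk_ne hb hj1 (by omega)
  have hlt : ∀ l, j + l ≤ 2 * g + 1 → |kk (sg a) j| ≤ |kk (sg a) (j + l)| := by
    intro l
    induction l with
    | zero => intro _; exact le_rfl
    | succ l ih =>
      intro hl
      exact (ih (by omega)).trans (kk_grow hb (j + l) (by omega)).le
  have h3 := kk_grow hb (2 * g) le_rfl
  have h4 := hlt (2 * g - j) (by omega)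
  have e : j + (2 * g - j) = 2 * g := by omega
  rw [e] at h4
  have h5 := Int.le_of_dvd (abs_pos.2 hne) ((dvd_abs _ _).2 h2)
  have h6 := le_abs_self (kk (sg a) (2 * g + 1))
  have h7 : |kk (sg a) (2 * g + 1)| ∣ |kk (sg a) j| := (abs_dvd_abs _ _).2 h2
  have h8 := Int.le_of_dvd (abs_pos.2 hne) h7
  omega

end Pool.Agent.HT42
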