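import Pool.Agent.HT42.DihY

/-!
# HT42/Dih6: sixth powers in the dihedral quotient

In the dihedral quotient of order `2 |k_{2g+1}|` the element `t⁻¹ A_j t A_j⁻¹` is conjugate to
`r (± (k_{j-1} + b_j k_j))`, and `6 (k_{j-1} + b_j k_j) = 3 (k_{j-1} + k_{j+1})` is not divisible
by the odd number `k_{2g+1}`.
-/

set_option autoImplicit false

namespace Pool.Agent.HT42

open Pool.Agent.DFJ Pool.Agent.TBK DihedralGroup

private theorem d6_map_hs {G G' : Type*} [Group G] [Group G'] (f : G →* G') (x t : G)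
    (a : ℕ → ℤ) (H : G) (j : ℕ) : f (hs x t a H j) = hs (f x) (f t) a (f H) j := by
  induction j using Nat.twoStepInduction with
  | zero => exact map_one f
  | one => rfl
  | more j ih1 ih2 => rw [hs_succ2, hs_succ2, map_mul, map_zpow, map_Xw, ih1]

private theorem d6_map_Hw {G G' : Type*} [Group G] [Group G'] (f : G →* G') (x t : G)
    (a : ℕ → ℤ) (n : ℕ) : f (Hw x t a n) = Hw (f x) (f t) a n := by
  unfold Hw
  rw [map_inv, d6_map_hs, map_one]

private theorem d6_map_Aw {G G' : Type*} [Group G] [Group G'] (f : G →* G') (x t : G)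
    (a : ℕ → ℤ) (n j : ℕ) : f (Aw x t a n j) = Aw (f x) (f t) a n j := by
  unfold Aw
  split_ifs <;> simp only [map_mul, map_inv, map_zpow, map_Xw, d6_map_hs, d6_map_Hw]

private theorem d6_conj_r {D : ℕ} (i : ZMod D) (B : DihedralGroup D) {c : ZMod D}
    (h : B * sr 0 * B⁻¹ = sr c) : (r i * B) * sr 0 * (r i * B)⁻¹ = sr (c - 2 * i) := by
  have e : (r i * B) * sr 0 * (r i * B)⁻¹ = r i * (B * sr 0 * B⁻¹) * (r i)⁻¹ := by group
  rw [e, h, r_mul_sr, inv_r, sr_mul_r]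
  congr 1
  ring

private theorem d6_r_pow {D : ℕ} {c : ZMod D} (h : (r c : DihedralGroup D) ^ 6 = 1) :
    6 * c = 0 := by
  rw [r_pow, one_def] at h
  have h1 : c * ((6 : ℕ) : ZMod D) = 0 := by injection h
  push_cast at h1
  linear_combination h1

/-- `V = t⁻¹ B t B⁻¹` is a rotation. -/
private theorem d6_pow {D : ℕ} {B : DihedralGroup D} {c : ZMod D} (h : B * sr 0 * B⁻¹ = sr c)
    (hV : ((sr 0)⁻¹ * (B * sr 0 * B⁻¹)) ^ 6 = 1) : 6 * c = 0 := by
  rw [h, inv_sr, sr_mul_sr, sub_zero] at hV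
  exact d6_r_pow hV

/-- The same for a translate `h⁻¹ B`. -/
private theorem d6_pow_move {D : ℕ} {h B : DihedralGroup D} {c c' : ZMod D}
    (h1 : B * sr 0 * B⁻¹ = sr c) (h2 : h * sr 0 * h⁻¹ = sr c')
    (hV : ((sr 0)⁻¹ * ((h⁻¹ * B) * sr 0 * (h⁻¹ * B)⁻¹)) ^ 6 = 1) : 6 * (c - c') = 0 := by
  have e : (sr 0)⁻¹ * ((h⁻¹ * B) * sr 0 * (h⁻¹ * B)⁻¹) =
      h⁻¹ * ((h * sr 0 * h⁻¹)⁻¹ * (B * sr 0 * B⁻¹)) * h⁻¹⁻¹ := by group
  rw [e, h1, h2, inv_sr, sr_mul_sr, conj_pow] at hV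
  have h3 : (r (c - c') : DihedralGroup D) ^ 6 = 1 := by
    have h4 := congrArg (fun y => h * y * h⁻¹) hV
    simpa [mul_assoc] using h4
  exact d6_r_pow h3

section dihedral

variable {D n : ℕ} {a : ℕ → ℤ}

private theorem d6_h1 (hn : Even n) :
    hs (r 1 : DihedralGroup D) (sr 0) a (Hw (r 1) (sr 0) a n) (n + 1) = 1 := by
  rw [hs_mul _ _ a _ hn.add_one]
  unfold Hw
  rw [mul_inv_cancel]

private theorem d6_even {j : ℕ} (hj : Even j) (H : DihedralGroup D) :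
    hs (r 1 : DihedralGroup D) (sr 0) a H j * sr 0 * (hs (r 1) (sr 0) a H j)⁻¹ =
      sr ((kk (sg a) j : ℤ) : ZMod D) := by
  have h1 := hs_even (r 1 : DihedralGroup D) (sr 0) a H hj
  rw [dih_Xw] at h1
  generalize hs (r 1 : DihedralGroup D) (sr 0) a H j = h at h1 ⊢
  have h2 : h * (sr 0)⁻¹ * h⁻¹ = (sr 0)⁻¹ * r ((kk (sg a) j : ℤ) : ZMod D) := by
    rw [h1]; group
  rw [inv_sr, sr_mul_r, zero_add] at h2
  exact h2

private theorem d6_odd {j : ℕ} (hn : Even n) (hX : ((kk (sg a) (n + 1) : ℤ) : ZMod D) = 0)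
    (hj : Odd j) (hjn : j ≤ n + 1) :
    hs (r 1 : DihedralGroup D) (sr 0) a (Hw (r 1) (sr 0) a n) j * sr 0 *
      (hs (r 1) (sr 0) a (Hw (r 1) (sr 0) a n) j)⁻¹ = sr (-((kk (sg a) j : ℤ) : ZMod D)) := by
  have hX1 : Xw (r 1 : DihedralGroup D) (sr 0) a (n + 1) = 1 := by rw [dih_Xw, hX, r_zero]
  have h1 := hs_odd hn hX1 (d6_h1 hn) hj hjn
  rw [dih_Xw] at h1
  generalize hs (r 1 : DihedralGroup D) (sr 0) a (Hw (r 1) (sr 0) a n) j = h at h1 ⊢
  have h2 : h * (sr 0)⁻¹ * h⁻¹ = r ((kk (sg a) j : ℤ) : ZMod D) * (sr 0)⁻¹ := by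
    rw [h1]; group
  rw [inv_sr, r_mul_sr, zero_sub] at h2
  exact h2

private theorem d6_zpow (j : ℕ) (l : ℤ) :
    Xw (r 1 : DihedralGroup D) (sr 0) a j ^ l = r (((kk (sg a) j * l : ℤ)) : ZMod D) := by
  rw [dih_Xw, r_zpow]
  congr 1
  push_cast
  ring

/-- The heart: if the sixth power of `t⁻¹ A_{i+1} t A_{i+1}⁻¹` is trivial, then
`6 (k_i + b_{i+1} k_{i+1}) = 0`. -/
private theorem d6_key (hn : Even n) (hX : ((kk (sg a) (n + 1) : ℤ) : ZMod D) = 0) {i : ℕ}
    (hi : i + 1 ≤ n)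
    (hc : ((sr 0)⁻¹ * (Aw (r 1 : DihedralGroup D) (sr 0) a n (i + 1) * sr 0 *
      (Aw (r 1 : DihedralGroup D) (sr 0) a n (i + 1))⁻¹)) ^ 6 = 1) :
    (6 : ZMod D) * ((kk (sg a) i + sg a (i + 1) * kk (sg a) (i + 1) : ℤ) : ZMod D) = 0 := by
  rcases Nat.even_or_odd i with hi2 | hi2
  · -- `i` even, `i + 1` odd
    have ho : Odd (i + 1) := hi2.add_one
    have hne : ¬ Even (i + 1) := Nat.not_even_iff_odd.2 ho
    have hb : sg a (i + 1) = -a (i + 1) := by
      unfold sg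
      rw [ho.neg_one_pow, neg_one_mul]
    have hh := d6_even (D := D) (a := a) hi2 (Hw (r 1) (sr 0) a n)
    by_cases hev : Even (a (i + 1))
    · obtain ⟨l, hl⟩ := hev
      have hl2 : a (i + 1) / 2 = l := by omega
      unfold Aw at hc
      rw [if_pos ⟨l, hl⟩, Nat.add_sub_cancel, hl2, d6_zpow] at hc
      have h1 := d6_pow (d6_conj_r _ _ hh) hc
      rw [hb, hl]
      push_cast at h1 ⊢
      linear_combination h1
    · obtain ⟨l, hl⟩ := Int.not_even_iff_odd.1 hev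
      have hl2 : a (i + 1) / 2 = l := by omega
      unfold Aw at hc
      rw [if_neg hev, if_neg hne, Nat.add_sub_cancel, hl2, d6_zpow] at hc
      have h1 := d6_pow_move (d6_conj_r _ _ hh) (d6_odd hn hX ho (by omega)) hc
      rw [hb, hl]
      push_cast at h1 ⊢
      linear_combination h1
  · -- `i` odd, `i + 1` even
    have he : Even (i + 1) := hi2.add_one
    have hb : sg a (i + 1) = a (i + 1) := by
      unfold sg
      rw [he.neg_one_pow, one_mul]
    have hh := d6_odd hn hX hi2 (by omega)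
    by_cases hev : Even (a (i + 1))
    · obtain ⟨l, hl⟩ := hev
      have hl2 : a (i + 1) / 2 = l := by omega
      unfold Aw at hc
      rw [if_pos ⟨l, hl⟩, Nat.add_sub_cancel, hl2, d6_zpow] at hc
      have h1 := d6_pow (d6_conj_r _ _ hh) hc
      rw [hb, hl]
      push_cast at h1 ⊢
      linear_combination -h1
    · obtain ⟨l, hl⟩ := Int.not_even_iff_odd.1 hev
      have hl2 : a (i + 1) / 2 = l := by omega
      unfold Aw at hc
      rw [if_neg hev, if_pos he, Nat.add_sub_cancel, hl2, d6_zpow] at hc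
      have h1 := d6_pow_move (d6_conj_r _ _ hh) (d6_even he _) hc
      rw [hb, hl]
      push_cast at h1 ⊢
      linear_combination -h1

end dihedral

/-- The dihedral quotient. -/
private theorem d6_hom (g : ℕ) (a : ℕ → ℤ) {D : ℕ}
    (hX : ((kk (sg a) (2 * g + 1) : ℤ) : ZMod D) = 0) :
    ∃ f : TBGroup g a →* DihedralGroup D,
      f (PresentedGroup.of 0) = r 1 ∧ f (PresentedGroup.of 1) = sr 0 := by
  have hrel : ∀ w ∈ ({Xw (FreeGroup.of 0) (FreeGroup.of 1) a (2 * g + 1)} :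
      Set (FreeGroup (Fin 2))),
      FreeGroup.lift (![(r 1 : DihedralGroup D), sr 0]) w = 1 := by
    intro w hw
    rw [Set.mem_singleton_iff] at hw
    subst hw
    have ea : FreeGroup.lift (![(r 1 : DihedralGroup D), sr 0]) (FreeGroup.of 0) = r 1 :=
      FreeGroup.lift_apply_of
    have eb : FreeGroup.lift (![(r 1 : DihedralGroup D), sr 0]) (FreeGroup.of 1) = sr 0 :=
      FreeGroup.lift_apply_of
    rw [map_Xw, ea, eb, dih_Xw, hX, r_zero]
  exact ⟨PresentedGroup.toGroup hrel, PresentedGroup.toGroup.of hrel,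
    PresentedGroup.toGroup.of hrel⟩

/-- Growth by a factor of at least `7`. -/
private theorem d6_grow {n : ℕ} {b : ℕ → ℤ} (hb : ∀ j, 1 ≤ j → j ≤ n → 4 ≤ |b j|) (i : ℕ)
    (hi : i + 1 ≤ n) : 7 * |kk b (i + 1)| ≤ |kk b (i + 2)| := by
  have hb0 : ∀ j, 1 ≤ j → j ≤ n → b j ≠ 0 := by
    intro j h1 h2 h0
    have := hb j h1 h2
    rw [h0, abs_zero] at this
    omega
  have hg := kk_grow hb0 i (by omega)
  have h4 := hb (i + 1) (by omega) hi
  have e : kk b (i + 2) = kk b i + 2 * b (i + 1) * kk b (i + 1) := rfl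
  have h2 : |2 * b (i + 1) * kk b (i + 1)| ≤ |kk b (i + 2)| + |kk b i| := by
    have := abs_sub (kk b (i + 2)) (kk b i)
    have e2 : kk b (i + 2) - kk b i = 2 * b (i + 1) * kk b (i + 1) := by rw [e]; ring
    rwa [e2] at this
  have h3 : |2 * b (i + 1) * kk b (i + 1)| = 2 * |b (i + 1)| * |kk b (i + 1)| := by
    rw [abs_mul, abs_mul]
    norm_num
  have h5 : 0 ≤ |kk b (i + 1)| := abs_nonneg _
  nlinarith [mul_le_mul_of_nonneg_right h4 h5]

theorem V_pow_ne {g : ℕ} {a : ℕ → ℤ} (ha : ∀ j, 1 ≤ j → j ≤ 2 * g → 4 ≤ (a j).natAbs) {j : ℕ}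
    (h1 : 1 ≤ j) (h2 : j ≤ 2 * g) :
    ((PresentedGroup.of 1 : TBGroup g a)⁻¹ *
      (Aw (PresentedGroup.of 0 : TBGroup g a) (PresentedGroup.of 1) a (2 * g) j *
        PresentedGroup.of 1 *
        (Aw (PresentedGroup.of 0 : TBGroup g a) (PresentedGroup.of 1) a (2 * g) j)⁻¹)) ^ 6 ≠ 1 := by
  have hb : ∀ j, 1 ≤ j → j ≤ 2 * g → 4 ≤ |sg a j| := by
    intro j h1 h2
    have h4 := ha j h1 h2
    rw [← sg_natAbs] at h4
    rw [← Int.natCast_natAbs]
    exact_mod_cast h4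
  have hb0 : ∀ j, 1 ≤ j → j ≤ 2 * g → sg a j ≠ 0 := by
    intro j h1 h2 h0
    have := hb j h1 h2
    rw [h0, abs_zero] at this
    omega
  set D : ℕ := (kk (sg a) (2 * g + 1)).natAbs with hD
  have hX : ((kk (sg a) (2 * g + 1) : ℤ) : ZMod D) = 0 := by
    rw [ZMod.intCast_zmod_eq_zero_iff_dvd, hD, Int.natCast_natAbs]
    exact (abs_dvd _ _).2 dvd_rfl
  obtain ⟨f, hfx, hft⟩ := d6_hom g a hX
  intro h
  have h3 := congrArg f h
  simp only [map_pow, map_mul, map_inv, d6_map_Aw, hfx, hft, map_one] at h3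
  obtain ⟨i, rfl⟩ : ∃ i, j = i + 1 := ⟨j - 1, by omega⟩
  have h4 := d6_key ⟨g, by ring⟩ hX h2 h3
  have hk2 : kk (sg a) (i + 2) = kk (sg a) i + 2 * sg a (i + 1) * kk (sg a) (i + 1) := rfl
  have h5 : ((2 * (3 * (kk (sg a) i + sg a (i + 1) * kk (sg a) (i + 1))) : ℤ) : ZMod D) = 0 := by
    push_cast at h4 ⊢
    linear_combination h4
  rw [ZMod.intCast_zmod_eq_zero_iff_dvd, hD, Int.natCast_natAbs, abs_dvd] at h5
  have h6 : kk (sg a) (2 * g + 1) ∣ 3 * (kk (sg a) i + kk (sg a) (i + 2)) := by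
    refine h5.trans ⟨1, ?_⟩
    rw [hk2]
    ring
  have hg1 := kk_grow hb0 i (by omega)
  have hg2 := kk_grow hb0 (i + 1) h2
  have hg7 := d6_grow hb i h2
  rcases Nat.lt_or_ge (i + 1) (2 * g) with hlt | hge
  · -- `j < 2 g`
    have hg8 := d6_grow hb (i + 1) (by omega)
    have hmon : ∀ l, (i + 3) + l ≤ 2 * g + 1 →
        |kk (sg a) (i + 3)| ≤ |kk (sg a) ((i + 3) + l)| := by
      intro l
      induction l with
      | zero => intro _; exact le_rfl
      | succ l ih =>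
        intro hl
        exact (ih (by omega)).trans (kk_grow hb0 ((i + 3) + l) (by omega)).le
    have h7 := hmon (2 * g + 1 - (i + 3)) (by omega)
    have e7 : (i + 3) + (2 * g + 1 - (i + 3)) = 2 * g + 1 := by omega
    rw [e7] at h7
    have hne : 3 * (kk (sg a) i + kk (sg a) (i + 2)) ≠ 0 := by
      intro h0
      have e : kk (sg a) (i + 2) = -kk (sg a) i := by linarith
      rw [e, abs_neg] at hg2
      exact absurd (hg1.trans hg2) (lt_irrefl _)
    have h8 := Int.le_of_dvd (abs_pos.2 hne) ((abs_dvd_abs _ _).2 h6)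
    have h9 : |3 * (kk (sg a) i + kk (sg a) (i + 2))| ≤
        3 * (|kk (sg a) i| + |kk (sg a) (i + 2)|) := by
      rw [abs_mul]
      have := abs_add_le (kk (sg a) i) (kk (sg a) (i + 2))
      norm_num
      exact this
    have e8 : kk (sg a) (i + 1 + 1) = kk (sg a) (i + 2) := rfl
    have e9 : kk (sg a) (i + 1 + 2) = kk (sg a) (i + 3) := rfl
    rw [e8, e9] at hg8
    linarith
  · -- `j = 2 g`
    have hj : i + 1 = 2 * g := by omega
    have hi2 : i + 2 = 2 * g + 1 := by omega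
    have hne : 3 * kk (sg a) i ≠ 0 := by
      have := kk_ne hb0 (i := i) (by omega) (by omega)
      intro h0
      exact this (by linarith)
    have h7 : kk (sg a) (2 * g + 1) ∣ 3 * kk (sg a) i := by
      have h8 : kk (sg a) (2 * g + 1) ∣ 3 * kk (sg a) (i + 2) := by
        rw [hi2]
        exact Dvd.intro_left 3 rfl
      have h9 := dvd_sub h6 h8
      have e9 : 3 * (kk (sg a) i + kk (sg a) (i + 2)) - 3 * kk (sg a) (i + 2) =
          3 * kk (sg a) i := by ring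
      rwa [e9] at h9
    have h8 := Int.le_of_dvd (abs_pos.2 hne) ((abs_dvd_abs _ _).2 h7)
    rw [← hi2, abs_mul] at h8
    have h9 : |(3 : ℤ)| = 3 := rfl
    rw [h9] at h8
    linarith [abs_nonneg (kk (sg a) i)]

theorem xt_ne {g : ℕ} (hg : 1 ≤ g) {a : ℕ → ℤ} (ha : ∀ j, 1 ≤ j → j ≤ 2 * g → a j ≠ 0) :
    (PresentedGroup.of 0 : TBGroup g a) * PresentedGroup.of 1 ≠
      PresentedGroup.of 1 * PresentedGroup.of 0 := by
  have hb : ∀ j, 1 ≤ j → j ≤ 2 * g → sg a j ≠ 0 := by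
    intro j h1 h2
    have h4 := ha j h1 h2
    rw [← Int.natAbs_ne_zero] at h4 ⊢
    rwa [sg_natAbs]
  set D : ℕ := (kk (sg a) (2 * g + 1)).natAbs with hD
  have hX : ((kk (sg a) (2 * g + 1) : ℤ) : ZMod D) = 0 := by
    rw [ZMod.intCast_zmod_eq_zero_iff_dvd, hD, Int.natCast_natAbs]
    exact (abs_dvd _ _).2 dvd_rfl
  obtain ⟨f, hfx, hft⟩ := d6_hom g a hX
  intro h
  have h3 := congrArg f h
  rw [map_mul, map_mul, hfx, hft, r_mul_sr, sr_mul_r] at h3
  have h4 : (0 - 1 : ZMod D) = 0 + 1 := by injection h3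
  have h5 : ((2 : ℤ) : ZMod D) = 0 := by
    push_cast
    linear_combination -h4
  rw [ZMod.intCast_zmod_eq_zero_iff_dvd, hD, Int.natCast_natAbs, abs_dvd] at h5
  have hodd : Odd (kk (sg a) (2 * g + 1)) := by
    rw [← Int.not_even_iff_odd, kk_parity]
    simp
  have hmon : ∀ l, 2 + l ≤ 2 * g + 1 → 1 < |kk (sg a) (2 + l)| := by
    intro l
    induction l with
    | zero =>
      intro _
      have := kk_grow hb 1 (by omega)
      have e : |kk (sg a) 1| = 1 := rfl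
      rw [e] at this
      exact this
    | succ l ih =>
      intro hl
      exact (ih (by omega)).trans (kk_grow hb (2 + l) (by omega))
  have h6 := hmon (2 * g + 1 - 2) (by omega)
  have e6 : 2 + (2 * g + 1 - 2) = 2 * g + 1 := by omega
  rw [e6] at h6
  have h7 := Int.le_of_dvd (by norm_num) ((abs_dvd _ _).2 h5)
  have h8 : |kk (sg a) (2 * g + 1)| = 2 := by omega
  obtain ⟨q, hq⟩ := hodd
  rcases abs_eq (by norm_num : (0 : ℤ) ≤ 2) |>.1 h8 with h9 | h9 <;> omega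

end Pool.Agent.HT42
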