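import Pool.Agent.HT42.Dih
import Pool.Agent.HT42.Defs2

/-!
# HT42/DihY: the conjugates of the meridian by the elements `A_j` do not commute with it

In the dihedral quotient of order `2 |k_{2g+1}|` the conjugate of the reflection `sr 0` by `h_i` is
`sr (± k_i)`, and the one by `A_j` (resp. its translate by `h_j`) differs from `sr 0` (resp. from
the one by `h_j`) by `± (k_{j-1} + b_j k_j)`, which is not divisible by `k_{2g+1}`.
-/

set_option autoImplicit false

namespace Pool.Agent.HT42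

open Pool.Agent.DFJ Pool.Agent.TBK DihedralGroup

private theorem dy_map_hs {G G' : Type*} [Group G] [Group G'] (f : G →* G') (x t : G)
    (a : ℕ → ℤ) (H : G) (j : ℕ) : f (hs x t a H j) = hs (f x) (f t) a (f H) j := by
  induction j using Nat.twoStepInduction with
  | zero => exact map_one f
  | one => rfl
  | more j ih1 ih2 => rw [hs_succ2, hs_succ2, map_mul, map_zpow, map_Xw, ih1]

private theorem dy_map_Hw {G G' : Type*} [Group G] [Group G'] (f : G →* G') (x t : G)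
    (a : ℕ → ℤ) (n : ℕ) : f (Hw x t a n) = Hw (f x) (f t) a n := by
  unfold Hw
  rw [map_inv, dy_map_hs, map_one]

private theorem dy_map_Aw {G G' : Type*} [Group G] [Group G'] (f : G →* G') (x t : G)
    (a : ℕ → ℤ) (n j : ℕ) : f (Aw x t a n j) = Aw (f x) (f t) a n j := by
  unfold Aw
  split_ifs <;> simp only [map_mul, map_inv, map_zpow, map_Xw, dy_map_hs, dy_map_Hw]

private theorem dy_conj_r {D : ℕ} (i : ZMod D) (B : DihedralGroup D) {c : ZMod D}
    (h : B * sr 0 * B⁻¹ = sr c) : (r i * B) * sr 0 * (r i * B)⁻¹ = sr (c - 2 * i) := by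
  have e : (r i * B) * sr 0 * (r i * B)⁻¹ = r i * (B * sr 0 * B⁻¹) * (r i)⁻¹ := by group
  rw [e, h, r_mul_sr, inv_r, sr_mul_r]
  congr 1
  ring

private theorem dy_sr_comm {D : ℕ} {c c' : ZMod D} (h : sr c * sr c' = sr c' * sr c) :
    2 * (c - c') = 0 := by
  rw [sr_mul_sr, sr_mul_sr] at h
  have h1 : c' - c = c - c' := by injection h
  linear_combination -h1

/-- Commuting with `t` is moved by `h`. -/
private theorem dy_move {G : Type*} [Group G] {h B t : G}
    (hc : (h⁻¹ * B) * t * (h⁻¹ * B)⁻¹ * t = t * ((h⁻¹ * B) * t * (h⁻¹ * B)⁻¹)) :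
    (B * t * B⁻¹) * (h * t * h⁻¹) = (h * t * h⁻¹) * (B * t * B⁻¹) := by
  have e1 : (B * t * B⁻¹) * (h * t * h⁻¹) = h * ((h⁻¹ * B) * t * (h⁻¹ * B)⁻¹ * t) * h⁻¹ := by
    group
  have e2 : (h * t * h⁻¹) * (B * t * B⁻¹) = h * (t * ((h⁻¹ * B) * t * (h⁻¹ * B)⁻¹)) * h⁻¹ := by
    group
  rw [e1, e2, hc]

section dihedral

variable {D n : ℕ} {a : ℕ → ℤ}

private theorem dy_h1 (hn : Even n) :
    hs (r 1 : DihedralGroup D) (sr 0) a (Hw (r 1) (sr 0) a n) (n + 1) = 1 := by
  rw [hs_mul _ _ a _ hn.add_one]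
  unfold Hw
  rw [mul_inv_cancel]

private theorem dy_even {j : ℕ} (hj : Even j) (H : DihedralGroup D) :
    hs (r 1 : DihedralGroup D) (sr 0) a H j * sr 0 * (hs (r 1) (sr 0) a H j)⁻¹ =
      sr ((kk (sg a) j : ℤ) : ZMod D) := by
  have h1 := hs_even (r 1 : DihedralGroup D) (sr 0) a H hj
  rw [dih_Xw] at h1
  generalize hs (r 1 : DihedralGroup D) (sr 0) a H j = h at h1 ⊢
  have h2 : h * (sr 0)⁻¹ * h⁻¹ = (sr 0)⁻¹ * r ((kk (sg a) j : ℤ) : ZMod D) := by
    rw [h1]; group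
  rw [inv_sr, sr_mul_r, zero_add] at h2
  exact h2

private theorem dy_odd {j : ℕ} (hn : Even n) (hX : ((kk (sg a) (n + 1) : ℤ) : ZMod D) = 0)
    (hj : Odd j) (hjn : j ≤ n + 1) :
    hs (r 1 : DihedralGroup D) (sr 0) a (Hw (r 1) (sr 0) a n) j * sr 0 *
      (hs (r 1) (sr 0) a (Hw (r 1) (sr 0) a n) j)⁻¹ = sr (-((kk (sg a) j : ℤ) : ZMod D)) := by
  have hX1 : Xw (r 1 : DihedralGroup D) (sr 0) a (n + 1) = 1 := by rw [dih_Xw, hX, r_zero]
  have h1 := hs_odd hn hX1 (dy_h1 hn) hj hjn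
  rw [dih_Xw] at h1
  generalize hs (r 1 : DihedralGroup D) (sr 0) a (Hw (r 1) (sr 0) a n) j = h at h1 ⊢
  have h2 : h * (sr 0)⁻¹ * h⁻¹ = r ((kk (sg a) j : ℤ) : ZMod D) * (sr 0)⁻¹ := by
    rw [h1]; group
  rw [inv_sr, r_mul_sr, zero_sub] at h2
  exact h2

private theorem dy_pow (j : ℕ) (l : ℤ) :
    Xw (r 1 : DihedralGroup D) (sr 0) a j ^ l = r (((kk (sg a) j * l : ℤ)) : ZMod D) := by
  rw [dih_Xw, r_zpow]
  congr 1
  push_cast
  ring

/-- The heart: if `A_{i+1} t A_{i+1}⁻¹` commutes with `t`, then `2 (k_i + b_{i+1} k_{i+1}) = 0`. -/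
private theorem dy_key (hn : Even n) (hX : ((kk (sg a) (n + 1) : ℤ) : ZMod D) = 0) {i : ℕ}
    (hi : i + 1 ≤ n)
    (hc : Aw (r 1 : DihedralGroup D) (sr 0) a n (i + 1) * sr 0 *
      (Aw (r 1 : DihedralGroup D) (sr 0) a n (i + 1))⁻¹ * sr 0 =
      sr 0 * (Aw (r 1 : DihedralGroup D) (sr 0) a n (i + 1) * sr 0 *
      (Aw (r 1 : DihedralGroup D) (sr 0) a n (i + 1))⁻¹)) :
    (2 : ZMod D) * ((kk (sg a) i + sg a (i + 1) * kk (sg a) (i + 1) : ℤ) : ZMod D) = 0 := by
  rcases Nat.even_or_odd i with hi2 | hi2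
  · -- `i` even, `i + 1` odd
    have ho : Odd (i + 1) := hi2.add_one
    have hne : ¬ Even (i + 1) := Nat.not_even_iff_odd.2 ho
    have hb : sg a (i + 1) = -a (i + 1) := by
      unfold sg
      rw [ho.neg_one_pow, neg_one_mul]
    have hh := dy_even (D := D) (a := a) hi2 (Hw (r 1) (sr 0) a n)
    by_cases hev : Even (a (i + 1))
    · obtain ⟨l, hl⟩ := hev
      have hl2 : a (i + 1) / 2 = l := by omega
      unfold Aw at hc
      rw [if_pos ⟨l, hl⟩, Nat.add_sub_cancel, hl2, dy_pow, dy_conj_r _ _ hh] at hc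
      have h1 := dy_sr_comm hc
      rw [hb, hl]
      push_cast at h1 ⊢
      linear_combination h1
    · obtain ⟨l, hl⟩ := Int.not_even_iff_odd.1 hev
      have hl2 : a (i + 1) / 2 = l := by omega
      unfold Aw at hc
      rw [if_neg hev, if_neg hne, Nat.add_sub_cancel, hl2, dy_pow] at hc
      have h0 := dy_move hc
      rw [dy_conj_r _ _ hh, dy_odd hn hX ho (by omega)] at h0
      have h1 := dy_sr_comm h0
      rw [hb, hl]
      push_cast at h1 ⊢
      linear_combination h1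
  · -- `i` odd, `i + 1` even
    have he : Even (i + 1) := hi2.add_one
    have hb : sg a (i + 1) = a (i + 1) := by
      unfold sg
      rw [he.neg_one_pow, one_mul]
    have hh := dy_odd hn hX hi2 (by omega)
    by_cases hev : Even (a (i + 1))
    · obtain ⟨l, hl⟩ := hev
      have hl2 : a (i + 1) / 2 = l := by omega
      unfold Aw at hc
      rw [if_pos ⟨l, hl⟩, Nat.add_sub_cancel, hl2, dy_pow, dy_conj_r _ _ hh] at hc
      have h1 := dy_sr_comm hc
      rw [hb, hl]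
      push_cast at h1 ⊢
      linear_combination -h1
    · obtain ⟨l, hl⟩ := Int.not_even_iff_odd.1 hev
      have hl2 : a (i + 1) / 2 = l := by omega
      unfold Aw at hc
      rw [if_neg hev, if_pos he, Nat.add_sub_cancel, hl2, dy_pow] at hc
      have h0 := dy_move hc
      rw [dy_conj_r _ _ hh, dy_even he] at h0
      have h1 := dy_sr_comm h0
      rw [hb, hl]
      push_cast at h1 ⊢
      linear_combination -h1

end dihedral

theorem A_not_comm {g : ℕ} {a : ℕ → ℤ} (ha : ∀ j, 1 ≤ j → j ≤ 2 * g → a j ≠ 0) {j : ℕ}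
    (h1 : 1 ≤ j) (h2 : j ≤ 2 * g) :
    Aw (PresentedGroup.of 0 : TBGroup g a) (PresentedGroup.of 1) a (2 * g) j *
      PresentedGroup.of 1 *
      (Aw (PresentedGroup.of 0 : TBGroup g a) (PresentedGroup.of 1) a (2 * g) j)⁻¹ *
      PresentedGroup.of 1 ≠
    PresentedGroup.of 1 *
      (Aw (PresentedGroup.of 0 : TBGroup g a) (PresentedGroup.of 1) a (2 * g) j *
      PresentedGroup.of 1 *
      (Aw (PresentedGroup.of 0 : TBGroup g a) (PresentedGroup.of 1) a (2 * g) j)⁻¹) := by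
  have hb : ∀ j, 1 ≤ j → j ≤ 2 * g → sg a j ≠ 0 := by
    intro j h1 h2
    have h4 := ha j h1 h2
    rw [← Int.natAbs_ne_zero] at h4 ⊢
    rwa [sg_natAbs]
  set D : ℕ := (kk (sg a) (2 * g + 1)).natAbs with hD
  have hX : ((kk (sg a) (2 * g + 1) : ℤ) : ZMod D) = 0 := by
    rw [ZMod.intCast_zmod_eq_zero_iff_dvd, hD, Int.natCast_natAbs]
    exact (abs_dvd _ _).2 dvd_rfl
  have hrel : ∀ w ∈ ({Xw (FreeGroup.of 0) (FreeGroup.of 1) a (2 * g + 1)} :
      Set (FreeGroup (Fin 2))),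
      FreeGroup.lift (![(r 1 : DihedralGroup D), sr 0]) w = 1 := by
    intro w hw
    rw [Set.mem_singleton_iff] at hw
    subst hw
    have ea : FreeGroup.lift (![(r 1 : DihedralGroup D), sr 0]) (FreeGroup.of 0) = r 1 :=
      FreeGroup.lift_apply_of
    have eb : FreeGroup.lift (![(r 1 : DihedralGroup D), sr 0]) (FreeGroup.of 1) = sr 0 :=
      FreeGroup.lift_apply_of
    rw [map_Xw, ea, eb, dih_Xw, hX, r_zero]
  set f : TBGroup g a →* DihedralGroup D := PresentedGroup.toGroup hrel with hf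
  have hfx : f (PresentedGroup.of 0) = r 1 := PresentedGroup.toGroup.of hrel
  have hft : f (PresentedGroup.of 1) = sr 0 := PresentedGroup.toGroup.of hrel
  intro h
  have h3 := congrArg f h
  simp only [map_mul, map_inv, dy_map_Aw, hfx, hft] at h3
  obtain ⟨i, rfl⟩ : ∃ i, j = i + 1 := ⟨j - 1, by omega⟩
  have h4 := dy_key ⟨g, by ring⟩ hX h2 h3
  set v : ℤ := kk (sg a) i + sg a (i + 1) * kk (sg a) (i + 1) with hv
  have h5 : ((2 * v : ℤ) : ZMod D) = 0 := by
    push_cast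
    exact h4
  rw [ZMod.intCast_zmod_eq_zero_iff_dvd, hD, Int.natCast_natAbs, abs_dvd] at h5
  have hk2 : kk (sg a) (i + 2) = kk (sg a) i + 2 * sg a (i + 1) * kk (sg a) (i + 1) := rfl
  have hodd : Odd (kk (sg a) (2 * g + 1)) := by
    rw [← Int.not_even_iff_odd, kk_parity]
    simp
  have h6 : kk (sg a) (2 * g + 1) ∣ v := by
    have hcop : IsCoprime (kk (sg a) (2 * g + 1)) 2 := by
      rw [Int.isCoprime_iff_gcd_eq_one, Int.gcd_comm]
      obtain ⟨q, hq⟩ := hodd
      rw [hq]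
      have : Int.gcd 2 (2 * q + 1) = Int.gcd 2 1 := by
        simp
      rw [this]
      rfl
    exact hcop.dvd_of_dvd_mul_left h5
  have hg1 := kk_grow hb i (by omega)
  have hg2 := kk_grow hb (i + 1) h2
  have hne : v ≠ 0 := by
    intro h0
    have e : kk (sg a) (i + 2) = -kk (sg a) i := by
      rw [hk2]
      linear_combination 2 * h0
    rw [e, abs_neg] at hg2
    exact absurd (hg1.trans hg2) (lt_irrefl _)
  have hlt : ∀ l, (i + 2) + l ≤ 2 * g + 1 → |kk (sg a) (i + 2)| ≤ |kk (sg a) ((i + 2) + l)| := by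
    intro l
    induction l with
    | zero => intro _; exact le_rfl
    | succ l ih =>
      intro hl
      exact (ih (by omega)).trans (kk_grow hb ((i + 2) + l) (by omega)).le
  have h7 := hlt (2 * g + 1 - (i + 2)) (by omega)
  have e7 : (i + 2) + (2 * g + 1 - (i + 2)) = 2 * g + 1 := by omega
  rw [e7] at h7
  have h8 : |kk (sg a) (2 * g + 1)| ≤ |v| :=
    Int.le_of_dvd (abs_pos.2 hne) ((abs_dvd_abs _ _).2 h6)
  have h9 : 2 * |v| = |kk (sg a) i + kk (sg a) (i + 2)| := by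
    rw [hk2, ← abs_two, ← abs_mul, hv]
    congr 1
    ring
  have h10 := abs_add_le (kk (sg a) i) (kk (sg a) (i + 2))
  have hg3 : |kk (sg a) i| < |kk (sg a) (i + 2)| := hg1.trans hg2
  linarith

end Pool.Agent.HT42
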