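import Pool.Agent.HT42.Defs
import Pool.Agent.DFJ.Cheb

/-!
# HT42/Est: one factor of the top coefficient near the dihedral point, and the product

`est`: if the three consecutive terms of the chain are `0` or close to `± 2 i`, the factor `PP` is
either tiny or has modulus `> 1` (and always `≤ 1 + 2 δ`). `prod_ne`: a product of numbers that are
tiny or of modulus in `(1, 2]` is not `1`.
-/

set_option autoImplicit false

namespace Pool.Agent.HT42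

open Pool.Agent.DFJ Pool.Agent.TBK

/-- A number with `u² + 4` small is nearly imaginary, of modulus at most `4`. -/
private theorem near_2i {u : ℂ} {δ : ℝ} (hδ : δ ≤ 1 / 10 ^ 9) (hδ0 : 0 ≤ δ)
    (hu : u = 0 ∨ ‖u ^ 2 + 4‖ ≤ δ) : |u.re| ≤ δ ∧ |u.im| ≤ 3 ∧ ‖u‖ ≤ 4 := by
  rcases hu with rfl | hu
  · simp
    exact hδ0
  · have h1 : |(u ^ 2 + 4).re| ≤ δ := (Complex.abs_re_le_norm _).trans hu
    have h2 : |(u ^ 2 + 4).im| ≤ δ := (Complex.abs_im_le_norm _).trans hu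
    have e1 : (u ^ 2 + 4).re = u.re ^ 2 - u.im ^ 2 + 4 := by
      simp [pow_two, Complex.mul_re]
    have e2 : (u ^ 2 + 4).im = 2 * (u.re * u.im) := by
      simp [pow_two, Complex.mul_im]; ring
    rw [e1] at h1
    rw [e2, abs_mul, abs_mul, abs_two] at h2
    have h3 := abs_le.1 h1
    have hy : (3 / 2 : ℝ) ≤ |u.im| := by
      by_contra hh
      push Not at hh
      have h4 : u.im ^ 2 ≤ (3 / 2) ^ 2 := by
        rw [← sq_abs u.im]
        exact pow_le_pow_left₀ (abs_nonneg _) hh.le 2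
      nlinarith [sq_nonneg u.re]
    have hx : |u.re| ≤ δ := by
      nlinarith [abs_nonneg u.re]
    have hx1 : u.re ^ 2 ≤ 1 := by
      rw [← sq_abs u.re]
      nlinarith [abs_nonneg u.re]
    have hy2 : |u.im| ≤ 3 := by
      apply abs_le_of_sq_le_sq _ (by norm_num)
      nlinarith
    refine ⟨hx, hy2, ?_⟩
    have h5 := Complex.norm_le_abs_re_add_abs_im u
    linarith

theorem prod_ne {n : ℕ} {x : ℕ → ℂ} {ε : ℝ} (hn : 1 ≤ n) (hε : ε * 2 ^ n < 1)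
    (h : ∀ j, 1 ≤ j → j ≤ n → ‖x j‖ ≤ 2 ∧ (‖x j‖ ≤ ε ∨ 1 < ‖x j‖)) :
    ∏ j ∈ Finset.Icc 1 n, x j ≠ 1 := by
  intro hp
  have hnorm : ∏ j ∈ Finset.Icc 1 n, ‖x j‖ = 1 := by
    rw [← norm_prod, hp, norm_one]
  by_cases hex : ∃ j, 1 ≤ j ∧ j ≤ n ∧ ‖x j‖ ≤ ε
  · obtain ⟨j, hj1, hjn, hj⟩ := hex
    have hmem : j ∈ Finset.Icc 1 n := Finset.mem_Icc.2 ⟨hj1, hjn⟩
    rw [← Finset.mul_prod_erase _ _ hmem] at hnorm
    have h1 : ∏ i ∈ (Finset.Icc 1 n).erase j, ‖x i‖ ≤ 2 ^ n := by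
      calc ∏ i ∈ (Finset.Icc 1 n).erase j, ‖x i‖ ≤ ∏ i ∈ (Finset.Icc 1 n).erase j, (2 : ℝ) := by
            apply Finset.prod_le_prod
            · intro i _
              exact norm_nonneg _
            · intro i hi
              have hi' := Finset.mem_Icc.1 (Finset.mem_of_mem_erase hi)
              exact (h i hi'.1 hi'.2).1
        _ = 2 ^ ((Finset.Icc 1 n).erase j).card := by rw [Finset.prod_const]
        _ ≤ 2 ^ n := by
            apply pow_le_pow_right₀ (by norm_num)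
            calc ((Finset.Icc 1 n).erase j).card ≤ (Finset.Icc 1 n).card :=
                  Finset.card_le_card (Finset.erase_subset _ _)
              _ = n := by simp
    have h2 : 0 ≤ ∏ i ∈ (Finset.Icc 1 n).erase j, ‖x i‖ :=
      Finset.prod_nonneg fun i _ => norm_nonneg _
    have h3 : ‖x j‖ * ∏ i ∈ (Finset.Icc 1 n).erase j, ‖x i‖ ≤ ε * 2 ^ n :=
      mul_le_mul hj h1 h2 ((norm_nonneg _).trans hj)
    linarith
  · push Not at hex
    have h1 : ∏ i ∈ Finset.Icc 1 n, (1 : ℝ) < ∏ i ∈ Finset.Icc 1 n, ‖x i‖ := by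
      apply Finset.prod_lt_prod
      · intro i _
        norm_num
      · intro i hi
        have hi' := Finset.mem_Icc.1 hi
        rcases (h i hi'.1 hi'.2).2 with h4 | h4
        · exact absurd h4 (not_le.2 (hex i hi'.1 hi'.2))
        · exact h4.le
      · refine ⟨1, Finset.mem_Icc.2 ⟨le_refl 1, hn⟩, ?_⟩
        rcases (h 1 le_rfl hn).2 with h4 | h4
        · exact absurd h4 (not_le.2 (hex 1 le_rfl hn))
        · exact h4
    rw [hnorm] at h1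
    simp at h1

/-- The final estimate in the case `C` near `-1`, with `X = PP - 1`. -/
private theorem fin_est {η A X r' : ℂ} (hη0 : η ≠ 0) (hη : ‖η‖ ≤ 1 / 10 ^ 9)
    (hre : 8 / 10 * ‖η‖ ≤ η.re) (hA1 : 19 / 10 ≤ A.re) (hA2 : |A.im| ≤ 1 / 100) (hA3 : ‖A‖ ≤ 14)
    (hr : ‖r'‖ ≤ 1 / 100) (hX : X * (8 + r') = η * A) : 0 < X.re ∧ ‖X‖ ≤ 2 * ‖η‖ := by
  have ha : 0 < ‖η‖ := norm_pos_iff.2 hη0
  have him : |η.im| ≤ ‖η‖ := Complex.abs_im_le_norm η
  have h1 : ‖X‖ * 7 ≤ ‖η‖ * 14 := by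
    have h2 : ‖X‖ * ‖8 + r'‖ = ‖η‖ * ‖A‖ := by rw [← norm_mul, hX, norm_mul]
    have h3 : (7 : ℝ) ≤ ‖8 + r'‖ := by
      have h4 : ‖(8 : ℂ)‖ - ‖r'‖ ≤ ‖8 + r'‖ := by
        have := norm_sub_le (8 + r') r'
        rw [add_sub_cancel_right] at this
        linarith
      have h5 : ‖(8 : ℂ)‖ = 8 := by norm_num
      rw [h5] at h4
      linarith
    calc ‖X‖ * 7 ≤ ‖X‖ * ‖8 + r'‖ := mul_le_mul_of_nonneg_left h3 (norm_nonneg _)
      _ = ‖η‖ * ‖A‖ := h2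
      _ ≤ ‖η‖ * 14 := mul_le_mul_of_nonneg_left hA3 (norm_nonneg _)
  refine ⟨?_, by linarith⟩
  have h6 : 8 * X.re = (η * A).re - (r' * X).re := by
    have h7 : (8 : ℂ) * X = η * A - r' * X := by rw [← hX]; ring
    have h8 := congrArg Complex.re h7
    rw [Complex.sub_re] at h8
    have h9 : ((8 : ℂ) * X).re = 8 * X.re := by
      rw [Complex.mul_re]
      simp
    rw [h9] at h8
    exact h8
  have h10 : |(r' * X).re| ≤ ‖r'‖ * ‖X‖ := by
    rw [← norm_mul]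
    exact Complex.abs_re_le_norm _
  have h11 : ‖r'‖ * ‖X‖ ≤ 1 / 100 * (3 * ‖η‖) :=
    mul_le_mul hr (by linarith) (norm_nonneg _) (by norm_num)
  have h12 : (η * A).re = η.re * A.re - η.im * A.im := Complex.mul_re _ _
  have h13 : |η.im * A.im| ≤ ‖η‖ * (1 / 100) := by
    rw [abs_mul]
    exact mul_le_mul him hA2 (abs_nonneg _) (norm_nonneg _)
  have h14 : 8 / 10 * ‖η‖ * (19 / 10) ≤ η.re * A.re :=
    mul_le_mul hre hA1 (by norm_num) (le_trans (by positivity) hre)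
  have h15 := (abs_le.1 h10).2
  have h16 := (abs_le.1 h13).2
  linarith

theorem est {m : ℕ} {u c u' e C P : ℂ} (h : Reg m u c u' e C P) {δ : ℝ} (hδ : δ ≤ 1 / 10 ^ 9)
    (hc : ‖c ^ 2 + 4‖ ≤ δ) (hc0 : c ^ 2 + 4 ≠ 0) (hu : u = 0 ∨ ‖u ^ 2 + 4‖ ≤ δ)
    (hu' : u' = 0 ∨ ‖u' ^ 2 + 4‖ ≤ δ) (he : ‖e‖ ≤ 160)
    (hre : 9 / 10 * ‖4 - (c ^ 2 + 2) ^ 2‖ ≤ (4 - (c ^ 2 + 2) ^ 2).re) :
    ‖PP m (c ^ 2 + 2)‖ ≤ 1 + 2 * δ ∧
      (‖PP m (c ^ 2 + 2)‖ ≤ 10 ^ 5 * δ ∨ 1 < ‖PP m (c ^ 2 + 2)‖) := by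
  have hδ0 : 0 ≤ δ := (norm_nonneg _).trans hc
  obtain ⟨η, hη⟩ : ∃ η : ℂ, η = c ^ 2 + 4 := ⟨_, rfl⟩
  have hc2 : c ^ 2 = η - 4 := by rw [hη]; ring
  rw [← hη] at hc hc0
  obtain ⟨X, hX⟩ : ∃ X : ℂ, X = PP m (c ^ 2 + 2) - 1 := ⟨_, rfl⟩
  have hPPX : PP m (c ^ 2 + 2) = 1 + X := by rw [hX]; ring
  -- the basic relations
  have hPP : (4 - η) * (1 + X) = 2 - 2 * C := by
    have h1 := PP_spec m (c ^ 2 + 2)
    rw [← h.hC, hPPX, hc2] at h1
    linear_combination -h1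
  obtain ⟨E, hE⟩ : ∃ E : ℂ, E = e ^ 2 := ⟨_, rfl⟩
  have hEn : ‖E‖ ≤ 25600 := by
    rw [hE, norm_pow]
    nlinarith [norm_nonneg e]
  have hCC : (1 - C) * (1 + C) = E * (η * (4 - η)) / 4 := by
    have h1 := h.hCC
    rw [hc2, ← hE] at h1
    linear_combination -h1
  have h4η : ‖4 - η‖ ≤ 5 := by
    have h1 := norm_sub_le (4 : ℂ) η
    have h2 : ‖(4 : ℂ)‖ = 4 := by norm_num
    rw [h2] at h1
    linarith
  have h4η' : 3 ≤ ‖4 - η‖ := by
    have h1 := norm_sub_norm_le (4 : ℂ) η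
    have h2 : ‖(4 : ℂ)‖ = 4 := by norm_num
    rw [h2] at h1
    linarith
  have hCCn : ‖1 - C‖ * ‖1 + C‖ ≤ 32000 * δ := by
    rw [← norm_mul, hCC, norm_div, norm_mul, norm_mul]
    have h2 : ‖(4 : ℂ)‖ = 4 := by norm_num
    rw [h2, div_le_iff₀ (by norm_num)]
    have h3 : ‖η‖ * ‖4 - η‖ ≤ δ * 5 := mul_le_mul hc h4η (norm_nonneg _) hδ0
    have h4 : ‖E‖ * (‖η‖ * ‖4 - η‖) ≤ 25600 * (δ * 5) :=
      mul_le_mul hEn h3 (by positivity) (by norm_num)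
    linarith
  have hsum : 2 ≤ ‖1 - C‖ + ‖1 + C‖ := by
    have h1 := norm_add_le (1 - C) (1 + C)
    have h2 : (1 - C) + (1 + C) = 2 := by ring
    rw [h2] at h1
    simpa using h1
  rw [hPPX]
  rcases le_or_gt 1 ‖1 + C‖ with hcase | hcase
  · -- `C` near `1`
    have h1 : ‖1 - C‖ ≤ 32000 * δ := by nlinarith [norm_nonneg (1 - C)]
    have h2 : ‖4 - η‖ * ‖1 + X‖ = 2 * ‖1 - C‖ := by
      rw [← norm_mul, hPP, show (2 - 2 * C : ℂ) = 2 * (1 - C) by ring, norm_mul]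
      norm_num
    have h3 : 3 * ‖1 + X‖ ≤ 2 * (32000 * δ) := by
      have := mul_le_mul_of_nonneg_right h4η' (norm_nonneg (1 + X))
      linarith
    have h4 : δ ≤ 1 / 1000000000 := by norm_num at hδ ⊢; linarith
    refine ⟨by linarith, Or.inl (by linarith)⟩
  · -- `C` near `-1`
    have hκ1 : (1 : ℝ) ≤ ‖1 - C‖ := by linarith
    obtain ⟨γ, hγ⟩ : ∃ γ : ℂ, γ = 1 + C := ⟨_, rfl⟩
    rw [← hγ] at hCCn hcase hsum
    have hγn : ‖γ‖ ≤ 32000 * δ := by nlinarith [norm_nonneg γ]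
    have hCγ : C = γ - 1 := by rw [hγ]; ring
    have hδ' : δ ≤ 1 / 1000000000 := by norm_num at hδ ⊢; linarith
    obtain ⟨κ, hκ⟩ : ∃ κ : ℝ, κ = 32000 * δ := ⟨_, rfl⟩
    rw [← hκ] at hγn
    have hκ0 : 0 ≤ κ := by rw [hκ]; positivity
    have hκs : κ ≤ 1 / 30000 := by rw [hκ]; linarith
    obtain ⟨u1, u2, u3⟩ := near_2i hδ hδ0 hu
    obtain ⟨v1, v2, v3⟩ := near_2i hδ hδ0 hu'
    -- `z = C u - u' = e c P`
    obtain ⟨z, hz⟩ : ∃ z : ℂ, z = C * u - u' := ⟨_, rfl⟩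
    have hz1 : z = e * c * P := by rw [hz, h.rel]; ring
    have hγu : ‖γ * u‖ ≤ 4 * κ := by
      rw [norm_mul]
      nlinarith [norm_nonneg γ, norm_nonneg u]
    have hzre : |z.re| ≤ 5 * κ := by
      have e1 : z.re = (γ * u).re - u.re - u'.re := by
        rw [hz, hCγ, sub_mul, one_mul, Complex.sub_re, Complex.sub_re]
      have h1 := (Complex.abs_re_le_norm (γ * u)).trans hγu
      rw [e1, abs_le]
      have h2 := abs_le.1 h1
      have h3 := abs_le.1 u1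
      have h4 := abs_le.1 v1
      have h5 : 2 * δ ≤ κ := by rw [hκ]; linarith
      constructor <;> linarith [h2.1, h2.2, h3.1, h3.2, h4.1, h4.2]
    have hzim : |z.im| ≤ 7 := by
      have e1 : z.im = (γ * u).im - u.im - u'.im := by
        rw [hz, hCγ, sub_mul, one_mul, Complex.sub_im, Complex.sub_im]
      have h1 := (Complex.abs_im_le_norm (γ * u)).trans hγu
      rw [e1, abs_le]
      have h2 := abs_le.1 h1
      have h3 := abs_le.1 u2
      have h4 := abs_le.1 v2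
      constructor <;> linarith [h2.1, h2.2, h3.1, h3.2, h4.1, h4.2]
    -- `c² P² = 16 + ρ`
    obtain ⟨p, hp⟩ : ∃ p : ℂ, p = P ^ 2 + 4 := ⟨_, rfl⟩
    have hpn : ‖p‖ ≤ δ := by
      rcases hu with h0 | h0
      · have : p = η := by
          rw [hp, h.hP, hη, h0]; ring
        rw [this]
        exact hc
      · have : p = (u ^ 2 + 4) * η / 4 := by
          rw [hp, h.hP, hη]; ring
        rw [this, norm_div, norm_mul]
        have h2 : ‖(4 : ℂ)‖ = 4 := by norm_num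
        rw [h2, div_le_iff₀ (by norm_num)]
        have h3 : ‖u ^ 2 + 4‖ * ‖η‖ ≤ δ * δ := mul_le_mul h0 hc (norm_nonneg _) hδ0
        nlinarith
    obtain ⟨ρ, hρ⟩ : ∃ ρ : ℂ, ρ = η * p - 4 * η - 4 * p := ⟨_, rfl⟩
    have hρn : ‖ρ‖ ≤ 9 * δ := by
      rw [hρ]
      have h2 : ‖(4 : ℂ)‖ = 4 := by norm_num
      calc ‖η * p - 4 * η - 4 * p‖ ≤ ‖η * p - 4 * η‖ + ‖4 * p‖ := norm_sub_le _ _
        _ ≤ ‖η * p‖ + ‖4 * η‖ + ‖4 * p‖ := by linarith [norm_sub_le (η * p) (4 * η)]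
        _ = ‖η‖ * ‖p‖ + 4 * ‖η‖ + 4 * ‖p‖ := by rw [norm_mul, norm_mul, norm_mul, h2]
        _ ≤ δ * δ + 4 * δ + 4 * δ := by
            have h3 : ‖η‖ * ‖p‖ ≤ δ * δ := mul_le_mul hc hpn (norm_nonneg _) hδ0
            linarith
        _ ≤ 9 * δ := by nlinarith
    have hz2 : z ^ 2 = E * (16 + ρ) := by
      have hP2 : P ^ 2 = p - 4 := by rw [hp]; ring
      rw [hz1, hE, hρ, mul_pow, mul_pow, hc2, hP2]
      ring
    have hρE : ‖ρ * E‖ ≤ 8 * κ := by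
      rw [norm_mul, hκ]
      have := mul_le_mul hρn hEn (norm_nonneg _) (by positivity)
      linarith
    have h16 : 16 * E = z ^ 2 - ρ * E := by rw [hz2]; ring
    have hz2re : (z ^ 2).re ≤ κ := by
      have e1 : (z ^ 2).re = z.re ^ 2 - z.im ^ 2 := by simp [pow_two, Complex.mul_re]
      rw [e1]
      have h1 : z.re ^ 2 ≤ (5 * κ) ^ 2 := by
        rw [← sq_abs z.re]
        exact pow_le_pow_left₀ (abs_nonneg _) hzre 2
      nlinarith [sq_nonneg z.im]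
    have hz2im : |(z ^ 2).im| ≤ 70 * κ := by
      have e1 : (z ^ 2).im = 2 * (z.re * z.im) := by simp [pow_two, Complex.mul_im]; ring
      rw [e1, abs_mul, abs_mul, abs_two]
      have h1 : |z.re| * |z.im| ≤ 5 * κ * 7 := mul_le_mul hzre hzim (abs_nonneg _) (by positivity)
      linarith
    have hzn : ‖z‖ ≤ 8 := by
      have h1 := Complex.norm_le_abs_re_add_abs_im z
      linarith
    have h16re : 16 * E.re = (z ^ 2).re - (ρ * E).re := by
      have h1 := congrArg Complex.re h16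
      rw [Complex.sub_re] at h1
      rw [← h1, Complex.mul_re]
      simp
    have h16im : 16 * E.im = (z ^ 2).im - (ρ * E).im := by
      have h1 := congrArg Complex.im h16
      rw [Complex.sub_im] at h1
      rw [← h1, Complex.mul_im]
      simp
    have hρre := abs_le.1 ((Complex.abs_re_le_norm (ρ * E)).trans hρE)
    have hρim := abs_le.1 ((Complex.abs_im_le_norm (ρ * E)).trans hρE)
    have hEre : E.re ≤ κ := by linarith [hρre.1, hρre.2]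
    have hEim : |E.im| ≤ 5 * κ := by
      have h1 := abs_le.1 hz2im
      rw [abs_le]
      constructor <;> linarith [hρim.1, hρim.2, h1.1, h1.2]
    have hEn' : ‖E‖ ≤ 5 := by
      have h1 : 16 * ‖E‖ ≤ ‖z‖ ^ 2 + ‖ρ * E‖ := by
        have h2 : ‖16 * E‖ = 16 * ‖E‖ := by rw [norm_mul]; norm_num
        rw [← h2, h16, ← norm_pow]
        exact norm_sub_le _ _
      nlinarith [norm_nonneg z]
    -- the numerator
    obtain ⟨r, hr⟩ : ∃ r : ℂ, r = E * η / 2 - γ := ⟨_, rfl⟩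
    have hrn : ‖r‖ ≤ 2 * κ := by
      rw [hr]
      have h2 : ‖(2 : ℂ)‖ = 2 := by norm_num
      have h3 : ‖E‖ * ‖η‖ ≤ 5 * δ := mul_le_mul hEn' hc (norm_nonneg _) (by norm_num)
      calc ‖E * η / 2 - γ‖ ≤ ‖E * η / 2‖ + ‖γ‖ := norm_sub_le _ _
        _ = ‖E‖ * ‖η‖ / 2 + ‖γ‖ := by rw [norm_div, norm_mul, h2]
        _ ≤ 5 * δ / 2 + κ := by linarith
        _ ≤ 2 * κ := by rw [hκ]; linarith
    obtain ⟨A, hA⟩ : ∃ A : ℂ, A = 2 * (1 - E) + r := ⟨_, rfl⟩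
    have hrre := abs_le.1 ((Complex.abs_re_le_norm r).trans hrn)
    have hrim := abs_le.1 ((Complex.abs_im_le_norm r).trans hrn)
    have hAre : A.re = 2 * (1 - E.re) + r.re := by
      rw [hA, Complex.add_re, Complex.mul_re]
      simp
    have hAim : A.im = -2 * E.im + r.im := by
      rw [hA, Complex.add_im, Complex.mul_im]
      simp
    have hA1 : 19 / 10 ≤ A.re := by rw [hAre]; linarith [hrre.1]
    have hA2 : |A.im| ≤ 1 / 100 := by
      rw [hAim]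
      have h1 := abs_le.1 hEim
      rw [abs_le]
      constructor <;> linarith [hrim.1, hrim.2, h1.1, h1.2]
    have hA3 : ‖A‖ ≤ 14 := by
      rw [hA]
      have h2 : ‖(2 : ℂ)‖ = 2 := by norm_num
      have h3 : ‖1 - E‖ ≤ 1 + ‖E‖ := by
        have := norm_sub_le (1 : ℂ) E
        rwa [norm_one] at this
      calc ‖2 * (1 - E) + r‖ ≤ ‖2 * (1 - E)‖ + ‖r‖ := norm_add_le _ _
        _ = 2 * ‖1 - E‖ + ‖r‖ := by rw [norm_mul, h2]
        _ ≤ 14 := by linarith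
    obtain ⟨r', hr'⟩ : ∃ r' : ℂ, r' = -(2 * η) - γ * (4 - η) := ⟨_, rfl⟩
    have hr'n : ‖r'‖ ≤ 1 / 100 := by
      rw [hr']
      have h2 : ‖(2 : ℂ)‖ = 2 := by norm_num
      have h3 : ‖γ‖ * ‖4 - η‖ ≤ κ * 5 := mul_le_mul hγn h4η (norm_nonneg _) hκ0
      calc ‖-(2 * η) - γ * (4 - η)‖ ≤ ‖-(2 * η)‖ + ‖γ * (4 - η)‖ := norm_sub_le _ _
        _ = 2 * ‖η‖ + ‖γ‖ * ‖4 - η‖ := by rw [norm_neg, norm_mul, norm_mul, h2]
        _ ≤ 1 / 100 := by linarith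
    have hfin : X * (8 + r') = η * A := by
      have h1 : X * (8 + r') = ((4 - η) * (1 + X) - (4 - η)) * (1 - C) := by
        rw [hr', hγ]; ring
      rw [h1, hPP, hA, hr, hγ]
      linear_combination (-2) * hCC
    have hη9 : ‖η‖ ≤ 1 / 10 ^ 9 := hc.trans hδ
    have hre' : 8 / 10 * ‖η‖ ≤ η.re := by
      have e1 : 4 - (c ^ 2 + 2) ^ 2 = 4 * η - η ^ 2 := by rw [hc2]; ring
      rw [e1] at hre
      have h2 : 4 * ‖η‖ - ‖η‖ ^ 2 ≤ ‖4 * η - η ^ 2‖ := by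
        have h3 := norm_sub_norm_le (4 * η) (η ^ 2)
        rw [norm_mul, norm_pow] at h3
        have h4 : ‖(4 : ℂ)‖ = 4 := by norm_num
        rwa [h4] at h3
      have h5 : (4 * η - η ^ 2).re ≤ 4 * η.re + ‖η‖ ^ 2 := by
        rw [Complex.sub_re]
        have h6 : ((4 : ℂ) * η).re = 4 * η.re := by rw [Complex.mul_re]; simp
        have h7 : |(η ^ 2).re| ≤ ‖η‖ ^ 2 := by
          rw [← norm_pow]
          exact Complex.abs_re_le_norm _
        have h8 := (abs_le.1 h7).1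
        rw [h6]
        linarith
      have h9 : ‖η‖ ≤ 1 / 1000000000 := hc.trans hδ'
      nlinarith [norm_nonneg η]
    obtain ⟨f1, f2⟩ := fin_est hc0 hη9 hre' hA1 hA2 hA3 hr'n hfin
    refine ⟨?_, Or.inr ?_⟩
    · calc ‖1 + X‖ ≤ ‖(1 : ℂ)‖ + ‖X‖ := norm_add_le _ _
        _ ≤ 1 + 2 * δ := by rw [norm_one]; linarith
    · have h1 : (1 + X).re ≤ ‖1 + X‖ := Complex.re_le_norm _
      rw [Complex.add_re, Complex.one_re] at h1
      linarith

end Pool.Agent.HT42
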