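import Pool.Agent.TBK.GrpB
import Pool.Agent.HT42.Dih

/-!
# HT42/Inf: the elements `X_j` of the knot group have infinite order

The affine representation of `TBK/GrpB` over the ring `R = S[l] / (l² - (y+2) l + 1)`,
`S = ℚ[y] / (q_{2g+1})`, maps `X_j` to the translation by `q_j(y)` or `(l - 1) q_j(y)`.
-/

set_option autoImplicit false

namespace Pool.Agent.HT42

open Pool.Agent.DFJ Pool.Agent.TBK Polynomial

section afr

variable {R : Type*} [CommRing R]

/-- the affine maps of a commutative ring -/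
private def afr (u : Rˣ) (c : R) : Equiv.Perm R where
  toFun z := u * z + c
  invFun z := (u⁻¹ : Rˣ) * (z - c)
  left_inv z := by simp
  right_inv z := by simp

private theorem afr_apply (u : Rˣ) (c z : R) : afr u c z = u * z + c := rfl

private theorem afr_mul (u v : Rˣ) (c d : R) : afr u c * afr v d = afr (u * v) (u * d + c) := by
  ext z
  rw [Equiv.Perm.mul_apply, afr_apply, afr_apply, afr_apply]
  push_cast
  ring

private theorem afr_one : afr (1 : Rˣ) 0 = 1 := by
  ext z
  rw [afr_apply]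
  simp

private theorem afr_inv (u : Rˣ) (c : R) : (afr u c)⁻¹ = afr u⁻¹ (-((u⁻¹ : Rˣ) * c)) := by
  rw [inv_eq_iff_mul_eq_one, afr_mul, mul_inv_cancel, ← afr_one]
  congr 1
  simp

private theorem afr_zpow (c : R) (m : ℤ) : (afr 1 c) ^ m = afr 1 (m * c) := by
  induction m using Int.induction_on with
  | zero => rw [zpow_zero, Int.cast_zero, zero_mul, afr_one]
  | succ m ih =>
    rw [zpow_add_one, ih, afr_mul, one_mul, Units.val_one]
    congr 1
    push_cast
    ring
  | pred m ih =>
    rw [zpow_sub_one, ih, afr_inv, afr_mul]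
    congr 1
    · simp
    · push_cast
      simp
      ring

private theorem afr_eq_one {c : R} (h : afr 1 c = 1) : c = 0 := by
  have h0 := congrArg (fun f : Equiv.Perm R => f 0) h
  simpa [afr_apply] using h0

private theorem afr_Xw (a : ℕ → ℤ) (l : Rˣ) (j : ℕ) :
    Xw (afr 1 1) (afr l 0) a j = afr 1 ((if Even j then (l : R) - 1 else 1) *
      aeval ((l : R) + ((l⁻¹ : Rˣ) : R) - 2) (qq a j)) := by
  have hl : ((l⁻¹ : Rˣ) : R) * (l : R) = 1 := by
    rw [← Units.val_mul, inv_mul_cancel, Units.val_one]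
  induction j using Nat.twoStepInduction with
  | zero =>
    have h0 : qq a 0 = 0 := rfl
    have h1 : Xw (afr (1 : Rˣ) 1) (afr l 0) a 0 = 1 := rfl
    rw [h0, h1, map_zero, mul_zero, afr_one]
  | one =>
    have h0 : qq a 1 = 1 := rfl
    have h1 : Xw (afr (1 : Rˣ) 1) (afr l 0) a 1 = afr 1 1 := rfl
    rw [h0, h1, map_one, if_neg (by decide), one_mul]
  | more j ih1 ih2 =>
    by_cases hj : Even j
    · have hj1 : ¬ Even (j + 1) := by rw [Nat.even_add_one]; exact not_not.2 hj
      have hj2 : Even (j + 2) := by rw [Nat.even_add_one]; exact hj1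
      have hq : qq a (j + 2) = qq a j + C (a (j + 1)) * qq a (j + 1) := by rw [qq, if_pos hj]
      rw [Xw_even _ _ a hj, ih1, ih2, if_pos hj, if_neg hj1, if_pos hj2, hq]
      simp only [afr_zpow, afr_inv, afr_mul, map_add, map_mul, aeval_C]
      congr 1
      · simp
      · simp only [Units.val_one, inv_one, mul_one, one_mul, mul_inv_cancel,
          algebraMap_int_eq, eq_intCast]
        ring
    · have hj1 : Even (j + 1) := by rw [Nat.even_add_one]; exact hj
      have hj2 : ¬ Even (j + 2) := by rw [Nat.even_add_one]; exact not_not.2 hj1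
      have hq : qq a (j + 2) = qq a j + C (a (j + 1)) * (X * qq a (j + 1)) := by
        rw [qq, if_neg hj]
      rw [Xw_odd _ _ a hj, ih1, ih2, if_neg hj, if_pos hj1, if_neg hj2, hq]
      simp only [afr_zpow, afr_inv, afr_mul, map_add, map_mul, aeval_C, aeval_X]
      congr 1
      · simp
      · simp only [Units.val_one, inv_one, mul_one, one_mul,
          algebraMap_int_eq, eq_intCast, mul_zero, neg_zero]
        generalize aeval ((l : R) + ((l⁻¹ : Rˣ) : R) - 2) (qq a (j + 1)) = u
        generalize aeval ((l : R) + ((l⁻¹ : Rˣ) : R) - 2) (qq a j) = v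
        linear_combination (-(a (j + 1) : R) * u) * hl

end afr

/-- A ring with an element that is a root of `q` but not of `p`, `deg p < deg q`. -/
private theorem inf_ring {q p : ℤ[X]} (hp : p ≠ 0) (hpq : p.natDegree < q.natDegree) :
    ∃ (S : Type) (_ : CommRing S) (y : S), aeval y q = 0 ∧ aeval y p ≠ 0 := by
  have hinj : Function.Injective (algebraMap ℤ ℚ) := (algebraMap ℤ ℚ).injective_int
  refine ⟨AdjoinRoot (q.map (algebraMap ℤ ℚ)), inferInstance, AdjoinRoot.root _, ?_, ?_⟩
  · have h3 : aeval (AdjoinRoot.root (q.map (algebraMap ℤ ℚ))) (q.map (algebraMap ℤ ℚ)) = 0 := by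
      rw [AdjoinRoot.aeval_eq, AdjoinRoot.mk_self]
    rwa [aeval_map_algebraMap] at h3
  · intro h0
    rw [← aeval_map_algebraMap (A := ℚ), AdjoinRoot.aeval_eq, AdjoinRoot.mk_eq_zero] at h0
    have h4 := natDegree_le_of_dvd h0 ((Polynomial.map_ne_zero_iff hinj).2 hp)
    rw [natDegree_map_eq_of_injective hinj, natDegree_map_eq_of_injective hinj] at h4
    omega

/-- A quadratic extension with a unit `L` such that `L + L⁻¹ - 2 = y`. -/
private theorem inf_unit {S : Type} [CommRing S] (y : S) :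
    ∃ (R : Type) (_ : CommRing R) (φ : S →+* R) (L : Rˣ),
      (L : R) + ((L⁻¹ : Rˣ) : R) - 2 = φ y ∧
        ∀ s : S, s ≠ 0 → φ s ≠ 0 ∧ ((L : R) - 1) * φ s ≠ 0 := by
  rcases subsingleton_or_nontrivial S with hS | hS
  · refine ⟨S, inferInstance, RingHom.id S, 1, Subsingleton.elim _ _, ?_⟩
    intro s hs
    exact absurd (Subsingleton.elim s 0) hs
  obtain ⟨f, hf⟩ : ∃ f : S[X], f = X ^ 2 - C (y + 2) * X + 1 := ⟨_, rfl⟩
  have hfm : f.Monic := by
    rw [hf]
    monicity!
  have hfd : f.natDegree = 2 := by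
    rw [hf]
    compute_degree!
  have hll : AdjoinRoot.root f ^ 2 - (AdjoinRoot.of f y + 2) * AdjoinRoot.root f + 1 = 0 := by
    have h3 : AdjoinRoot.mk f (X ^ 2 - C (y + 2) * X + 1) = 0 := by
      rw [← hf]
      exact AdjoinRoot.mk_self
    have e2 : AdjoinRoot.of f 2 = 2 := map_ofNat _ 2
    simpa [e2] using h3
  have hinv : AdjoinRoot.root f * (AdjoinRoot.of f y + 2 - AdjoinRoot.root f) = 1 := by
    linear_combination -hll
  refine ⟨AdjoinRoot f, inferInstance, AdjoinRoot.of f,
    ⟨AdjoinRoot.root f, AdjoinRoot.of f y + 2 - AdjoinRoot.root f, hinv,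
      by rw [mul_comm]; exact hinv⟩, ?_, ?_⟩
  · change AdjoinRoot.root f + (AdjoinRoot.of f y + 2 - AdjoinRoot.root f) - 2 = AdjoinRoot.of f y
    ring
  · intro s hs
    constructor
    · have h4 : AdjoinRoot.mk f (C s) ≠ 0 := by
        apply AdjoinRoot.mk_ne_zero_of_natDegree_lt hfm
        · rwa [Ne, C_eq_zero]
        · rw [natDegree_C, hfd]
          norm_num
      exact h4
    · have h4 : AdjoinRoot.mk f ((X - 1) * C s) ≠ 0 := by
        apply AdjoinRoot.mk_ne_zero_of_natDegree_lt hfm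
        · intro h0
          have h5 := congrArg (fun P : S[X] => P.coeff 1) h0
          simp only [coeff_mul_C, coeff_sub, coeff_X_one, coeff_one, coeff_zero] at h5
          simp at h5
          exact hs h5
        · rw [hfd]
          have h6 := natDegree_mul_le (p := (X - 1 : S[X])) (q := C s)
          have h7 : (X - 1 : S[X]).natDegree ≤ 1 := by compute_degree
          rw [natDegree_C] at h6
          omega
      rw [map_mul, map_sub, map_one, AdjoinRoot.mk_X] at h4
      exact h4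

theorem X_pow_ne {g : ℕ} {a : ℕ → ℤ} (ha : ∀ j, 1 ≤ j → j ≤ 2 * g → a j ≠ 0) {j : ℕ}
    (h1 : 1 ≤ j) (h2 : j ≤ 2 * g) {k : ℕ} (hk : 0 < k) :
    Xw (PresentedGroup.of 0 : TBGroup g a) (PresentedGroup.of 1) a j ^ k ≠ 1 := by
  obtain ⟨i, rfl⟩ : ∃ i, j = i + 1 := ⟨j - 1, by omega⟩
  have hqd : (qq a (2 * g + 1)).natDegree = g := by
    obtain ⟨hd1, hd2⟩ := qq_deg a (2 * g)
    have e : 2 * g / 2 = g := by omega
    rw [e] at hd1 hd2
    refine le_antisymm hd1 (le_natDegree_of_ne_zero ?_)
    rw [hd2, Finset.prod_ne_zero_iff]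
    intro i hi
    rw [Finset.mem_Icc] at hi
    exact ha i hi.1 hi.2
  obtain ⟨hd1, hd2⟩ := qq_deg a i
  have hne : ∏ i ∈ Finset.Icc 1 i, a i ≠ 0 := by
    rw [Finset.prod_ne_zero_iff]
    intro i' hi
    rw [Finset.mem_Icc] at hi
    exact ha i' hi.1 (by omega)
  have hp0 : C (k : ℤ) * qq a (i + 1) ≠ 0 := by
    rw [Ne, mul_eq_zero, not_or]
    constructor
    · rw [C_eq_zero]
      exact_mod_cast hk.ne'
    · intro h0
      rw [h0] at hd2
      simp only [coeff_zero] at hd2
      exact hne hd2.symm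
  have hpd : (C (k : ℤ) * qq a (i + 1)).natDegree < (qq a (2 * g + 1)).natDegree := by
    have := natDegree_C_mul_le (k : ℤ) (qq a (i + 1))
    omega
  obtain ⟨S, _, y, hyq, hyp⟩ := inf_ring hp0 hpd
  obtain ⟨R, _, φ, L, hL, hφ⟩ := inf_unit y
  obtain ⟨hφ1, hφ2⟩ := hφ _ hyp
  have hmap : ∀ P : ℤ[X], aeval (φ y) P = φ (aeval y P) := by
    intro P
    rw [aeval_def, aeval_def, hom_eval₂]
    congr 1
    exact Subsingleton.elim _ _
  have hodd : ¬ Even (2 * g + 1) := by
    rw [Nat.not_even_iff_odd]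
    exact ⟨g, rfl⟩
  have hrel : Xw (afr (1 : Rˣ) 1) (afr L 0) a (2 * g + 1) = 1 := by
    rw [afr_Xw, if_neg hodd, hL, hmap, hyq, map_zero, mul_zero, afr_one]
  have hr : ∀ r ∈ ({Xw (FreeGroup.of 0) (FreeGroup.of 1) a (2 * g + 1)} :
      Set (FreeGroup (Fin 2))),
      FreeGroup.lift (![afr 1 1, afr L 0] : Fin 2 → Equiv.Perm R) r = 1 := by
    intro r hr
    rw [Set.mem_singleton_iff] at hr
    subst hr
    have ea : FreeGroup.lift (![afr 1 1, afr L 0] : Fin 2 → Equiv.Perm R) (FreeGroup.of 0) =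
      afr 1 1 := FreeGroup.lift_apply_of
    have eb : FreeGroup.lift (![afr 1 1, afr L 0] : Fin 2 → Equiv.Perm R) (FreeGroup.of 1) =
      afr L 0 := FreeGroup.lift_apply_of
    rw [map_Xw, ea, eb, hrel]
  have hfx : PresentedGroup.toGroup hr (PresentedGroup.of 0) = afr 1 1 :=
    PresentedGroup.toGroup.of hr
  have hft : PresentedGroup.toGroup hr (PresentedGroup.of 1) = afr L 0 :=
    PresentedGroup.toGroup.of hr
  intro h
  have h3 := congrArg (PresentedGroup.toGroup hr) h
  rw [map_pow, map_Xw, hfx, hft, map_one, afr_Xw, ← zpow_natCast, afr_zpow] at h3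
  have h4 := afr_eq_one h3
  rw [hL, hmap] at h4
  have h5 : φ (aeval y (C (k : ℤ) * qq a (i + 1))) = (k : R) * φ (aeval y (qq a (i + 1))) := by
    rw [map_mul, map_mul, aeval_C]
    simp
  rw [h5] at hφ1 hφ2
  have h6 : ((k : ℤ) : R) = (k : R) := by push_cast; rfl
  rw [h6] at h4
  split_ifs at h4
  · exact hφ2 (by linear_combination h4)
  · exact hφ1 (by linear_combination h4)

end Pool.Agent.HT42
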