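import Pool.Agent.DFJ.FinOO

/-!
# HT42/LemA: Chebyshev values of moderate size at a large index

`s = 2 cosh z`, `al n s * sinh z = sinh (n z)`, `‖sinh (p + q i)‖² = sinh² p + sin² q`.

`lemA`: if `‖al m s‖ ≤ 160`, `m ≥ 1000`, then `4 - s ^ 2` is almost a nonnegative real number:
`4 - s² = -4 sinh² z`, `sinh z = A + B i`, `A = sinh p cos q`, `B = cosh p sin q`, and
`m² sinh² p ≤ ‖sinh (m z)‖² = ‖al m s‖² (sinh² p + sin² q)`, so `38 sinh² p ≤ sin² q`.
-/

set_option autoImplicit false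

namespace Pool.Agent.HT42

open Pool.Agent.DFJ

theorem exists_log (s : ℂ) : ∃ z : ℂ, s = Complex.exp z + Complex.exp (-z) := by
  obtain ⟨x, y, hxy, rfl⟩ := exists_lam s
  have hx : x ≠ 0 := by rintro rfl; simp at hxy
  refine ⟨Complex.log x, ?_⟩
  rw [Complex.exp_neg, Complex.exp_log hx]
  congr 1
  exact eq_inv_of_mul_eq_one_right hxy

theorem al_lam {R : Type*} [CommRing R] {x y : R} (h : x * y = 1) (n : ℕ) :
    al n (x + y) * (x - y) = x ^ n - y ^ n := by
  induction n using Nat.strong_induction_on with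
  | _ n ih =>
    match n with
    | 0 => simp
    | 1 => simp
    | (n + 2) =>
      have h1 := ih (n + 1) (by omega)
      have h2 := ih n (by omega)
      rw [al_step]
      linear_combination (x + y) * h1 - h2 + (x ^ n - y ^ n) * h

theorem al_sinh (z : ℂ) (n : ℕ) :
    al n (Complex.exp z + Complex.exp (-z)) * Complex.sinh z = Complex.sinh (n * z) := by
  have h : Complex.exp z * Complex.exp (-z) = 1 := by rw [← Complex.exp_add]; simp
  have h1 := al_lam h n
  rw [Complex.sinh, Complex.sinh, ← Complex.exp_nat_mul, ← Complex.exp_nat_mul] at *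
  rw [show -(n * z) = n * -z by ring]
  linear_combination h1 / 2

theorem sinh_eq (z : ℂ) : Complex.sinh z =
    ((Real.sinh z.re * Real.cos z.im : ℝ) : ℂ) +
      ((Real.cosh z.re * Real.sin z.im : ℝ) : ℂ) * Complex.I := by
  conv_lhs => rw [← Complex.re_add_im z]
  rw [Complex.sinh_add, Complex.cosh_mul_I, Complex.sinh_mul_I]
  push_cast
  ring

theorem cosh_eq (z : ℂ) : Complex.cosh z =
    ((Real.cosh z.re * Real.cos z.im : ℝ) : ℂ) +
      ((Real.sinh z.re * Real.sin z.im : ℝ) : ℂ) * Complex.I := by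
  conv_lhs => rw [← Complex.re_add_im z]
  rw [Complex.cosh_add, Complex.cosh_mul_I, Complex.sinh_mul_I]
  push_cast
  ring

theorem sinh_nsq (z : ℂ) :
    ‖Complex.sinh z‖ ^ 2 = Real.sinh z.re ^ 2 + Real.sin z.im ^ 2 := by
  rw [← Complex.normSq_eq_norm_sq, sinh_eq, Complex.normSq_add_mul_I]
  have h1 := Real.cosh_sq z.re
  have h2 := Real.cos_sq' z.im
  rw [mul_pow, mul_pow, h1, h2]
  ring

/-- superadditivity of `sinh²` -/
theorem sinh_mul_ge (n : ℕ) (p : ℝ) : (n : ℝ) ^ 2 * Real.sinh p ^ 2 ≤ Real.sinh (n * p) ^ 2 := by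
  have key : ∀ p : ℝ, 0 ≤ p → ∀ n : ℕ, (n : ℝ) * Real.sinh p ≤ Real.sinh (n * p) := by
    intro p hp n
    induction n with
    | zero => simp
    | succ n ih =>
      have h1 : ((n + 1 : ℕ) : ℝ) * p = n * p + p := by push_cast; ring
      rw [h1, Real.sinh_add]
      have h2 : 0 ≤ Real.sinh p := Real.sinh_nonneg_iff.2 hp
      have h3 : 0 ≤ Real.sinh (n * p) := Real.sinh_nonneg_iff.2 (by positivity)
      have h4 := Real.one_le_cosh p
      have h5 := Real.one_le_cosh (n * p)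
      push_cast
      nlinarith
  rcases le_total 0 p with hp | hp
  · have h := key p hp n
    rw [← mul_pow]
    have h2 : 0 ≤ Real.sinh p := Real.sinh_nonneg_iff.2 hp
    exact pow_le_pow_left₀ (by positivity) h 2
  · have h := key (-p) (by linarith) n
    have h2 : 0 ≤ Real.sinh (-p) := Real.sinh_nonneg_iff.2 (by linarith)
    have h3 := pow_le_pow_left₀ (by positivity) h 2
    rw [show (n : ℝ) * -p = -(n * p) by ring, Real.sinh_neg, Real.sinh_neg] at h3
    nlinarith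

theorem sinh_mono {m n : ℕ} (h : m ≤ n) (p : ℝ) :
    Real.sinh (m * p) ^ 2 ≤ Real.sinh (n * p) ^ 2 := by
  rw [sq_le_sq, Real.abs_sinh, Real.abs_sinh]
  apply Real.sinh_le_sinh.2
  rw [abs_mul, abs_mul, Nat.abs_cast, Nat.abs_cast]
  exact mul_le_mul_of_nonneg_right (by exact_mod_cast h) (abs_nonneg p)

theorem sq_sub_four (z : ℂ) :
    (Complex.exp z + Complex.exp (-z)) ^ 2 - 4 = 4 * Complex.sinh z ^ 2 := by
  have h : Complex.exp z * Complex.exp (-z) = 1 := by rw [← Complex.exp_add]; simp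
  rw [Complex.sinh]
  linear_combination 4 * h

/-- the norm of `sinh (m z)` -/
theorem nsq_mul (m : ℕ) (z : ℂ) : Real.sinh (m * z.re) ^ 2 + Real.sin (m * z.im) ^ 2 =
    ‖al m (Complex.exp z + Complex.exp (-z))‖ ^ 2 *
      (Real.sinh z.re ^ 2 + Real.sin z.im ^ 2) := by
  have e1 : ‖Complex.sinh (m * z)‖ ^ 2 = ‖al m (Complex.exp z + Complex.exp (-z))‖ ^ 2 *
      ‖Complex.sinh z‖ ^ 2 := by
    rw [← al_sinh, norm_mul, mul_pow]
  rw [sinh_nsq, sinh_nsq] at e1
  have e2 : ((m : ℂ) * z).re = m * z.re := by simp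
  have e3 : ((m : ℂ) * z).im = m * z.im := by simp
  rw [e2, e3] at e1
  exact e1

theorem lemA {m : ℕ} (hm : 1000 ≤ m) {s : ℂ} (hs : ‖al m s‖ ≤ 160) :
    9 / 10 * ‖4 - s ^ 2‖ ≤ (4 - s ^ 2).re := by
  obtain ⟨z, rfl⟩ := exists_log s
  have hm' : (1000 : ℝ) ≤ m := by exact_mod_cast hm
  have h1 := nsq_mul m z
  have h2 := sinh_mul_ge m z.re
  have h3 : ‖al m (Complex.exp z + Complex.exp (-z))‖ ^ 2 ≤ 160 ^ 2 :=
    pow_le_pow_left₀ (norm_nonneg _) hs 2
  have h4 : (1000 : ℝ) ^ 2 ≤ (m : ℝ) ^ 2 := pow_le_pow_left₀ (by norm_num) hm' 2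
  set P := Real.sinh z.re ^ 2 with hP
  set S := Real.sin z.im ^ 2 with hS
  have hP0 : 0 ≤ P := sq_nonneg _
  have hS0 : 0 ≤ S := sq_nonneg _
  have h5 : 38 * P ≤ S := by
    have h6 : ‖al m (Complex.exp z + Complex.exp (-z))‖ ^ 2 * (P + S) ≤ 160 ^ 2 * (P + S) :=
      mul_le_mul_of_nonneg_right h3 (by positivity)
    have h7 : (1000 : ℝ) ^ 2 * P ≤ (m : ℝ) ^ 2 * P := mul_le_mul_of_nonneg_right h4 hP0
    have h8 := sq_nonneg (Real.sin (m * z.im))
    nlinarith
  have e : 4 - (Complex.exp z + Complex.exp (-z)) ^ 2 = -(4 * Complex.sinh z ^ 2) := by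
    rw [← sq_sub_four]; ring
  rw [e]
  have n1 : ‖-(4 * Complex.sinh z ^ 2)‖ = 4 * (P + S) := by
    rw [norm_neg, norm_mul, norm_pow, sinh_nsq, Complex.norm_ofNat]
  rw [n1]
  have r0 : (Complex.sinh z).re = Real.sinh z.re * Real.cos z.im := by
    rw [sinh_eq, Complex.add_re, Complex.ofReal_re, Complex.re_ofReal_mul, Complex.I_re, mul_zero,
      add_zero]
  have i0 : (Complex.sinh z).im = Real.cosh z.re * Real.sin z.im := by
    rw [sinh_eq, Complex.add_im, Complex.ofReal_im, Complex.im_ofReal_mul, Complex.I_im, mul_one,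
      zero_add]
  have r1 : (-(4 * Complex.sinh z ^ 2)).re =
      4 * ((Real.cosh z.re * Real.sin z.im) ^ 2 - (Real.sinh z.re * Real.cos z.im) ^ 2) := by
    rw [← r0, ← i0, pow_two (Complex.sinh z)]
    simp only [Complex.neg_re, Complex.mul_re, Complex.re_ofNat, Complex.im_ofNat]
    ring
  rw [r1, mul_pow, mul_pow, Real.cosh_sq, Real.cos_sq', ← hP, ← hS]
  nlinarith

end Pool.Agent.HT42
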