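import Pool.Agent.HT42.LemS

/-!
# HT42/LemS1: an explicit form of `lemS`
-/

set_option autoImplicit false

namespace Pool.Agent.HT42

open Pool.Agent.DFJ

/-- Explicit form of `lemS`: `m ≥ 10^9`, `|s| ≤ 18`, `|al m s| ≤ 160`, Shimizu: `|s + 2| ≤ 1/100`. -/
theorem lemS1 {m : ℕ} (hm : 10 ^ 9 ≤ m) {s : ℂ} (hs : ‖s‖ ≤ 18) (hK : ‖al m s‖ ≤ 160)
    (h : ∀ n : ℕ, 1 ≤ n → 1 ≤ ‖al n s‖ * ‖s - 2‖) : ‖s + 2‖ ≤ 1 / 100 := by
  have hmR : (10 : ℝ) ^ 9 ≤ m := by exact_mod_cast hm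
  have hmpos : (0 : ℝ) < m := by linarith [pow_pos (by norm_num : (0 : ℝ) < 10) 9]
  obtain ⟨z, hz⟩ := Complex.cos_surjective (s / 2)
  have hsz : s = 2 * Complex.cos z := by rw [hz]; ring
  have hm2 : ‖2 - s‖ ≤ 20 := by
    calc ‖2 - s‖ ≤ ‖(2 : ℂ)‖ + ‖s‖ := norm_sub_le _ _
      _ ≤ 20 := by simp; linarith
  have hp2 : ‖2 + s‖ ≤ 20 := by
    calc ‖2 + s‖ ≤ ‖(2 : ℂ)‖ + ‖s‖ := norm_add_le _ _
      _ ≤ 20 := by simp; linarith
  have hsin : ‖Complex.sin z‖ ^ 2 = ‖2 - s‖ * ‖2 + s‖ / 4 := by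
    rw [norm_sin_sq_eq, hsz]
  have hsin1 : ‖Complex.sin z‖ ≤ 10 := by
    have h1 : ‖Complex.sin z‖ ^ 2 ≤ 10 ^ 2 := by
      rw [hsin]
      have := mul_le_mul hm2 hp2 (norm_nonneg _) (by positivity)
      nlinarith
    exact abs_le_of_sq_le_sq' h1 (by positivity) |>.2
  -- the imaginary part of `z` is small
  have hy : |z.im| ≤ 1600 / m := by
    have h1 : ‖Complex.sin (m * z)‖ ≤ 1600 := by
      rw [← al_cos, ← hsz, norm_mul]
      have := mul_le_mul hK hsin1 (norm_nonneg _) (by norm_num)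
      linarith
    have h2 := norm_sin_sq (m * z)
    have h3 : ((m : ℂ) * z).im = m * z.im := by simp
    rw [h3] at h2
    have h4 : |Real.sinh (m * z.im)| ≤ 1600 := by
      have : Real.sinh (m * z.im) ^ 2 ≤ 1600 ^ 2 := by
        have h5 : ‖Complex.sin (m * z)‖ ^ 2 ≤ 1600 ^ 2 := by
          apply pow_le_pow_left₀ (norm_nonneg _) h1
        nlinarith [sq_nonneg (Real.sin ((m : ℂ) * z).re)]
      exact abs_le_of_sq_le_sq this (by norm_num)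
    have h5 := (abs_le_abs_sinh (m * z.im)).trans h4
    rw [abs_mul, abs_of_pos hmpos] at h5
    rw [le_div_iff₀ hmpos]
    linarith
  obtain ⟨n, hn0, hnN, hnsin⟩ := exists_sin_small z.re (N := 400) (by norm_num)
  have hnN' : (n : ℝ) ≤ 400 := by exact_mod_cast hnN
  have hn0' : (0 : ℝ) < n := by exact_mod_cast hn0
  have hny : |(n : ℝ) * z.im| ≤ 1 / 1000 := by
    rw [abs_mul, abs_of_pos hn0']
    have h1 : (n : ℝ) * |z.im| ≤ 400 * (1600 / m) :=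
      mul_le_mul hnN' hy (abs_nonneg _) (by norm_num)
    have h2 : 400 * (1600 / (m : ℝ)) ≤ 1 / 1000 := by
      have hmR' : (1000000000 : ℝ) ≤ m := by
        calc (1000000000 : ℝ) = 10 ^ 9 := by norm_num
          _ ≤ m := hmR
      rw [← mul_div_assoc, div_le_iff₀ hmpos]
      linarith
    linarith
  have hsh1 : |Real.sinh (n * z.im)| ≤ 1 / 127 := by
    refine (abs_sinh_le (hny.trans (by norm_num))).trans ?_
    linarith
  have hsn1 : |Real.sin (n * z.re)| ≤ 1 / 127 := by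
    refine hnsin.trans ?_
    rw [div_le_div_iff₀ (by norm_num) (by norm_num)]
    have := Real.pi_lt_d2
    norm_num
    linarith
  have hkey : ‖Complex.sin (n * z)‖ ^ 2 ≤ 2 / 127 ^ 2 := by
    rw [norm_sin_sq]
    have h3 : ((n : ℂ) * z).im = n * z.im := by simp
    have h4 : ((n : ℂ) * z).re = n * z.re := by simp
    rw [h3, h4]
    have h5 : Real.sin (n * z.re) ^ 2 ≤ (1 / 127) ^ 2 :=
      sq_le_sq' (abs_le.1 hsn1).1 (abs_le.1 hsn1).2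
    have h6 : Real.sinh (n * z.im) ^ 2 ≤ (1 / 127) ^ 2 :=
      sq_le_sq' (abs_le.1 hsh1).1 (abs_le.1 hsh1).2
    calc Real.sin (n * z.re) ^ 2 + Real.sinh (n * z.im) ^ 2 ≤ (1 / 127) ^ 2 + (1 / 127) ^ 2 :=
          add_le_add h5 h6
      _ = 2 / 127 ^ 2 := by ring
  -- conclusion
  have h1 := h n hn0
  have hne : 0 < ‖2 - s‖ := by
    rw [norm_sub_rev]
    by_contra h
    have h2 : ‖s - 2‖ = 0 := le_antisymm (not_lt.1 h) (norm_nonneg _)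
    rw [h2, mul_zero] at h1
    linarith
  rw [norm_sub_rev] at h1
  have h2 : ‖Complex.sin z‖ ≤ ‖Complex.sin (n * z)‖ * ‖2 - s‖ := by
    rw [← al_cos, ← hsz, norm_mul]
    nlinarith [norm_nonneg (Complex.sin z)]
  have h3 : ‖Complex.sin z‖ ^ 2 ≤ (‖Complex.sin (n * z)‖ * ‖2 - s‖) ^ 2 :=
    pow_le_pow_left₀ (norm_nonneg _) h2 2
  rw [hsin, mul_pow] at h3
  have h4 : ‖2 + s‖ ≤ 4 * ‖Complex.sin (n * z)‖ ^ 2 * ‖2 - s‖ := by
    have h5 : ‖2 - s‖ * ‖2 + s‖ ≤ ‖2 - s‖ * (4 * ‖Complex.sin (n * z)‖ ^ 2 * ‖2 - s‖) := by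
      have h6 : ‖2 - s‖ * (4 * ‖Complex.sin (n * z)‖ ^ 2 * ‖2 - s‖) =
          4 * (‖Complex.sin (n * z)‖ ^ 2 * ‖2 - s‖ ^ 2) := by ring
      rw [h6]
      linarith
    exact le_of_mul_le_mul_left h5 hne
  rw [add_comm s 2]
  calc ‖2 + s‖ ≤ 4 * ‖Complex.sin (n * z)‖ ^ 2 * ‖2 - s‖ := h4
    _ ≤ 4 * (2 / 127 ^ 2) * 20 := by
        apply mul_le_mul (by linarith) hm2 (norm_nonneg _) (by positivity)
    _ ≤ 1 / 100 := by norm_num

end Pool.Agent.HT42
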