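import Pool.Agent.HT42.LemS

/-!
# HT42/LemS2: explicit form of `lemma_S`, second step

If `s` is within `1/100` of `-2`, `al m s` is bounded by `160` and `|al n s| |s - 2| ≥ 1` for all
`n ≥ 1`, then `|s + 2| m² ≤ 10^10`.
-/

set_option autoImplicit false

namespace Pool.Agent.HT42

open Pool.Agent.DFJ

theorem lemS2 {m : ℕ} (hm : 1 ≤ m) {s : ℂ} (hs : ‖s + 2‖ ≤ 1 / 100) (hK : ‖al m s‖ ≤ 160)
    (h : ∀ n : ℕ, 1 ≤ n → 1 ≤ ‖al n s‖ * ‖s - 2‖) : ‖s + 2‖ * (m : ℝ) ^ 2 ≤ 10 ^ 10 := by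
  have _ := hm
  rcases lt_or_ge m 10000 with hsm | hbig
  · have hm' : (m : ℝ) ≤ 10000 := by exact_mod_cast hsm.le
    have hm0 : (0 : ℝ) ≤ m := Nat.cast_nonneg m
    have h1 : (m : ℝ) ^ 2 ≤ 10000 ^ 2 := pow_le_pow_left₀ hm0 hm' 2
    calc ‖s + 2‖ * (m : ℝ) ^ 2 ≤ 1 / 100 * 10000 ^ 2 :=
          mul_le_mul hs h1 (by positivity) (by norm_num)
      _ ≤ 10 ^ 10 := by norm_num
  obtain ⟨z, hz⟩ := Complex.cos_surjective (s / 2)
  have hsz : s = 2 * Complex.cos z := by rw [hz]; ring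
  set ρ : ℝ := ‖Complex.sin z‖ with hρ
  have hρ0 : 0 ≤ ρ := norm_nonneg _
  have hmR : (10000 : ℝ) ≤ m := by exact_mod_cast hbig
  have hmpos : (0 : ℝ) < m := by linarith
  have hup : ‖s - 2‖ ≤ 401 / 100 := by
    have e : s - 2 = (s + 2) - 4 := by ring
    have h4 : ‖(4 : ℂ)‖ = 4 := by norm_num
    rw [e]
    calc ‖(s + 2) - 4‖ ≤ ‖s + 2‖ + ‖(4 : ℂ)‖ := norm_sub_le _ _
      _ ≤ 401 / 100 := by rw [h4]; linarith
  have hlo : 399 / 100 ≤ ‖s - 2‖ := by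
    have h4 : ‖(4 : ℂ)‖ = 4 := by norm_num
    have e : (4 : ℂ) = (s + 2) - (s - 2) := by ring
    have h5 : ‖(4 : ℂ)‖ ≤ ‖s + 2‖ + ‖s - 2‖ := by
      conv_lhs => rw [e]
      exact norm_sub_le _ _
    rw [h4] at h5
    linarith
  have hsin : ρ ^ 2 = ‖s - 2‖ * ‖s + 2‖ / 4 := by
    rw [hρ, norm_sin_sq_eq, ← hsz, norm_sub_rev, add_comm (2 : ℂ) s]
  have hρsq : ρ ^ 2 ≤ 1 / 4 := by
    rw [hsin]
    have := mul_le_mul hup hs (norm_nonneg _) (by norm_num)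
    linarith
  have hρ1 : ρ ≤ 1 / 2 := by
    by_contra hc
    push Not at hc
    nlinarith
  -- the imaginary part of `z`
  have hy : m * |z.im| ≤ 160 * ρ := by
    have h1 : ‖Complex.sin (m * z)‖ ≤ 160 * ρ := by
      rw [← al_cos, ← hsz, norm_mul]
      exact mul_le_mul_of_nonneg_right hK hρ0
    have h2 := norm_sin_sq (m * z)
    have h3 : ((m : ℂ) * z).im = m * z.im := by simp
    rw [h3] at h2
    have h4 : |Real.sinh (m * z.im)| ≤ 160 * ρ := by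
      have : Real.sinh (m * z.im) ^ 2 ≤ (160 * ρ) ^ 2 := by
        have h5 : ‖Complex.sin (m * z)‖ ^ 2 ≤ (160 * ρ) ^ 2 :=
          pow_le_pow_left₀ (norm_nonneg _) h1 2
        nlinarith [sq_nonneg (Real.sin ((m : ℂ) * z).re)]
      exact abs_le_of_sq_le_sq this (by positivity)
    have h5 := (abs_le_abs_sinh (m * z.im)).trans h4
    rwa [abs_mul, abs_of_pos hmpos] at h5
  -- Dirichlet
  set N : ℕ := m / 2560 with hN
  have hN0 : 0 < N := Nat.div_pos (by omega) (by norm_num)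
  have hNle : (N : ℝ) ≤ m / 2560 := by
    rw [le_div_iff₀ (by norm_num)]
    exact_mod_cast Nat.div_mul_le_self m 2560
  have hNlt : (m : ℝ) / 2560 ≤ N + 1 := by
    rw [div_le_iff₀ (by norm_num)]
    have : m ≤ (N + 1) * 2560 := by omega
    exact_mod_cast this
  obtain ⟨k, hk0, hkN, hksin⟩ := exists_sin_small z.re hN0
  have hkN' : (k : ℝ) ≤ N := by exact_mod_cast hkN
  have hk0' : (0 : ℝ) < k := by exact_mod_cast hk0
  have hky : |(k : ℝ) * z.im| ≤ ρ / 16 := by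
    rw [abs_mul, abs_of_pos hk0']
    have h1 : (k : ℝ) * |z.im| ≤ m / 2560 * |z.im| :=
      mul_le_mul_of_nonneg_right (hkN'.trans hNle) (abs_nonneg _)
    linarith
  have hsh : |Real.sinh (k * z.im)| ≤ ρ / 8 := by
    have := abs_sinh_le (hky.trans (by linarith))
    linarith
  set a : ℝ := Real.pi / (N + 1) with ha
  have ha0 : 0 ≤ a := by positivity
  have hkey : ‖Complex.sin (k * z)‖ ≤ a + ρ / 8 := by
    have h2 := norm_sin_sq (k * z)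
    have h3 : ((k : ℂ) * z).im = k * z.im := by simp
    have h4 : ((k : ℂ) * z).re = k * z.re := by simp
    rw [h3, h4] at h2
    have h5 : Real.sin (k * z.re) ^ 2 ≤ a ^ 2 :=
      sq_le_sq' (abs_le.1 hksin).1 (abs_le.1 hksin).2
    have h6 : Real.sinh (k * z.im) ^ 2 ≤ (ρ / 8) ^ 2 :=
      sq_le_sq' (abs_le.1 hsh).1 (abs_le.1 hsh).2
    have h7 : ‖Complex.sin (k * z)‖ ^ 2 ≤ (a + ρ / 8) ^ 2 := by
      have : 0 ≤ a * (ρ / 8) := by positivity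
      nlinarith
    exact (abs_le_of_sq_le_sq' h7 (by positivity)).2
  have hmain : ρ ≤ (a + ρ / 8) * (401 / 100) := by
    have h1 := h k hk0
    have h2 : ρ ≤ ‖Complex.sin (k * z)‖ * ‖s - 2‖ := by
      rw [← al_cos, ← hsz, norm_mul, ← hρ]
      nlinarith
    exact h2.trans (mul_le_mul hkey hup (norm_nonneg _) (by positivity))
  have hpi : Real.pi < 3.15 := Real.pi_lt_d2
  have hNpos : (0 : ℝ) < (N : ℝ) + 1 := by positivity
  have haN : a * ((N : ℝ) + 1) ≤ 3.15 := by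
    rw [ha, div_mul_cancel₀ _ hNpos.ne']
    exact hpi.le
  have hNρ : ρ * ((N : ℝ) + 1) ≤ 26 := by
    have h1 : ρ * ((N : ℝ) + 1) ≤ (a + ρ / 8) * (401 / 100) * ((N : ℝ) + 1) :=
      mul_le_mul_of_nonneg_right hmain hNpos.le
    have h2 : (a + ρ / 8) * (401 / 100) * ((N : ℝ) + 1) =
        401 / 100 * (a * ((N : ℝ) + 1)) + 401 / 800 * (ρ * ((N : ℝ) + 1)) := by ring
    rw [h2] at h1
    norm_num at haN
    linarith
  have hmρ : ρ * m ≤ 66560 := by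
    have h1 : ρ * ((m : ℝ) / 2560) ≤ ρ * ((N : ℝ) + 1) := mul_le_mul_of_nonneg_left hNlt hρ0
    linarith
  have h1 : (ρ * m) ^ 2 ≤ 66560 ^ 2 := pow_le_pow_left₀ (by positivity) hmρ 2
  rw [mul_pow, hsin] at h1
  have h2 : 399 / 400 * (‖s + 2‖ * (m : ℝ) ^ 2) ≤ ‖s - 2‖ * ‖s + 2‖ / 4 * (m : ℝ) ^ 2 := by
    have h3 : 399 / 100 * (‖s + 2‖ * (m : ℝ) ^ 2) ≤ ‖s - 2‖ * (‖s + 2‖ * (m : ℝ) ^ 2) :=
      mul_le_mul_of_nonneg_right hlo (by positivity)
    linarith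
  norm_num at h1 ⊢
  linarith

end Pool.Agent.HT42
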