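import Pool.Agent.HT42.Est

/-!
# HT42/Par: the parity decides which of the two alternatives of `est` holds
-/

set_option autoImplicit false

namespace Pool.Agent.HT42

open Pool.Agent.DFJ Pool.Agent.TBK

private theorem par_core {u v u' c e P Y ε ε' : ℂ} (hv : v ^ 2 = u ^ 2)
    (hrel : v + ε * u - u' = e * c * P) (hP : P ^ 2 = u ^ 2 + c ^ 2 + u ^ 2 * c ^ 2 / 4)
    (hY : (u' + v) ^ 2 = (4 + ε') * Y) (hε : ‖ε‖ ≤ 1 / 1000) (hε' : ‖ε'‖ ≤ 1 / 1000)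
    (hc : ‖c ^ 2 + 4‖ ≤ 1 / 10 ^ 9) (hu : u = 0 ∨ ‖u ^ 2 + 4‖ ≤ 1 / 10 ^ 9)
    (hu' : u' = 0 ∨ ‖u' ^ 2 + 4‖ ≤ 1 / 10 ^ 9) (he1 : 1 ≤ ‖e‖ * ‖c ^ 2‖)
    (hY1 : 1 ≤ ‖Y‖) (hY2 : 1 ≤ ‖Y‖ * ‖(2 + Y) ^ 2 - 1‖) : False := by
  have h4 : (399 / 100 : ℝ) ≤ ‖4 + ε'‖ := by
    have h1 := norm_sub_norm_le (4 : ℂ) (-ε')
    have h2 : ‖(4 : ℂ)‖ = 4 := by norm_num
    rw [h2, norm_neg, sub_neg_eq_add] at h1
    linarith
  -- the square `(u' + v) ^ 2` is not small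
  have big : (399 / 100 : ℝ) ≤ ‖(u' + v) ^ 2‖ := by
    rw [hY, norm_mul]
    nlinarith [norm_nonneg (4 + ε'), norm_nonneg Y]
  -- the square `(u' + v) ^ 2` is not near `- 4`
  have far : ¬ ‖(u' + v) ^ 2 + 4‖ ≤ 1 / 10 ^ 9 := by
    intro hh
    have e1 : (4 + ε') * (Y + 1) = ((u' + v) ^ 2 + 4) + ε' := by rw [hY]; ring
    have h1 : ‖4 + ε'‖ * ‖Y + 1‖ ≤ 1 / 10 ^ 9 + 1 / 1000 := by
      rw [← norm_mul, e1]
      exact (norm_add_le _ _).trans (add_le_add hh hε')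
    have h2 : ‖Y + 1‖ ≤ 1 / 1000 := by
      have h3 : (399 / 100) * ‖Y + 1‖ ≤ ‖4 + ε'‖ * ‖Y + 1‖ :=
        mul_le_mul_of_nonneg_right h4 (norm_nonneg _)
      norm_num at h1
      linarith
    have h3 : ‖Y‖ ≤ 2 := by
      have := norm_sub_le (Y + 1) 1
      rw [add_sub_cancel_right, norm_one] at this
      linarith
    have h5 : ‖(2 + Y) ^ 2 - 1‖ ≤ 1 / 1000 * 3 := by
      have e2 : (2 + Y) ^ 2 - 1 = (Y + 1) * ((Y + 1) + 2) := by ring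
      rw [e2, norm_mul]
      have h6 : ‖(Y + 1) + 2‖ ≤ 3 := by
        have := norm_add_le (Y + 1) 2
        have h7 : ‖(2 : ℂ)‖ = 2 := by norm_num
        rw [h7] at this
        linarith
      exact mul_le_mul h2 h6 (norm_nonneg _) (by norm_num)
    have h6 : ‖Y‖ * ‖(2 + Y) ^ 2 - 1‖ ≤ 2 * (1 / 1000 * 3) :=
      mul_le_mul h3 h5 (norm_nonneg _) (by norm_num)
    norm_num at h6
    linarith
  rcases hu with hu | hu
  · have hv0 : v = 0 := by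
      rw [hu] at hv
      exact pow_eq_zero_iff (two_ne_zero) |>.1 (by simpa using hv)
    rw [hv0, add_zero] at big far
    rcases hu' with hu' | hu'
    · rw [hu'] at big
      norm_num at big
    · exact far hu'
  · rcases hu' with hu' | hu'
    · rw [hu', zero_add, hv] at far
      exact far hu
    · -- both near `± 2 i`
      have hprod : ‖u' - v‖ * ‖u' + v‖ ≤ 2 / 10 ^ 9 := by
        rw [← norm_mul]
        have e1 : (u' - v) * (u' + v) = (u' ^ 2 + 4) - (u ^ 2 + 4) := by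
          rw [← hv]; ring
        rw [e1]
        refine (norm_sub_le _ _).trans ?_
        have : (2 : ℝ) / 10 ^ 9 = 1 / 10 ^ 9 + 1 / 10 ^ 9 := by norm_num
        rw [this]
        exact add_le_add hu' hu
      have h1 : 1 ≤ ‖u' + v‖ := by
        rw [norm_pow] at big
        by_contra hh
        push Not at hh
        nlinarith [norm_nonneg (u' + v)]
      have h2 : ‖u' - v‖ ≤ 2 / 10 ^ 9 := by
        nlinarith [norm_nonneg (u' - v)]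
      have hun : ‖u‖ ≤ 3 := by
        have h3 : ‖u‖ ^ 2 ≤ 5 := by
          rw [← norm_pow]
          have := norm_sub_le (u ^ 2 + 4) 4
          have h5 : ‖(4 : ℂ)‖ = 4 := by norm_num
          rw [add_sub_cancel_right, h5] at this
          have h6 : (1 : ℝ) / 10 ^ 9 ≤ 1 := by norm_num
          linarith
        nlinarith [norm_nonneg u]
      have h3 : ‖e * c * P‖ ≤ 1 / 100 := by
        rw [← hrel]
        have e1 : v + ε * u - u' = ε * u - (u' - v) := by ring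
        rw [e1]
        refine (norm_sub_le _ _).trans ?_
        rw [norm_mul]
        have h5 : ‖ε‖ * ‖u‖ ≤ 1 / 1000 * 3 := mul_le_mul hε hun (norm_nonneg _) (by norm_num)
        norm_num at h2
        linarith
      have h5 : 3 ≤ ‖c ^ 2‖ ∧ ‖c ^ 2‖ ≤ 5 := by
        have h6 : ‖(4 : ℂ)‖ = 4 := by norm_num
        have h7 := norm_sub_le (c ^ 2 + 4) 4
        rw [add_sub_cancel_right, h6] at h7
        have h8 := norm_sub_norm_le (4 : ℂ) (c ^ 2 + 4)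
        have e1 : (4 : ℂ) - (c ^ 2 + 4) = - c ^ 2 := by ring
        rw [e1, norm_neg, h6] at h8
        have h9 : (1 : ℝ) / 10 ^ 9 ≤ 1 := by norm_num
        constructor <;> linarith
      have h6 : 3 ≤ ‖P ^ 2‖ := by
        have e1 : (4 : ℂ) - (u ^ 2 + 4) * (c ^ 2 + 4) / 4 = - P ^ 2 := by rw [hP]; ring
        have h7 := norm_sub_norm_le (4 : ℂ) ((u ^ 2 + 4) * (c ^ 2 + 4) / 4)
        have h8 : ‖(4 : ℂ)‖ = 4 := by norm_num
        rw [e1, norm_neg, norm_div, norm_mul, h8] at h7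
        have h9 : ‖u ^ 2 + 4‖ * ‖c ^ 2 + 4‖ ≤ 1 / 10 ^ 9 * (1 / 10 ^ 9) :=
          mul_le_mul hu hc (norm_nonneg _) (by norm_num)
        norm_num at h9
        linarith
      have h7 : ‖e * c * P‖ ^ 2 = ‖e‖ ^ 2 * ‖c ^ 2‖ * ‖P ^ 2‖ := by
        rw [norm_mul, norm_mul, norm_pow, norm_pow]; ring
      have h8 : 1 / 5 ≤ ‖e‖ := by
        by_contra hh
        push Not at hh
        nlinarith [norm_nonneg e, norm_nonneg (c ^ 2)]
      have h9 : (1 / 5) ^ 2 * 3 * 3 ≤ ‖e‖ ^ 2 * ‖c ^ 2‖ * ‖P ^ 2‖ := by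
        have h10 : (1 / 5 : ℝ) ^ 2 ≤ ‖e‖ ^ 2 := pow_le_pow_left₀ (by norm_num) h8 2
        have h11 : (1 / 5 : ℝ) ^ 2 * 3 ≤ ‖e‖ ^ 2 * ‖c ^ 2‖ :=
          mul_le_mul h10 h5.1 (by norm_num) (by positivity)
        exact mul_le_mul h11 h6 (by norm_num) (by positivity)
      rw [← h7] at h9
      have h10 : ‖e * c * P‖ ^ 2 ≤ (1 / 100) ^ 2 := pow_le_pow_left₀ (norm_nonneg _) h3 2
      norm_num at h9 h10
      linarith

theorem par {m : ℕ} {u c u' e C P y : ℂ} (h : Reg m u c u' e C P) {δ : ℝ} (hδ : δ ≤ 1 / 10 ^ 9)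
    (hc : ‖c ^ 2 + 4‖ ≤ δ) (hc0 : c ^ 2 + 4 ≠ 0) (hu : u = 0 ∨ ‖u ^ 2 + 4‖ ≤ δ)
    (hu' : u' = 0 ∨ ‖u' ^ 2 + 4‖ ≤ δ) (he : ‖e‖ ≤ 160) (he1 : 1 ≤ ‖e‖ * ‖c ^ 2‖)
    (hre : 9 / 10 * ‖4 - (c ^ 2 + 2) ^ 2‖ ≤ (4 - (c ^ 2 + 2) ^ 2).re)
    (hye : Even m → (u' + u) ^ 2 = (2 * C + 2) * y ^ 2)
    (hyo : ¬ Even m → (u' - u) ^ 2 = (2 * C - 2) * y ^ 2) (hy1 : 1 ≤ ‖y‖)
    (hy2 : 1 ≤ ‖y ^ 2‖ * ‖(2 + y ^ 2) ^ 2 - 1‖) (hy3 : 1 ≤ ‖y ^ 2‖ * ‖(2 - y ^ 2) ^ 2 - 1‖) :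
    ‖PP m (c ^ 2 + 2)‖ ≤ 1 + 2 * δ ∧ (Even m → 1 < ‖PP m (c ^ 2 + 2)‖) ∧
      (¬ Even m → ‖PP m (c ^ 2 + 2)‖ ≤ 10 ^ 5 * δ) := by
  obtain ⟨h1, h2⟩ := est h hδ hc hc0 hu hu' he hre
  have hδ0 : 0 ≤ δ := (norm_nonneg _).trans hc
  have hY1 : 1 ≤ ‖y ^ 2‖ := by
    rw [norm_pow]
    nlinarith
  have hc' := hc.trans hδ
  have hu1 := hu.imp_right fun k => k.trans hδ
  have hu1' := hu'.imp_right fun k => k.trans hδ
  have hPP : (2 - c ^ 2 - 2) * PP m (c ^ 2 + 2) = 2 - 2 * C := by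
    have h3 := PP_spec m (c ^ 2 + 2)
    rw [← h.hC] at h3
    linear_combination -h3
  have hc5 : 3 ≤ ‖c ^ 2‖ ∧ ‖c ^ 2‖ ≤ 5 := by
    have h6 : ‖(4 : ℂ)‖ = 4 := by norm_num
    have h7 := norm_sub_le (c ^ 2 + 4) 4
    rw [add_sub_cancel_right, h6] at h7
    have h8 := norm_sub_norm_le (4 : ℂ) (c ^ 2 + 4)
    have e1 : (4 : ℂ) - (c ^ 2 + 4) = - c ^ 2 := by ring
    rw [e1, norm_neg, h6] at h8
    have h9 : (1 : ℝ) / 10 ^ 9 ≤ 1 := by norm_num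
    constructor <;> linarith
  have hPPn : ‖c ^ 2‖ * ‖PP m (c ^ 2 + 2)‖ = 2 * ‖1 - C‖ := by
    have e1 : (2 : ℂ) - c ^ 2 - 2 = - c ^ 2 := by ring
    have e2 : (2 : ℂ) - 2 * C = 2 * (1 - C) := by ring
    have h7 : ‖(2 : ℂ)‖ = 2 := by norm_num
    rw [e1, e2] at hPP
    rw [← norm_neg (c ^ 2), ← norm_mul, hPP, norm_mul, h7]
  refine ⟨h1, fun hm => ?_, fun hm => ?_⟩
  · rcases h2 with h2 | h2
    · exfalso
      have h3 : ‖C - 1‖ ≤ 1 / 2000 := by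
        rw [norm_sub_rev]
        have h4 : ‖PP m (c ^ 2 + 2)‖ ≤ 1 / 10000 := by
          norm_num at hδ ⊢
          linarith
        have h5 : ‖c ^ 2‖ * ‖PP m (c ^ 2 + 2)‖ ≤ 5 * (1 / 10000) :=
          mul_le_mul hc5.2 h4 (norm_nonneg _) (by norm_num)
        linarith
      refine par_core (u := u) (v := u) (u' := u') (c := c) (e := e) (P := P) (Y := y ^ 2)
        (ε := C - 1) (ε' := 2 * (C - 1)) rfl ?_ h.hP ?_ (by linarith) ?_ hc' hu1 hu1' he1 hY1 hy2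
      · rw [h.rel]; ring
      · rw [hye hm]; ring
      · rw [norm_mul]
        have h7 : ‖(2 : ℂ)‖ = 2 := by norm_num
        rw [h7]
        linarith
    · exact h2
  · rcases h2 with h2 | h2
    · exact h2
    · exfalso
      have h3 : 1 ≤ ‖1 - C‖ := by
        nlinarith [norm_nonneg (c ^ 2)]
      have hE : ‖e ^ 2 * (c ^ 2 * (c ^ 2 + 4)) / 4‖ ≤ 1 / 10000 := by
        rw [norm_div, norm_mul, norm_mul, norm_pow]
        have h6 : ‖(4 : ℂ)‖ = 4 := by norm_num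
        rw [h6, div_le_iff₀ (by norm_num)]
        have h7 : ‖e‖ ^ 2 ≤ 160 ^ 2 := pow_le_pow_left₀ (norm_nonneg _) he 2
        have h8 : ‖c ^ 2‖ * ‖c ^ 2 + 4‖ ≤ 5 * (1 / 10 ^ 9) :=
          mul_le_mul hc5.2 hc' (norm_nonneg _) (by norm_num)
        have h9 : ‖e‖ ^ 2 * (‖c ^ 2‖ * ‖c ^ 2 + 4‖) ≤ 160 ^ 2 * (5 * (1 / 10 ^ 9)) :=
          mul_le_mul h7 h8 (by positivity) (by norm_num)
        norm_num at h9 ⊢
        linarith
      have h4 : ‖C + 1‖ ≤ 1 / 2000 := by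
        have e1 : (1 - C) * (C + 1) = - (e ^ 2 * (c ^ 2 * (c ^ 2 + 4)) / 4) := by
          linear_combination - h.hCC
        have h5 : ‖1 - C‖ * ‖C + 1‖ ≤ 1 / 10000 := by
          rw [← norm_mul, e1, norm_neg]
          exact hE
        nlinarith [norm_nonneg (C + 1)]
      have hY1' : 1 ≤ ‖- y ^ 2‖ := by rw [norm_neg]; exact hY1
      have hY2' : 1 ≤ ‖- y ^ 2‖ * ‖(2 + - y ^ 2) ^ 2 - 1‖ := by
        rw [norm_neg, ← sub_eq_add_neg]; exact hy3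
      refine par_core (u := u) (v := -u) (u' := u') (c := c) (e := e) (P := P) (Y := - y ^ 2)
        (ε := C + 1) (ε' := -2 * (C + 1)) (by ring) ?_ h.hP ?_ (by linarith) ?_ hc' hu1 hu1' he1
        hY1' hY2'
      · rw [h.rel]; ring
      · rw [← sub_eq_add_neg, hyo hm]; ring
      · rw [norm_mul]
        have h7 : ‖(-2 : ℂ)‖ = 2 := by norm_num
        rw [h7]
        linarith

end Pool.Agent.HT42
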