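import Mathlib

/-!
# HT42/PrY2: a product of numbers of modulus slightly above `1` and numbers close to `0`
-/

set_option autoImplicit false

namespace Pool.Agent.HT42

theorem prod_par2 {n : ℕ} {x : ℕ → ℂ} {ev : ℕ → Prop} [DecidablePred ev] {δ : ℝ} (hn : 1 ≤ n)
    (hδ : δ ≤ 1 / 10 ^ 9)
    (h1 : ∀ j, 1 ≤ j → j ≤ n → ‖x j‖ ≤ 1 + 2 * δ)
    (h2 : ∀ j, 1 ≤ j → j ≤ n → ev j → 1 < ‖x j‖)
    (h3 : ∀ j, 1 ≤ j → j ≤ n → ¬ ev j → ‖x j‖ ≤ 10 ^ 5 * δ)
    (hE : (∀ j, 1 ≤ j → j ≤ n → ev j) ∨ (((Finset.Icc 1 n).filter ev).card : ℝ) * δ ≤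
      (((Finset.Icc 1 n).filter fun j => ¬ ev j).card : ℝ)) :
    ∏ j ∈ Finset.Icc 1 n, x j ≠ 1 := by
  intro hp
  have hnorm : ∏ j ∈ Finset.Icc 1 n, ‖x j‖ = 1 := by
    rw [← norm_prod, hp, norm_one]
  have hall : ¬ ∀ j, 1 ≤ j → j ≤ n → ev j := by
    intro hev
    have hlt : ∏ _j ∈ Finset.Icc 1 n, (1 : ℝ) < ∏ j ∈ Finset.Icc 1 n, ‖x j‖ := by
      apply Finset.prod_lt_prod_of_nonempty
      · intro i _; norm_num
      · intro i hi
        rw [Finset.mem_Icc] at hi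
        exact h2 i hi.1 hi.2 (hev i hi.1 hi.2)
      · exact ⟨1, Finset.mem_Icc.2 ⟨le_refl 1, hn⟩⟩
    rw [hnorm, Finset.prod_const_one] at hlt
    exact lt_irrefl _ hlt
  have hcard := hE.resolve_left hall
  push Not at hall
  obtain ⟨j₀, hj1, hjn, hj₀⟩ := hall
  have hj₀mem : j₀ ∈ (Finset.Icc 1 n).filter (fun j => ¬ ev j) := by
    rw [Finset.mem_filter, Finset.mem_Icc]
    exact ⟨⟨hj1, hjn⟩, hj₀⟩
  set O : ℕ := ((Finset.Icc 1 n).filter (fun j => ¬ ev j)).card with hO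
  have hO0 : O ≠ 0 := Finset.card_ne_zero_of_mem hj₀mem
  have hsmall : 10 ^ 5 * δ ≤ 1 / 10 ^ 4 := by
    norm_num at hδ ⊢
    linarith
  -- the even factors
  have hA : ∏ j ∈ (Finset.Icc 1 n).filter ev, ‖x j‖ ≤ Real.exp 2 ^ O := by
    calc ∏ j ∈ (Finset.Icc 1 n).filter ev, ‖x j‖
        ≤ ∏ _j ∈ (Finset.Icc 1 n).filter ev, Real.exp (2 * δ) := by
          apply Finset.prod_le_prod
          · intro i _; exact norm_nonneg _
          · intro i hi
            rw [Finset.mem_filter, Finset.mem_Icc] at hi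
            refine (h1 i hi.1.1 hi.1.2).trans ?_
            have := Real.add_one_le_exp (2 * δ)
            linarith
      _ = Real.exp (((Finset.Icc 1 n).filter ev).card * (2 * δ)) := by
          rw [Finset.prod_const, ← Real.exp_nat_mul]
      _ ≤ Real.exp (O * 2) := by
          apply Real.exp_le_exp.2
          linarith
      _ = Real.exp 2 ^ O := by rw [Real.exp_nat_mul]
  -- the odd factors
  have hB : ∏ j ∈ (Finset.Icc 1 n).filter (fun j => ¬ ev j), ‖x j‖ ≤ (1 / 10 ^ 4 : ℝ) ^ O := by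
    rw [hO, ← Finset.prod_const]
    apply Finset.prod_le_prod
    · intro i _; exact norm_nonneg _
    · intro i hi
      rw [Finset.mem_filter, Finset.mem_Icc] at hi
      exact (h3 i hi.1.1 hi.1.2 hi.2).trans hsmall
  have hB0 : 0 ≤ ∏ j ∈ (Finset.Icc 1 n).filter (fun j => ¬ ev j), ‖x j‖ :=
    Finset.prod_nonneg fun i _ => norm_nonneg _
  have hexp : Real.exp 2 < 8 := by
    have h := Real.exp_one_lt_d9
    have e : Real.exp 2 = Real.exp 1 * Real.exp 1 := by rw [← Real.exp_add]; norm_num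
    rw [e]
    have h0 := Real.exp_pos 1
    nlinarith
  rw [← Finset.prod_filter_mul_prod_filter_not (Finset.Icc 1 n) ev] at hnorm
  have hle : (∏ j ∈ (Finset.Icc 1 n).filter ev, ‖x j‖) *
      ∏ j ∈ (Finset.Icc 1 n).filter (fun j => ¬ ev j), ‖x j‖ ≤
        Real.exp 2 ^ O * (1 / 10 ^ 4) ^ O :=
    mul_le_mul hA hB hB0 (by positivity)
  rw [hnorm, ← mul_pow] at hle
  have h5 : (Real.exp 2 * (1 / 10 ^ 4)) ^ O < 1 := by
    apply pow_lt_one₀ (by positivity) _ hO0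
    norm_num
    linarith
  linarith

end Pool.Agent.HT42
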