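import Pool.Agent.HT42.Bd
import Pool.Agent.HT42.LemA
import Pool.Agent.HT42.LemS1
import Pool.Agent.HT42.LemS2
import Pool.Agent.HT42.AlgY
import Pool.Agent.HT42.Par
import Pool.Agent.HT42.PrY2

/-!
# HT42/Main2: the top coefficient of a highly twisted closed chain, with parity
-/

set_option autoImplicit false

namespace Pool.Agent.HT42

open Pool.Agent.DFJ Pool.Agent.TBK

/-- the inequalities of discreteness satisfied by a label -/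
def Lab (y : ℂ) : Prop :=
  1 ≤ ‖y‖ ∧ 1 ≤ ‖y ^ 2‖ * ‖(2 + y ^ 2) ^ 2 - 1‖ ∧ 1 ≤ ‖y ^ 2‖ * ‖(2 - y ^ 2) ^ 2 - 1‖

theorem Lab.of_sq {y z : ℂ} (h : Lab y) (hz : z ^ 2 = y ^ 2) : Lab z := by
  obtain ⟨h1, h2, h3⟩ := h
  refine ⟨?_, by rw [hz]; exact h2, by rw [hz]; exact h3⟩
  have h4 : ‖z‖ ^ 2 = ‖y‖ ^ 2 := by rw [← norm_pow, ← norm_pow, hz]
  have h5 := norm_nonneg z
  nlinarith

/-- the region at index `i + 1` with its middle label -/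
theorem reg_label (b : ℕ → ℤ) (w : ℂ) (i : ℕ) {e C P : ℂ}
    (h : Reg (b (i + 1)).natAbs (Wc b w i) (Wc b w (i + 1)) (Wc b w (i + 2)) e C P) :
    (Even (b (i + 1)).natAbs → (Wc b w (i + 2) + Wc b w i) ^ 2 =
      (2 * C + 2) * yy (Wc b w (i + 1)) (b (i + 1)) (Wc b w i, Qc b w i) ^ 2) ∧
    (¬ Even (b (i + 1)).natAbs → (Wc b w (i + 2) - Wc b w i) ^ 2 =
      (2 * C - 2) * yy (Wc b w (i + 1)) (b (i + 1)) (Wc b w i, Qc b w i) ^ 2) := by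
  have hW : Wc b w (i + 2) = (act (Wc b w (i + 1)) (b (i + 1)) (Wc b w i, Qc b w i)).1 :=
    W_step b w i
  rw [hW, h.hC]
  constructor
  · intro he
    exact yy_even (Int.natAbs_even.1 he) _ _
  · intro he
    exact yy_odd (fun h => he (Int.natAbs_even.2 h)) _ _

theorem LL_ne_one2 {n : ℕ} (hn : 1 ≤ n) {b : ℕ → ℤ} {δ : ℝ} (hδ : δ ≤ 1 / 10 ^ 9)
    (hb : ∀ j, 1 ≤ j → j ≤ n → 10 ^ 9 ≤ (b j).natAbs)
    (hbδ : ∀ j, 1 ≤ j → j ≤ n → 10 ^ 10 ≤ δ * ((b j).natAbs : ℝ) ^ 2)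
    (hE : (∀ j, 1 ≤ j → j ≤ n → Even (b j)) ∨
      (((Finset.Icc 1 n).filter fun j => Even (b j)).card : ℝ) * δ ≤
        (((Finset.Icc 1 n).filter fun j => ¬ Even (b j)).card : ℝ)) {w : ℂ}
    (hw : Wc b w (n + 1) = 0)
    (hsh : ∀ j, 1 ≤ j → j ≤ n → ∀ m, 1 ≤ m → 1 ≤ ‖al m (Wc b w j ^ 2 + 2)‖ * ‖Wc b w j ^ 2‖)
    (hne : ∀ j, Wc b w j ^ 2 ≠ -4)
    (hy : ∀ i, i + 1 ≤ n → Lab (yy (Wc b w (i + 1)) (b (i + 1)) (Wc b w i, Qc b w i))) :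
    TBK.LL b n w ≠ 1 := by
  have hb2 : ∀ j, 1 ≤ j → j ≤ n → 2 ≤ (b j).natAbs := fun j h1 h2 =>
    le_trans (by norm_num) (hb j h1 h2)
  have hW1 : ∀ j, 1 ≤ j → j ≤ n → 1 ≤ ‖Wc b w j‖ := by
    intro j h1 h2
    have h3 := hsh j h1 h2 1 le_rfl
    rw [al_one, norm_one, one_mul, norm_pow] at h3
    nlinarith [norm_nonneg (Wc b w j)]
  have hreg : ∀ i, i + 1 ≤ n → ∃ e C P : ℂ,
      Reg (b (i + 1)).natAbs (Wc b w i) (Wc b w (i + 1)) (Wc b w (i + 2)) e C P ∧ ‖e‖ ≤ 160 := by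
    intro i hi
    obtain ⟨e, C, P, hr⟩ := reg_chain b w i
    exact ⟨e, C, P, hr, al_bound hb2 hw hi (hW1 _ (by omega) hi) hr⟩
  have hnear : ∀ j, 1 ≤ j → j ≤ n → ‖Wc b w j ^ 2 + 4‖ ≤ δ := by
    intro j h1 h2
    obtain ⟨i, rfl⟩ : ∃ i, j = i + 1 := ⟨j - 1, by omega⟩
    obtain ⟨e, C, P, hr, he⟩ := hreg i h2
    rw [hr.he] at he
    have hsh' : ∀ m : ℕ, 1 ≤ m → 1 ≤ ‖al m (Wc b w (i + 1) ^ 2 + 2)‖ *
        ‖Wc b w (i + 1) ^ 2 + 2 - 2‖ := by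
      intro m hm
      have h4 := hsh (i + 1) h1 h2 m hm
      have e1 : Wc b w (i + 1) ^ 2 + 2 - 2 = Wc b w (i + 1) ^ 2 := by ring
      rw [e1]
      exact h4
    have hs18 : ‖Wc b w (i + 1) ^ 2 + 2‖ ≤ 18 := by
      have h4 := W_lt hb2 hw h2
      refine (norm_add_le _ _).trans ?_
      rw [norm_pow]
      have h5 : ‖(2 : ℂ)‖ = 2 := by norm_num
      rw [h5]
      nlinarith [norm_nonneg (Wc b w (i + 1))]
    have h3 := lemS1 (hb (i + 1) h1 h2) hs18 he hsh'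
    have h4 := lemS2 (le_trans (by norm_num) (hb (i + 1) h1 h2)) h3 he hsh'
    have e1 : Wc b w (i + 1) ^ 2 + 2 + 2 = Wc b w (i + 1) ^ 2 + 4 := by ring
    rw [e1] at h4
    have h5 := hbδ (i + 1) h1 h2
    have hpos : (0 : ℝ) < ((b (i + 1)).natAbs : ℝ) ^ 2 := by
      have : 0 < (b (i + 1)).natAbs := lt_of_lt_of_le (by norm_num) (hb (i + 1) h1 h2)
      positivity
    exact le_of_mul_le_mul_right (h4.trans h5) hpos
  have hpar : ∀ j, 1 ≤ j → j ≤ n → ‖PP (b j).natAbs (Wc b w j ^ 2 + 2)‖ ≤ 1 + 2 * δ ∧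
      (Even (b j).natAbs → 1 < ‖PP (b j).natAbs (Wc b w j ^ 2 + 2)‖) ∧
      (¬ Even (b j).natAbs → ‖PP (b j).natAbs (Wc b w j ^ 2 + 2)‖ ≤ 10 ^ 5 * δ) := by
    intro j h1 h2
    obtain ⟨i, rfl⟩ : ∃ i, j = i + 1 := ⟨j - 1, by omega⟩
    obtain ⟨e, C, P, hr, he⟩ := hreg i h2
    obtain ⟨l1, l2⟩ := reg_label b w i hr
    obtain ⟨y1, y2, y3⟩ := hy i h2
    refine par hr hδ (hnear _ h1 h2) ?_ ?_ ?_ he ?_ ?_ l1 l2 y1 y2 y3
    · intro h3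
      exact hne (i + 1) (by linear_combination h3)
    · rcases Nat.eq_zero_or_pos i with h3 | h3
      · left
        rw [h3]
        exact W_zero b w
      · exact Or.inr (hnear i h3 (by omega))
    · rcases Nat.lt_or_ge (i + 1) n with h3 | h3
      · exact Or.inr (hnear (i + 2) (by omega) (by omega))
      · left
        have e1 : i + 2 = n + 1 := by omega
        rw [e1]
        exact hw
    · rw [hr.he]
      exact hsh (i + 1) h1 h2 _ (le_trans (by norm_num) (hb (i + 1) h1 h2))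
    · apply lemA (le_trans (by norm_num) (hb (i + 1) h1 h2))
      rw [← hr.he]
      exact he
  unfold TBK.LL
  refine prod_par2 (ev := fun j => Even (b j)) hn hδ (fun j h1 h2 => (hpar j h1 h2).1)
    (fun j h1 h2 h3 => (hpar j h1 h2).2.1 (Int.natAbs_even.2 h3))
    (fun j h1 h2 h3 => (hpar j h1 h2).2.2 fun h4 => h3 (Int.natAbs_even.1 h4)) hE

end Pool.Agent.HT42
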