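import Pool.Agent.HT42.Mats2
import Pool.Agent.HT42.Defs2

/-!
# HT42/Mats3: the middle labels are labels of elements of the group
-/

set_option autoImplicit false

namespace Pool.Agent.HT42

open Pool.Agent.DFJ Pool.Agent.TBK Matrix

theorem yy_cc {κ : ℂ} {x t : SLC} {a : ℕ → ℤ} {n : ℕ} (hn : Even n)
    (hX : Xw x t a (n + 1) = 1) (hH : hs x t a (hs x t a 1 (n + 1))⁻¹ (n + 1) = 1)
    (hκ : κ ^ 2 = 1) (hT : tr t = 2 * κ) {i : ℕ} (hi : i + 1 ≤ n) :
    yy (Wc (sg a) (cc κ t (hs x t a 1 (n + 1))⁻¹) (i + 1)) (sg a (i + 1))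
        (Wc (sg a) (cc κ t (hs x t a 1 (n + 1))⁻¹) i,
          Qc (sg a) (cc κ t (hs x t a 1 (n + 1))⁻¹) i) ^ 2 =
      cc κ t (Aw x t a n (i + 1)) ^ 2 := by
  obtain ⟨h1, h2, h3⟩ := chain_cc hn hX hH hκ hT i (by omega)
  unfold Aw Hw
  rw [h1, h2, h3, Nat.add_sub_cancel]
  set H : SLC := (hs x t a 1 (n + 1))⁻¹ with hHd
  set h := hs x t a H (i + 1) with hh
  set h' := hs x t a H i with hh'
  rcases Nat.even_or_odd i with hi2 | hi2
  · -- `i + 1` odd
    have hodd : Odd (i + 1) := hi2.add_one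
    have hX1 : Xw x t a (i + 1) = h * t⁻¹ * h⁻¹ * t := hs_odd hn hX hH hodd (by omega)
    have hb : sg a (i + 1) = -a (i + 1) := by
      unfold sg
      rw [hodd.neg_one_pow, neg_one_mul]
    have h4 : cc κ t (h'⁻¹ * h) = -cc κ t (h⁻¹ * h') := by
      rw [← cc_inv hκ hT]
      congr 1
      group
    rw [if_pos hi2, h4, hb]
    unfold yy
    by_cases he : Even (a (i + 1))
    · have he' : Even (-a (i + 1)) := he.neg
      have e1 : -a (i + 1) / 2 = -(a (i + 1) / 2) := by
        obtain ⟨l, hl⟩ := he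
        omega
      rw [if_pos he', if_pos he, e1, act_odd hκ hT, ← hX1]
    · have he' : ¬ Even (-a (i + 1)) := fun h5 => he (by simpa using h5.neg)
      have e1 : -a (i + 1) / 2 = -(a (i + 1) / 2 + 1) := by
        rw [Int.not_even_iff_odd] at he
        obtain ⟨l, hl⟩ := he
        omega
      rw [if_neg he', if_neg he, if_neg (Nat.not_even_iff_odd.2 hodd), e1, act_odd hκ hT, ← hX1]
      simp only []
      rw [neg_sq]
  · -- `i + 1` even
    have heven : Even (i + 1) := hi2.add_one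
    have hX1 : Xw x t a (i + 1) = t * h * t⁻¹ * h⁻¹ := hs_even x t a H heven
    have hb : sg a (i + 1) = a (i + 1) := by
      unfold sg
      rw [heven.neg_one_pow, one_mul]
    rw [if_neg (Nat.not_even_iff_odd.2 hi2), hb]
    unfold yy
    by_cases he : Even (a (i + 1))
    · rw [if_pos he, if_pos he, act_even hκ hT, ← hX1]
    · rw [if_neg he, if_neg he, if_pos heven, act_even hκ hT, ← hX1]

theorem mats3 {x t : SLC} {a : ℕ → ℤ} {n : ℕ} (hn : Even n) (hX : Xw x t a (n + 1) = 1)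
    (ht : tr t ^ 2 = 4) (hne : x * t ≠ t * x) :
    ∃ w : ℂ, w ≠ 0 ∧ Wc (sg a) w (n + 1) = 0 ∧
      (∀ j, 1 ≤ j → j ≤ n → tr (Xw x t a j) = Wc (sg a) w j ^ 2 + 2) ∧
      (∀ j, 1 ≤ j → j ≤ n → ∀ m : ℕ, cc (tr t / 2) t (Xw x t a j ^ m) =
        al m (Wc (sg a) w j ^ 2 + 2) * Wc (sg a) w j ^ 2) ∧
      ((∀ j, 1 ≤ j → j ≤ n → Xw x t a j ≠ 1) → ∀ j, 1 ≤ j → j ≤ n → Wc (sg a) w j ≠ 0) ∧
      (∀ j, 1 ≤ j → j ≤ n →
        yy (Wc (sg a) w j) (sg a j) (Wc (sg a) w (j - 1), Qc (sg a) w (j - 1)) ^ 2 =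
          cc (tr t / 2) t (Aw x t a n j) ^ 2) := by
  set κ : ℂ := tr t / 2 with hκd
  have hκ : κ ^ 2 = 1 := by
    rw [hκd, div_pow, ht]
    norm_num
  have hT : tr t = 2 * κ := by
    rw [hκd]
    ring
  set H : SLC := (hs x t a 1 (n + 1))⁻¹ with hHd
  have hH : hs x t a H (n + 1) = 1 := by
    rw [hs_mul x t a H hn.add_one, hHd, mul_inv_cancel]
  have hw : cc κ t H ≠ 0 := by
    apply w_ne hκ hT hne
    have h1 := hs_odd hn hX hH (j := 1) odd_one (by omega)
    exact h1
  have htr : ∀ j, 1 ≤ j → j ≤ n → tr (Xw x t a j) = Wc (sg a) (cc κ t H) j ^ 2 + 2 := by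
    intro j hj1 hj2
    rw [(chain_cc hn hX hH hκ hT j hj2).1]
    rcases Nat.even_or_odd j with hj | hj
    · rw [hs_even x t a H hj]
      have h1 := tr_comm1 hκ hT (hs x t a H j)
      unfold cc
      rw [← h1]
      unfold tr
      have e1 : t * hs x t a H j * t⁻¹ * (hs x t a H j)⁻¹ =
          t * (hs x t a H j * t⁻¹ * (hs x t a H j)⁻¹) := by group
      rw [e1, mx_mul, trace_mul_comm, ← mx_mul]
    · rw [hs_odd hn hX hH hj (by omega)]
      exact tr_comm1 hκ hT (hs x t a H j)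
  refine ⟨cc κ t H, hw, ?_, htr, ?_, ?_, ?_⟩
  · rw [(chain_cc hn hX hH hκ hT n le_rfl).2.1, hH, cc_one hκ hT]
  · intro j hj1 hj2 m
    have h1 := c_pow (nl_nil hκ hT) (Xw x t a j) m
    unfold cc at *
    rw [h1, htr j hj1 hj2]
    congr 1
    have h2 := cc_X hn hX hH hκ hT hj2
    have h3 := (chain_cc hn hX hH hκ hT j hj2).1
    unfold cc at h2 h3
    rw [h2, h3]
  · intro hX1
    have hE0 : nl κ t ≠ 0 := by
      intro h0
      apply hne
      have h1 := mx_eq_nl hκ t
      rw [h0, add_zero] at h1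
      apply Subtype.ext
      change mx (x * t) = mx (t * x)
      rw [mx_mul, mx_mul, h1, mul_smul_comm, smul_mul_assoc, mul_one, one_mul]
    intro j
    induction j with
    | zero => intro h; omega
    | succ k ih =>
      intro hj1 hj2 h0
      rcases Nat.eq_zero_or_pos k with hk | hk
      · subst hk
        exact hw h0
      · have hWk := ih hk (by omega)
        have hE := nl_nil hκ hT
        have hc := (chain_cc hn hX hH hκ hT (k + 1) hj2).1
        obtain ⟨hc1, _, hc3⟩ := chain_cc hn hX hH hκ hT k (by omega)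
        set h := hs x t a H (k + 1) with hh
        rw [h0] at hc
        have hF : Nil2 (mx h * nl κ t * mx h⁻¹) := by
          have hdet : (mx h).det * (mx h⁻¹).det = 1 := by rw [mx_det, mx_det, one_mul]
          exact ⟨tr_conj0 hκ hT h, by rw [det_mul, det_mul, hE.det0, mul_zero, zero_mul]⟩
        have h1 : (mx h * nl κ t * mx h⁻¹ * nl κ t).trace = 0 := by
          rw [tr_gEgE hE]
          change 0 = (mx h * nl κ t).trace at hc
          rw [← hc]
          simp
        obtain ⟨μ, hμ⟩ := smul_of_tr hE hF hE0 h1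
        have h2 := cc_sq_mu (g := hs x t a H k) hκ hT hμ
        have h3 := chain_form (sg a) (cc κ t H) k
        rw [h0] at h3
        have h4 : Qc (sg a) (cc κ t H) k ^ 2 = cc κ t (h⁻¹ * hs x t a H k) ^ 2 := by
          rw [hc3]
          split_ifs with hk2
          · have e : (hs x t a H k)⁻¹ * h = (h⁻¹ * hs x t a H k)⁻¹ := by group
            rw [e, cc_inv hκ hT, neg_sq]
          · rfl
        rw [h2, ← hc1] at h4
        have h5 : (μ - 1) * Wc (sg a) (cc κ t H) k ^ 2 = 0 := by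
          linear_combination h3 - h4
        have h6 : μ = 1 := by
          rcases mul_eq_zero.1 h5 with h7 | h7
          · linear_combination h7
          · exact absurd (pow_eq_zero_iff (two_ne_zero) |>.1 h7) hWk
        rw [h6, one_smul] at hμ
        exact hX1 (k + 1) hj1 hj2 (X_one hn hX hH hκ hT hj2 hμ)
  · intro j hj1 hj2
    obtain ⟨i, rfl⟩ : ∃ i, j = i + 1 := ⟨j - 1, by omega⟩
    rw [Nat.add_sub_cancel]
    exact yy_cc hn hX hH hκ hT hj2

end Pool.Agent.HT42
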