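import Pool.Agent.TBK.Final
import Pool.Agent.HT42.Main2
import Pool.Agent.HT42.Mats3
import Pool.Agent.HT42.Shi4
import Pool.Agent.HT42.Dih6
import Pool.Agent.HT42.Inf
import Pool.Agent.HT42.Density

/-!
# HT42/Final3: discrete faithful representations of highly twisted two-bridge knots
-/

set_option autoImplicit false

namespace Pool.Agent.HT42

open Pool.Agent.DFJ Pool.Agent.TBK LaurentPolynomial Matrix

variable {g : ℕ} {a : ℕ → ℤ}

theorem map_hs {G H : Type*} [Group G] [Group H] (f : G →* H) (x t : G) (a : ℕ → ℤ) (k : G)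
    (j : ℕ) : f (hs x t a k j) = hs (f x) (f t) a (f k) j := by
  induction j using Nat.twoStepInduction with
  | zero => exact map_one f
  | one => rfl
  | more j ih1 _ =>
    rw [hs_succ2, hs_succ2, map_mul, map_zpow, map_Xw, ih1]

theorem map_Aw {G H : Type*} [Group G] [Group H] (f : G →* H) (x t : G) (a : ℕ → ℤ) (n j : ℕ) :
    f (Aw x t a n j) = Aw (f x) (f t) a n j := by
  have hH : f (Hw x t a n) = Hw (f x) (f t) a n := by
    unfold Hw
    rw [map_inv, map_hs, map_one]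
  unfold Aw
  split_ifs
  · rw [map_mul, map_zpow, map_Xw, map_hs, hH]
  · rw [map_mul, map_inv, map_mul, map_zpow, map_Xw, map_hs, map_hs, hH]
  · rw [map_mul, map_inv, map_mul, map_zpow, map_Xw, map_hs, map_hs, hH]

/-- `α` is injective, its image is discrete, and the trace of the meridian `t` is `± 2`. -/
structure DiscFaithful {g : ℕ} {a : ℕ → ℤ} (α : TBGroup g a →* SLC) : Prop where
  inj : Function.Injective α
  disc : DiscreteTopology α.range
  par : (mx (α (PresentedGroup.of 1))).trace ^ 2 = 4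

/-- The data of a discrete faithful representation. -/
theorem disc_data (hg : 1 ≤ g) (ha : ∀ j, 1 ≤ j → j ≤ 2 * g → 4 ≤ (a j).natAbs)
    {φ : TBGroup g a →* Multiplicative ℤ} (hφ : Function.Surjective φ)
    {α : TBGroup g a →* SLC} (hα : DiscFaithful α) :
    ∃ w : ℂ, Cl (2 * g) (sg a) w ∧ NTs (2 * g) (sg a) w ∧
      (∀ j, 1 ≤ j → j ≤ 2 * g → tr (rho α (Xf a j)) = Wc (sg a) w j ^ 2 + 2) ∧
      (∀ j, 1 ≤ j → j ≤ 2 * g → ∀ m, 1 ≤ m →
        1 ≤ ‖al m (Wc (sg a) w j ^ 2 + 2)‖ * ‖Wc (sg a) w j ^ 2‖) ∧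
      ∀ i, i + 1 ≤ 2 * g →
        Lab (yy (Wc (sg a) w (i + 1)) (sg a (i + 1)) (Wc (sg a) w i, Qc (sg a) w i)) := by
  have ha0 : ∀ j, 1 ≤ j → j ≤ 2 * g → a j ≠ 0 := by
    intro j h1 h2 h3
    have := ha j h1 h2
    rw [h3] at this
    norm_num at this
  have hX : ∀ j, rho α (Xf a j) = Xw (α (PresentedGroup.of 0)) (α (PresentedGroup.of 1)) a j := by
    intro j
    exact map_Xw (rho α) ga gb a j
  have hX1 : ∀ j, rho α (Xf a j) =
      α (Xw (PresentedGroup.of 0) (PresentedGroup.of 1) a j) := by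
    intro j
    rw [hX, map_Xw]
  have hrel : Xw (α (PresentedGroup.of 0)) (α (PresentedGroup.of 1)) a (2 * g + 1) = 1 := by
    rw [← hX]
    exact rho_rel α
  have hnab : α (PresentedGroup.of 0) * α (PresentedGroup.of 1) ≠
      α (PresentedGroup.of 1) * α (PresentedGroup.of 0) := by
    rw [← map_mul, ← map_mul]
    exact fun h => xt_ne hg ha0 (hα.inj h)
  obtain ⟨w, hw0, hw1, hw2, hw3, hw4, hw5⟩ := mats3 (even_two_mul g) hrel hα.par hnab
  have htr : ∀ j, 1 ≤ j → j ≤ 2 * g → tr (rho α (Xf a j)) = Wc (sg a) w j ^ 2 + 2 := by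
    intro j h1 h2
    rw [hX]
    exact hw2 j h1 h2
  have hNT : NTs (2 * g) (sg a) w := by
    intro j h1 h2
    rw [← htr j h1 h2]
    apply NT_of
    intro k hk hk1
    exfalso
    rw [hX1, ← map_pow, ← map_one α] at hk1
    exact X_pow_ne ha0 h1 h2 hk (hα.inj hk1)
  have hW0 : ∀ j, 1 ≤ j → j ≤ 2 * g → Wc (sg a) w j ≠ 0 := by
    apply hw4
    intro j h1 h2 h3
    rw [← hX, hX1] at h3
    apply X_ne_one ha0 h1 h2
    apply hα.inj
    rw [h3, map_one]
  set κ : ℂ := tr (α (PresentedGroup.of 1)) / 2 with hκd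
  have hκ : κ ^ 2 = 1 := by
    rw [hκd, div_pow, show tr (α (PresentedGroup.of 1)) ^ 2 = 4 from hα.par]
    norm_num
  have hT : tr (α (PresentedGroup.of 1)) = 2 * κ := by
    rw [hκd]
    ring
  refine ⟨w, ⟨by omega, even_two_mul g, fun j h1 h2 => ?_, hw0, hw1⟩, hNT, htr, ?_, ?_⟩
  · have h3 := ha0 j h1 h2
    rw [← Int.natAbs_ne_zero] at h3 ⊢
    rwa [sg_natAbs]
  · intro j h1 h2 m hm
    have hA : Xw (α (PresentedGroup.of 0)) (α (PresentedGroup.of 1)) a j ^ m ∈ α.range := by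
      refine ⟨Xw (PresentedGroup.of 0) (PresentedGroup.of 1) a j ^ m, ?_⟩
      rw [map_pow, map_Xw]
    have h5 := shimizu hα.disc hκ hT ⟨PresentedGroup.of 1, rfl⟩ hA
    rw [hw3 j h1 h2 m] at h5
    rw [← norm_mul]
    rcases h5 with h5 | h5
    · exfalso
      rcases mul_eq_zero.1 h5 with h6 | h6
      · exact hNT j h1 h2 m hm h6
      · exact hW0 j h1 h2 (pow_eq_zero_iff two_ne_zero |>.1 h6)
    · exact h5
  · intro i hi
    have h5 := hw5 (i + 1) (by omega) hi
    rw [Nat.add_sub_cancel] at h5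
    refine Lab.of_sq ?_ h5
    have hA : Aw (α (PresentedGroup.of 0)) (α (PresentedGroup.of 1)) a (2 * g) (i + 1) =
        α (Aw (PresentedGroup.of 0) (PresentedGroup.of 1) a (2 * g) (i + 1)) := by
      rw [map_Aw]
    rw [hA]
    refine shimizu4 hα.disc hκ hT ⟨PresentedGroup.of 1, rfl⟩ ⟨_, rfl⟩ ?_ ?_ ?_
    · intro h0
      have h6 := comm_of_cc hκ hT h0
      rw [← map_inv, ← map_mul, ← map_mul, ← map_mul, ← map_mul] at h6
      exact A_not_comm ha0 (by omega) hi (hα.inj h6)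
    · intro h6
      rw [← map_inv, ← map_inv, ← map_mul, ← map_mul, ← map_mul, ← map_pow, ← map_one α] at h6
      exact V_pow_ne ha (by omega) hi (hα.inj h6)
    · intro h6
      rw [← map_inv, ← map_mul, ← map_mul, ← map_mul, ← map_pow, ← map_one α] at h6
      have h7 := congrArg φ (hα.inj h6)
      have h8 := chi_t φ hφ
      have h9 : chi φ gb = φ (PresentedGroup.of 1) := rfl
      rw [h9] at h8
      rw [map_pow, map_mul, map_mul, map_mul, map_inv, map_one] at h7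
      have h10 := congrArg Multiplicative.toAdd h7
      rw [toAdd_pow, toAdd_mul, toAdd_mul, toAdd_mul, toAdd_inv, toAdd_one] at h10
      generalize (φ (PresentedGroup.of 1)).toAdd = r at h8 h10
      simp only [nsmul_eq_mul] at h10
      push_cast at h10
      omega

/-- The torsion of a discrete faithful representation. -/
theorem disc_tors (hg : 1 ≤ g) (ha : ∀ j, 1 ≤ j → j ≤ 2 * g → 4 ≤ (a j).natAbs)
    {φ : TBGroup g a →* Multiplicative ℤ} (hφ : Function.Surjective φ)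
    {α : TBGroup g a →* SLC} (hα : DiscFaithful α) :
    ∃ w : ℂ, Cl (2 * g) (sg a) w ∧ NTs (2 * g) (sg a) w ∧
      (∀ j, 1 ≤ j → j ≤ 2 * g → ∀ m, 1 ≤ m →
        1 ≤ ‖al m (Wc (sg a) w j ^ 2 + 2)‖ * ‖Wc (sg a) w j ^ 2‖) ∧
      (∀ i, i + 1 ≤ 2 * g →
        Lab (yy (Wc (sg a) w (i + 1)) (sg a (i + 1)) (Wc (sg a) w i, Qc (sg a) w i))) ∧
      (∃! τ, IsTorsion φ α τ) ∧
      ∀ τ, IsTorsion φ α τ → ShapeD τ (TBK.LL (sg a) (2 * g) w) (2 * (2 * g - 1)) := by
  obtain ⟨w, hc, hs, htr, hsh, hy⟩ := disc_data hg ha hφ hα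
  have h1 : tr (rho α ga) = w ^ 2 + 2 := htr 1 le_rfl (by omega)
  have hx : tr (rho α ga) ≠ 2 := by
    rw [h1]
    intro h
    exact hc.w0 (pow_eq_zero_iff two_ne_zero |>.1 (by linear_combination h))
  have hL : TBK.LL (sg a) (2 * g) w =
      ∏ j ∈ Finset.Icc 1 (2 * g), PP (a j).natAbs (tr (rho α (Xf a j))) := by
    unfold TBK.LL
    refine Finset.prod_congr rfl fun j hj => ?_
    rw [Finset.mem_Icc] at hj
    rw [sg_natAbs, htr j hj.1 hj.2]
  obtain ⟨h2, h3⟩ := tors_main hg φ hφ α hx hL (hc.LL_ne_zero hs)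
  exact ⟨w, hc, hs, hsh, hy, h2, h3⟩

/-- Both questions of Dunfield, Friedl and Jackson for the two-bridge knot with the group
`TBGroup g a`: for every discrete faithful representation `α` of the knot group in `SL(2,ℂ)`
with meridians of trace `± 2` the torsion exists and is unique, it has degree `2 (2g - 1)`, and
it is monic if and only if the commutator subgroup is finitely generated. -/
def Conj (g : ℕ) (a : ℕ → ℤ) : Prop :=
  ∀ φ : TBGroup g a →* Multiplicative ℤ, Function.Surjective φ →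
    ∀ α : TBGroup g a →* SLC, DiscFaithful α →
      (∃! τ : ℂ[T;T⁻¹], IsTorsion φ α τ) ∧ ∀ τ : ℂ[T;T⁻¹], IsTorsion φ α τ →
        HasDegree τ (2 * (2 * g - 1)) ∧ (IsMonic τ ↔ (commutator (TBGroup g a)).FG)

theorem sg_even (a : ℕ → ℤ) (j : ℕ) : Even (sg a j) ↔ Even (a j) := by
  rw [← Int.natAbs_even, sg_natAbs, Int.natAbs_even]

open Classical in
theorem high_twist (hg : 1 ≤ g) (ha : ∀ j, 1 ≤ j → j ≤ 2 * g → 10 ^ 10 ≤ |a j|)
    (hE : (∀ j, 1 ≤ j → j ≤ 2 * g → Even (a j)) ∨ ∀ i, 1 ≤ i → i ≤ 2 * g →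
      10 ^ 10 * (((Finset.Icc 1 (2 * g)).filter fun j => Even (a j)).card : ℤ) ≤
        (((Finset.Icc 1 (2 * g)).filter fun j => ¬ Even (a j)).card : ℤ) * a i ^ 2) :
    Conj g a ∧ ¬ (commutator (TBGroup g a)).FG := by
  have hab : ∀ j, 1 ≤ j → j ≤ 2 * g → 10 ^ 10 ≤ (a j).natAbs := by
    intro j h1 h2
    have h3 := ha j h1 h2
    rw [Int.abs_eq_natAbs] at h3
    exact_mod_cast h3
  have ha0 : ∀ j, 1 ≤ j → j ≤ 2 * g → a j ≠ 0 := by
    intro j h1 h2 h3
    have := hab j h1 h2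
    rw [h3] at this
    norm_num at this
  have hfg : ¬ (commutator (TBGroup g a)).FG := by
    rw [fg_iff' ha0]
    intro h
    have h1 := h 1 le_rfl (by omega)
    have h2 := hab 1 le_rfl (by omega)
    rw [h1] at h2
    norm_num at h2
  refine ⟨fun φ hφ α hα => ?_, hfg⟩
  obtain ⟨w, hc, hs, hsh, hy, h2, h3⟩ := disc_tors hg
    (fun j h1 h2 => le_trans (by norm_num) (hab j h1 h2)) hφ hα
  have hne : (Finset.Icc 1 (2 * g)).Nonempty := ⟨1, Finset.mem_Icc.2 ⟨le_rfl, by omega⟩⟩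
  -- the smallest parameter
  obtain ⟨k, hk, hkmin⟩ := Finset.exists_min_image (Finset.Icc 1 (2 * g))
    (fun j => (a j).natAbs) hne
  rw [Finset.mem_Icc] at hk
  set M : ℕ := (a k).natAbs with hM
  have hM1 : 10 ^ 10 ≤ M := hab k hk.1 hk.2
  have hMR : (10 : ℝ) ^ 10 ≤ (M : ℝ) := by exact_mod_cast hM1
  have hMpos : (0 : ℝ) < (M : ℝ) := by linarith [show (0 : ℝ) < 10 ^ 10 by norm_num]
  have hM2 : (10 : ℝ) ^ 20 ≤ (M : ℝ) ^ 2 := by
    calc (10 : ℝ) ^ 20 = (10 ^ 10) ^ 2 := by norm_num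
      _ ≤ (M : ℝ) ^ 2 := by gcongr
  have hL1 : TBK.LL (sg a) (2 * g) w ≠ 1 := by
    refine LL_ne_one2 (δ := 10 ^ 10 / (M : ℝ) ^ 2) (by omega) ?_ ?_ ?_ ?_ hc.close
      hsh (fun j => hc.W_sq_ne j) hy
    · rw [div_le_div_iff₀ (by positivity) (by positivity)]
      nlinarith
    · intro j h4 h5
      rw [sg_natAbs]
      exact le_trans (by norm_num) (hab j h4 h5)
    · intro j h4 h5
      rw [sg_natAbs]
      have h6 : M ≤ (a j).natAbs := hkmin j (Finset.mem_Icc.2 ⟨h4, h5⟩)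
      have h7 : (M : ℝ) ≤ ((a j).natAbs : ℝ) := by exact_mod_cast h6
      have h8 : (M : ℝ) ^ 2 ≤ ((a j).natAbs : ℝ) ^ 2 := by gcongr
      rw [div_mul_eq_mul_div, le_div_iff₀ (by positivity)]
      gcongr
    · rcases hE with h4 | h4
      · exact Or.inl fun j h5 h6 => (sg_even a j).2 (h4 j h5 h6)
      · right
        have h5 := h4 k hk.1 hk.2
        have h6 : ((Finset.Icc 1 (2 * g)).filter fun j => Even (sg a j)) =
            (Finset.Icc 1 (2 * g)).filter fun j => Even (a j) :=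
          Finset.filter_congr fun j _ => sg_even a j
        have h6' : ((Finset.Icc 1 (2 * g)).filter fun j => ¬ Even (sg a j)) =
            (Finset.Icc 1 (2 * g)).filter fun j => ¬ Even (a j) :=
          Finset.filter_congr fun j _ => not_congr (sg_even a j)
        have c1 : (((Finset.Icc 1 (2 * g)).filter fun j => Even (sg a j)).card : ℝ) =
            (((Finset.Icc 1 (2 * g)).filter fun j => Even (a j)).card : ℝ) := by
          have := congrArg Finset.card h6
          exact_mod_cast this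
        have c2 : (((Finset.Icc 1 (2 * g)).filter fun j => ¬ Even (sg a j)).card : ℝ) =
            (((Finset.Icc 1 (2 * g)).filter fun j => ¬ Even (a j)).card : ℝ) := by
          have := congrArg Finset.card h6'
          exact_mod_cast this
        generalize (((Finset.Icc 1 (2 * g)).filter fun j => Even (a j)).card) = E at h5 c1
        generalize (((Finset.Icc 1 (2 * g)).filter fun j => ¬ Even (a j)).card) = O at h5 c2
        have h7 : (10 : ℝ) ^ 10 * (E : ℝ) ≤ (O : ℝ) * (M : ℝ) ^ 2 := by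
          have h8 : (((10 : ℤ) ^ 10 * (E : ℤ) : ℤ) : ℝ) ≤ (((O : ℤ) * a k ^ 2 : ℤ) : ℝ) :=
            Int.cast_le.2 h5
          have h9 : ((a k ^ 2 : ℤ) : ℝ) = (M : ℝ) ^ 2 := by
            rw [hM, Nat.cast_natAbs]
            push_cast
            rw [sq_abs]
          rw [Int.cast_mul, Int.cast_mul, h9, Int.cast_pow, Int.cast_natCast,
            Int.cast_natCast] at h8
          norm_num at h8 ⊢
          exact h8
        have h10 : (E : ℝ) * (10 ^ 10 / (M : ℝ) ^ 2) ≤ (O : ℝ) := by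
          rw [← mul_div_assoc, div_le_iff₀ (by positivity)]
          linarith
        convert h10 using 1
        rw [← c1]
  refine ⟨h2, fun τ hτ => ⟨(h3 τ hτ).degree (hc.LL_ne_zero hs), ?_⟩⟩
  rw [(h3 τ hτ).monic (hc.LL_ne_zero hs)]
  constructor
  · rintro (h4 | h4)
    · exact absurd h4 hL1
    · exact absurd h4 hc.LL_ne_neg
  · intro h4
    exact absurd h4 hfg

/-- The sequence `a_1, …, a_{2g}` as a function on `ℕ`. -/
def ext (g : ℕ) (a : Fin (2 * g) → ℤ) (j : ℕ) : ℤ :=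
  if h : j - 1 < 2 * g then a ⟨j - 1, h⟩ else 0

theorem conj_ext (hg : 1 ≤ g) {a : Fin (2 * g) → ℤ}
    (ha : ∀ j, 10 ^ 10 * (2 * g) ≤ (a j).natAbs) : Conj g (ext g a) := by
  classical
  have hval : ∀ j, 1 ≤ j → j ≤ 2 * g → 10 ^ 10 * (2 * g) ≤ (ext g a j).natAbs := by
    intro j h1 h2
    unfold ext
    rw [dif_pos (by omega)]
    exact ha _
  have hbig : ∀ j, 1 ≤ j → j ≤ 2 * g → 10 ^ 10 ≤ |ext g a j| := by
    intro j h1 h2
    have h3 := hval j h1 h2
    rw [Int.abs_eq_natAbs]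
    have h4 : 10 ^ 10 ≤ (ext g a j).natAbs := le_trans (by nlinarith) h3
    exact_mod_cast h4
  by_cases hev : ∀ j, 1 ≤ j → j ≤ 2 * g → Even (ext g a j)
  · exact (high_twist hg hbig (Or.inl hev)).1
  · refine (high_twist hg hbig (Or.inr fun i h1 h2 => ?_)).1
    push Not at hev
    obtain ⟨j₀, hj1, hj2, hj3⟩ := hev
    have hO : 1 ≤ ((Finset.Icc 1 (2 * g)).filter fun j => ¬ Even (ext g a j)).card := by
      rw [Nat.one_le_iff_ne_zero]
      refine Finset.card_ne_zero_of_mem (a := j₀) ?_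
      rw [Finset.mem_filter, Finset.mem_Icc]
      exact ⟨⟨hj1, hj2⟩, hj3⟩
    have hE : ((Finset.Icc 1 (2 * g)).filter fun j => Even (ext g a j)).card ≤ 2 * g := by
      refine (Finset.card_filter_le _ _).trans ?_
      rw [Nat.card_Icc]
      omega
    generalize ((Finset.Icc 1 (2 * g)).filter fun j => ¬ Even (ext g a j)).card = O at hO ⊢
    generalize ((Finset.Icc 1 (2 * g)).filter fun j => Even (ext g a j)).card = E at hE ⊢
    have h3 := hval i h1 h2
    have h4 : (ext g a i) ^ 2 = ((ext g a i).natAbs : ℤ) ^ 2 := (Int.natAbs_sq _).symm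
    rw [h4]
    have h5 : 10 ^ 10 * E ≤ O * (ext g a i).natAbs ^ 2 := by
      have h6 : 10 ^ 10 * E ≤ (ext g a i).natAbs := le_trans (Nat.mul_le_mul_left _ hE) h3
      have h7 : (ext g a i).natAbs ≤ (ext g a i).natAbs ^ 2 := Nat.le_self_pow (by norm_num) _
      calc 10 ^ 10 * E ≤ 1 * (ext g a i).natAbs ^ 2 := by omega
        _ ≤ O * (ext g a i).natAbs ^ 2 := Nat.mul_le_mul_right _ hO
    exact_mod_cast h5

end Pool.Agent.HT42
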