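import Pool.Agent.DFJ.Cheb

/-!
# HT42/LemS: small elements of a cyclic group in a discrete group

`lemma_S`: if `al n s` is bounded for one large `n` and `|al m s| |s - 2| ≥ 1` for all `m ≥ 1`
(Shimizu-Leutbecher), then `s` is close to `-2`.
-/

set_option autoImplicit false

namespace Pool.Agent.HT42

open Pool.Agent.DFJ

/-- `al n (2 cos z) sin z = sin (n z)`. -/
theorem al_cos (n : ℕ) (z : ℂ) : al n (2 * Complex.cos z) * Complex.sin z = Complex.sin (n * z) := by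
  induction n using Nat.strong_induction_on with
  | _ n ih =>
    match n with
    | 0 => simp
    | 1 => simp
    | (n + 2) =>
      have h1 := ih (n + 1) (by omega)
      have h0 := ih n (by omega)
      rw [al_step, sub_mul, mul_assoc, h1, h0]
      have e1 : ((n + 2 : ℕ) : ℂ) * z = ((n + 1 : ℕ) : ℂ) * z + z := by push_cast; ring
      have e2 : (n : ℂ) * z = ((n + 1 : ℕ) : ℂ) * z - z := by push_cast; ring
      rw [e1, e2, Complex.sin_add, Complex.sin_sub]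
      ring

/-- `‖sin z‖² = sin² x + sinh² y`. -/
theorem norm_sin_sq (z : ℂ) : ‖Complex.sin z‖ ^ 2 = Real.sin z.re ^ 2 + Real.sinh z.im ^ 2 := by
  have hz : z = (z.re : ℂ) + (z.im : ℂ) * Complex.I := (Complex.re_add_im z).symm
  have h1 : Complex.sin z = (Real.sin z.re * Real.cosh z.im : ℝ) +
      (Real.cos z.re * Real.sinh z.im : ℝ) * Complex.I := by
    conv_lhs => rw [hz]
    rw [Complex.sin_add_mul_I]
    push_cast
    ring
  rw [h1, ← Complex.normSq_eq_norm_sq, Complex.normSq_add_mul_I]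
  have h2 := Real.cosh_sq z.im
  have h3 := Real.sin_sq_add_cos_sq z.re
  have h4 : Real.cos z.re ^ 2 = 1 - Real.sin z.re ^ 2 := by linarith
  rw [mul_pow, mul_pow, h2, h4]
  ring

theorem abs_le_abs_sinh (y : ℝ) : |y| ≤ |Real.sinh y| := by
  rcases le_total 0 y with h | h
  · rw [abs_of_nonneg h, abs_of_nonneg (Real.sinh_nonneg_iff.2 h)]
    exact Real.self_le_sinh_iff.2 h
  · rw [abs_of_nonpos h, abs_of_nonpos (Real.sinh_nonpos_iff.2 h)]
    have := Real.sinh_le_self_iff.2 h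
    linarith

theorem abs_sinh_le {y : ℝ} (hy : |y| ≤ 1) : |Real.sinh y| ≤ 2 * |y| := by
  have h1 := Real.abs_exp_sub_one_le hy
  have h2 := Real.abs_exp_sub_one_le (x := -y) (by rwa [abs_neg])
  rw [abs_neg] at h2
  have e : Real.sinh y = ((Real.exp y - 1) - (Real.exp (-y) - 1)) / 2 := by
    rw [Real.sinh_eq]; ring
  rw [e, abs_div, abs_two]
  have h3 := abs_sub (Real.exp y - 1) (Real.exp (-y) - 1)
  linarith

/-- Dirichlet: some multiple of `x` is close to a multiple of `π`. -/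
theorem exists_sin_small (x : ℝ) {N : ℕ} (hN : 0 < N) :
    ∃ k : ℕ, 0 < k ∧ k ≤ N ∧ |Real.sin (k * x)| ≤ Real.pi / (N + 1) := by
  obtain ⟨k, hk, hkN, h⟩ := Real.exists_nat_abs_mul_sub_round_le (x / Real.pi) hN
  refine ⟨k, hk, hkN, ?_⟩
  set r : ℤ := round ((k : ℝ) * (x / Real.pi)) with hr
  have h1 : |Real.sin (k * x)| = |Real.sin (k * x - r * Real.pi)| := by
    rw [Real.sin_sub_int_mul_pi, abs_mul, abs_zpow, abs_neg, abs_one, one_zpow, one_mul]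
  rw [h1]
  refine Real.abs_sin_le_abs.trans ?_
  have h2 : (k : ℝ) * x - r * Real.pi = ((k : ℝ) * (x / Real.pi) - r) * Real.pi := by
    field_simp
  rw [h2, abs_mul, abs_of_pos Real.pi_pos]
  calc |(k : ℝ) * (x / Real.pi) - r| * Real.pi ≤ 1 / (N + 1) * Real.pi :=
        mul_le_mul_of_nonneg_right h Real.pi_pos.le
    _ = Real.pi / (N + 1) := by ring

theorem norm_sin_sq_eq (z : ℂ) :
    ‖Complex.sin z‖ ^ 2 = ‖2 - 2 * Complex.cos z‖ * ‖2 + 2 * Complex.cos z‖ / 4 := by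
  have h : Complex.sin z ^ 2 = (2 - 2 * Complex.cos z) * (2 + 2 * Complex.cos z) / 4 := by
    have := Complex.sin_sq_add_cos_sq z
    linear_combination this
  rw [← norm_pow, h, norm_div, norm_mul]
  norm_num

theorem lemma_S (K B δ : ℝ) (hδ : 0 < δ) : ∃ R : ℕ, ∀ s : ℂ, ‖s‖ ≤ B → ∀ n : ℕ, R ≤ n →
    ‖al n s‖ ≤ K → (∀ m : ℕ, 1 ≤ m → 1 ≤ ‖al m s‖ * ‖s - 2‖) → ‖s + 2‖ ≤ δ := by
  set c : ℝ := 4 * (|B| + 2) with hc
  have hc0 : 0 < c := by positivity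
  set η : ℝ := Real.sqrt (δ / (2 * c)) with hη
  have hη0 : 0 < η := Real.sqrt_pos.2 (by positivity)
  have hη2 : η ^ 2 = δ / (2 * c) := Real.sq_sqrt (by positivity)
  obtain ⟨N, hN⟩ := exists_nat_gt (Real.pi / η)
  have hN0 : 0 < N := by
    have : (0 : ℝ) < N := lt_trans (div_pos Real.pi_pos hη0) hN
    exact_mod_cast this
  have hN1 : Real.pi / ((N : ℝ) + 1) ≤ η := by
    rw [div_le_iff₀ (by positivity)]
    rw [div_lt_iff₀ hη0] at hN
    nlinarith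
  set M : ℝ := |K| * ((2 + |B|) / 2) with hM
  have hM0 : 0 ≤ M := by positivity
  obtain ⟨R, hR⟩ := exists_nat_gt (max (N * M) (2 * N * M / η))
  refine ⟨R, ?_⟩
  intro s hs n hn hal hsh
  have hR1 : (N : ℝ) * M < R := lt_of_le_of_lt (le_max_left _ _) hR
  have hR2 : 2 * N * M / η < R := lt_of_le_of_lt (le_max_right _ _) hR
  have hRpos : (0 : ℝ) < R := lt_of_le_of_lt (by positivity) hR1
  have hnR : (R : ℝ) ≤ n := by exact_mod_cast hn
  have hnpos : (0 : ℝ) < n := lt_of_lt_of_le hRpos hnR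
  obtain ⟨z, hz⟩ := Complex.cos_surjective (s / 2)
  have hsz : s = 2 * Complex.cos z := by rw [hz]; ring
  have hsB : ‖s‖ ≤ |B| := hs.trans (le_abs_self B)
  have hm2 : ‖2 - s‖ ≤ |B| + 2 := by
    calc ‖2 - s‖ ≤ ‖(2 : ℂ)‖ + ‖s‖ := norm_sub_le _ _
      _ ≤ |B| + 2 := by simp; linarith
  have hp2 : ‖2 + s‖ ≤ |B| + 2 := by
    calc ‖2 + s‖ ≤ ‖(2 : ℂ)‖ + ‖s‖ := norm_add_le _ _
      _ ≤ |B| + 2 := by simp; linarith
  have hsin : ‖Complex.sin z‖ ^ 2 = ‖2 - s‖ * ‖2 + s‖ / 4 := by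
    rw [norm_sin_sq_eq, hsz]
  have hsin1 : ‖Complex.sin z‖ ≤ (2 + |B|) / 2 := by
    have h1 : ‖Complex.sin z‖ ^ 2 ≤ ((2 + |B|) / 2) ^ 2 := by
      rw [hsin]
      have := mul_le_mul hm2 hp2 (norm_nonneg _) (by positivity)
      nlinarith
    exact abs_le_of_sq_le_sq' h1 (by positivity) |>.2
  -- the imaginary part of `z` is small
  have hy : |z.im| ≤ M / R := by
    have h1 : ‖Complex.sin (n * z)‖ ≤ M := by
      rw [← al_cos, ← hsz, norm_mul]
      exact mul_le_mul (hal.trans (le_abs_self K)) hsin1 (norm_nonneg _) (abs_nonneg _)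
    have h2 := norm_sin_sq (n * z)
    have h3 : ((n : ℂ) * z).im = n * z.im := by simp
    rw [h3] at h2
    have h4 : |Real.sinh (n * z.im)| ≤ M := by
      have : Real.sinh (n * z.im) ^ 2 ≤ M ^ 2 := by
        have h5 : ‖Complex.sin (n * z)‖ ^ 2 ≤ M ^ 2 := by
          apply pow_le_pow_left₀ (norm_nonneg _) h1
        nlinarith [sq_nonneg (Real.sin ((n : ℂ) * z).re)]
      exact abs_le_of_sq_le_sq this hM0
    have h5 := (abs_le_abs_sinh (n * z.im)).trans h4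
    rw [abs_mul, abs_of_pos hnpos] at h5
    rw [le_div_iff₀ hRpos]
    nlinarith [abs_nonneg z.im]
  obtain ⟨m, hm0, hmN, hmsin⟩ := exists_sin_small z.re hN0
  have hmN' : (m : ℝ) ≤ N := by exact_mod_cast hmN
  have hm0' : (0 : ℝ) < m := by exact_mod_cast hm0
  have hmy : |(m : ℝ) * z.im| ≤ N * (M / R) := by
    rw [abs_mul, abs_of_pos hm0']
    exact mul_le_mul hmN' hy (abs_nonneg _) (by positivity)
  have hmy1 : (N : ℝ) * (M / R) ≤ 1 := by
    rw [← mul_div_assoc, div_le_one hRpos]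
    exact hR1.le
  have hsh1 : |Real.sinh (m * z.im)| ≤ η := by
    refine (abs_sinh_le (hmy.trans hmy1)).trans ?_
    have h1 : 2 * (N * (M / R)) ≤ η := by
      rw [div_lt_iff₀ hη0] at hR2
      rw [← mul_div_assoc, ← mul_div_assoc, div_le_iff₀ hRpos]
      nlinarith
    linarith
  have hsn1 : |Real.sin (m * z.re)| ≤ η := hmsin.trans hN1
  have hkey : ‖Complex.sin (m * z)‖ ^ 2 ≤ δ / c := by
    rw [norm_sin_sq]
    have h3 : ((m : ℂ) * z).im = m * z.im := by simp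
    have h4 : ((m : ℂ) * z).re = m * z.re := by simp
    rw [h3, h4]
    have h5 : Real.sin (m * z.re) ^ 2 ≤ η ^ 2 := sq_le_sq' (abs_le.1 hsn1).1 (abs_le.1 hsn1).2
    have h6 : Real.sinh (m * z.im) ^ 2 ≤ η ^ 2 := sq_le_sq' (abs_le.1 hsh1).1 (abs_le.1 hsh1).2
    calc Real.sin (m * z.re) ^ 2 + Real.sinh (m * z.im) ^ 2 ≤ η ^ 2 + η ^ 2 := add_le_add h5 h6
      _ = δ / c := by rw [hη2]; field_simp; ring
  -- conclusion
  have h1 := hsh m hm0
  have hne : 0 < ‖2 - s‖ := by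
    rw [norm_sub_rev]
    by_contra h
    have h2 : ‖s - 2‖ = 0 := le_antisymm (not_lt.1 h) (norm_nonneg _)
    rw [h2, mul_zero] at h1
    linarith
  rw [norm_sub_rev] at h1
  have h2 : ‖Complex.sin z‖ ≤ ‖Complex.sin (m * z)‖ * ‖2 - s‖ := by
    rw [← al_cos, ← hsz, norm_mul]
    nlinarith [norm_nonneg (Complex.sin z)]
  have h3 : ‖Complex.sin z‖ ^ 2 ≤ (‖Complex.sin (m * z)‖ * ‖2 - s‖) ^ 2 :=
    pow_le_pow_left₀ (norm_nonneg _) h2 2
  rw [hsin, mul_pow] at h3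
  have h4 : ‖2 + s‖ ≤ 4 * ‖Complex.sin (m * z)‖ ^ 2 * ‖2 - s‖ := by
    have h5 : ‖2 - s‖ * ‖2 + s‖ ≤ ‖2 - s‖ * (4 * ‖Complex.sin (m * z)‖ ^ 2 * ‖2 - s‖) := by
      have h6 : ‖2 - s‖ * (4 * ‖Complex.sin (m * z)‖ ^ 2 * ‖2 - s‖) =
          4 * (‖Complex.sin (m * z)‖ ^ 2 * ‖2 - s‖ ^ 2) := by ring
      rw [h6]
      linarith
    exact le_of_mul_le_mul_left h5 hne
  rw [add_comm s 2]
  calc ‖2 + s‖ ≤ 4 * ‖Complex.sin (m * z)‖ ^ 2 * ‖2 - s‖ := h4
    _ ≤ 4 * (δ / c) * (|B| + 2) := by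
        apply mul_le_mul (by linarith) hm2 (norm_nonneg _) (by positivity)
    _ = δ := by rw [hc]; field_simp

theorem lemS (K : ℝ) {δ : ℝ} (hδ : 0 < δ) : ∃ R : ℕ, ∀ m : ℕ, R ≤ m → ∀ s : ℂ, ‖s‖ ≤ 18 →
    ‖al m s‖ ≤ K → (∀ n : ℕ, 1 ≤ n → 1 ≤ ‖al n s‖ * ‖s - 2‖) → ‖s + 2‖ < δ := by
  obtain ⟨R, hR⟩ := lemma_S K 18 (δ / 2) (by linarith)
  refine ⟨R, fun m hm s hs hal hsh => ?_⟩
  have := hR s hs m hm hal hsh
  linarith

end Pool.Agent.HT42
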