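import Pool.Agent.TBK.Mats

/-!
# HT42/Mats2: a parabolic representation gives a closed chain, with the lower left entries

`cc κ t (X_j ^ m) = al m (tr X_j) * W_j ^ 2`, and `W_j = 0` forces `X_j = 1` (for the first such
`j`).
-/

set_option autoImplicit false

namespace Pool.Agent.HT42

open Pool.Agent.DFJ Pool.Agent.TBK Matrix

/-- proportional nilpotents -/
theorem smul_of_tr {E F : Matrix (Fin 2) (Fin 2) ℂ} (hE : Nil2 E) (hF : Nil2 F) (hE0 : E ≠ 0)
    (h : (F * E).trace = 0) : ∃ μ : ℂ, F = μ • E := by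
  have h1 := hE.tr0
  have h2 := hE.det0
  have h3 := hF.tr0
  have h4 := hF.det0
  rw [trace_fin_two] at h1 h3 h
  rw [det_fin_two] at h2 h4
  have h5 : E 1 1 = -E 0 0 := by linear_combination h1
  have h6 : F 1 1 = -F 0 0 := by linear_combination h3
  simp only [mul_apply, Fin.sum_univ_two] at h
  rw [h5] at h2 h
  rw [h6] at h4 h
  have k1 : E 0 1 * F 1 0 = F 0 1 * E 1 0 := by
    have : (E 0 1 * F 1 0 - F 0 1 * E 1 0) ^ 2 = 0 := by
      linear_combination (E 0 1 * F 1 0 + F 0 1 * E 1 0 - 2 * E 0 0 * F 0 0) * h +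
        4 * F 0 1 * F 1 0 * h2 - 4 * E 0 0 ^ 2 * h4
    exact sub_eq_zero.1 (pow_eq_zero_iff (two_ne_zero) |>.1 this)
  have k2 : E 0 0 * F 0 1 = E 0 1 * F 0 0 := by
    have : (E 0 0 * F 0 1 - E 0 1 * F 0 0) ^ 2 = 0 := by
      linear_combination (-E 0 1 * F 0 1) * h - F 0 1 ^ 2 * h2 - E 0 1 ^ 2 * h4
    exact sub_eq_zero.1 (pow_eq_zero_iff (two_ne_zero) |>.1 this)
  have k3 : E 1 0 * F 0 0 = E 0 0 * F 1 0 := by
    have : (E 1 0 * F 0 0 - E 0 0 * F 1 0) ^ 2 = 0 := by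
      linear_combination (-E 1 0 * F 1 0) * h - F 1 0 ^ 2 * h2 - E 1 0 ^ 2 * h4
    exact sub_eq_zero.1 (pow_eq_zero_iff (two_ne_zero) |>.1 this)
  by_cases hb : E 0 1 = 0
  · by_cases hc : E 1 0 = 0
    · exfalso
      apply hE0
      have ha : E 0 0 = 0 := by
        rw [hb] at h2
        have : E 0 0 ^ 2 = 0 := by linear_combination -h2
        exact pow_eq_zero_iff (two_ne_zero) |>.1 this
      ext i j
      fin_cases i <;> fin_cases j <;> simp [ha, hb, hc, h5]
    · refine ⟨F 1 0 / E 1 0, ?_⟩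
      ext i j
      fin_cases i <;> fin_cases j <;> simp [h5, h6]
      · field_simp
        linear_combination k3
      · field_simp
        linear_combination -k1
      · field_simp
      · field_simp
        linear_combination k3
  · refine ⟨F 0 1 / E 0 1, ?_⟩
    ext i j
    fin_cases i <;> fin_cases j <;> simp [h5, h6]
    · field_simp
      linear_combination -k2
    · field_simp
    · field_simp
      linear_combination k1
    · field_simp
      linear_combination -k2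

theorem cc_X {κ : ℂ} {x t : SLC} {a : ℕ → ℤ} {n : ℕ} {H : SLC} (hn : Even n)
    (hX : Xw x t a (n + 1) = 1) (hH : hs x t a H (n + 1) = 1)
    (hκ : κ ^ 2 = 1) (hT : tr t = 2 * κ) {j : ℕ} (hj : j ≤ n) :
    cc κ t (Xw x t a j) = cc κ t (hs x t a H j) ^ 2 := by
  rcases Nat.even_or_odd j with h | h
  · rw [hs_even x t a H h]
    have h1 := (c_even hκ hT (hs x t a H j) 1).1
    rw [mul_one, mul_one, cc_inv hκ hT, cc_one hκ hT] at h1
    rw [h1]
    ring
  · rw [hs_odd hn hX hH h (by omega)]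
    have h1 := (c_odd hκ hT (hs x t a H j) 1).1
    rw [mul_one, mul_one, cc_inv hκ hT, cc_one hκ hT] at h1
    rw [h1]
    ring

/-- `cc (h⁻¹ g)²` when `h E h⁻¹ = μ E` -/
theorem cc_sq_mu {κ : ℂ} {t h g : SLC} (hκ : κ ^ 2 = 1) (hT : tr t = 2 * κ) {μ : ℂ}
    (hF : mx h * nl κ t * mx h⁻¹ = μ • nl κ t) :
    cc κ t (h⁻¹ * g) ^ 2 = μ * cc κ t g ^ 2 := by
  have hE := nl_nil hκ hT
  have h1 := tr_gEgE hE (h⁻¹ * g)
  have h2 := tr_gEgE hE g
  have e1 : (h⁻¹ * g)⁻¹ = g⁻¹ * h := by group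
  rw [e1, mx_mul, mx_mul] at h1
  have e2 : (mx h⁻¹ * mx g * nl κ t * (mx g⁻¹ * mx h) * nl κ t).trace =
      μ * (mx g * nl κ t * mx g⁻¹ * nl κ t).trace := by
    have e3 : mx h⁻¹ * mx g * nl κ t * (mx g⁻¹ * mx h) * nl κ t =
        mx h⁻¹ * (mx g * nl κ t * mx g⁻¹ * mx h * nl κ t) := by noncomm_ring
    rw [e3, trace_mul_comm]
    have e4 : mx g * nl κ t * mx g⁻¹ * mx h * nl κ t * mx h⁻¹ =
        mx g * nl κ t * mx g⁻¹ * (mx h * nl κ t * mx h⁻¹) := by noncomm_ring
    rw [e4, hF, mul_smul_comm, trace_smul, smul_eq_mul]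
  rw [e2, h2] at h1
  unfold cc
  rw [mx_mul]
  linear_combination h1

theorem X_one {κ : ℂ} {x t : SLC} {a : ℕ → ℤ} {n : ℕ} {H : SLC} (hn : Even n)
    (hX : Xw x t a (n + 1) = 1) (hH : hs x t a H (n + 1) = 1)
    (hκ : κ ^ 2 = 1) (hT : tr t = 2 * κ) {j : ℕ} (hj : j ≤ n)
    (hF : mx (hs x t a H j) * nl κ t * mx (hs x t a H j)⁻¹ = nl κ t) : Xw x t a j = 1 := by
  have h1 := mx_comm1 hκ hT (hs x t a H j)
  rw [hF, nl_sq hκ hT, sub_zero, add_sub_cancel_right] at h1
  have h2 : hs x t a H j * t⁻¹ * (hs x t a H j)⁻¹ * t = 1 := by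
    apply Subtype.ext
    exact h1
  rcases Nat.even_or_odd j with h | h
  · rw [hs_even x t a H h]
    have e : t * hs x t a H j * t⁻¹ * (hs x t a H j)⁻¹ =
        t * (hs x t a H j * t⁻¹ * (hs x t a H j)⁻¹ * t) * t⁻¹ := by group
    rw [e, h2]
    group
  · rw [hs_odd hn hX hH h (by omega), h2]

theorem mats2 {x t : SLC} {a : ℕ → ℤ} {n : ℕ} (hn : Even n) (hX : Xw x t a (n + 1) = 1)
    (ht : tr t ^ 2 = 4) (hne : x * t ≠ t * x) :
    ∃ w : ℂ, w ≠ 0 ∧ Wc (sg a) w (n + 1) = 0 ∧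
      (∀ j, 1 ≤ j → j ≤ n → tr (Xw x t a j) = Wc (sg a) w j ^ 2 + 2) ∧
      (∀ j, 1 ≤ j → j ≤ n → ∀ m : ℕ, cc (tr t / 2) t (Xw x t a j ^ m) =
        al m (Wc (sg a) w j ^ 2 + 2) * Wc (sg a) w j ^ 2) ∧
      ((∀ j, 1 ≤ j → j ≤ n → Xw x t a j ≠ 1) → ∀ j, 1 ≤ j → j ≤ n → Wc (sg a) w j ≠ 0) := by
  set κ : ℂ := tr t / 2 with hκd
  have hκ : κ ^ 2 = 1 := by
    rw [hκd, div_pow, ht]
    norm_num
  have hT : tr t = 2 * κ := by
    rw [hκd]
    ring
  set H : SLC := (hs x t a 1 (n + 1))⁻¹ with hHd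
  have hH : hs x t a H (n + 1) = 1 := by
    rw [hs_mul x t a H hn.add_one, hHd, mul_inv_cancel]
  have hw : cc κ t H ≠ 0 := by
    apply w_ne hκ hT hne
    have h1 := hs_odd hn hX hH (j := 1) odd_one (by omega)
    exact h1
  have htr : ∀ j, 1 ≤ j → j ≤ n → tr (Xw x t a j) = Wc (sg a) (cc κ t H) j ^ 2 + 2 := by
    intro j hj1 hj2
    rw [(chain_cc hn hX hH hκ hT j hj2).1]
    rcases Nat.even_or_odd j with hj | hj
    · rw [hs_even x t a H hj]
      have h1 := tr_comm1 hκ hT (hs x t a H j)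
      unfold cc
      rw [← h1]
      unfold tr
      have e1 : t * hs x t a H j * t⁻¹ * (hs x t a H j)⁻¹ =
          t * (hs x t a H j * t⁻¹ * (hs x t a H j)⁻¹) := by group
      rw [e1, mx_mul, trace_mul_comm, ← mx_mul]
    · rw [hs_odd hn hX hH hj (by omega)]
      exact tr_comm1 hκ hT (hs x t a H j)
  refine ⟨cc κ t H, hw, ?_, htr, ?_, ?_⟩
  · rw [(chain_cc hn hX hH hκ hT n le_rfl).2.1, hH, cc_one hκ hT]
  · intro j hj1 hj2 m
    have h1 := c_pow (nl_nil hκ hT) (Xw x t a j) m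
    unfold cc at *
    rw [h1, htr j hj1 hj2]
    congr 1
    have h2 := cc_X hn hX hH hκ hT hj2
    have h3 := (chain_cc hn hX hH hκ hT j hj2).1
    unfold cc at h2 h3
    rw [h2, h3]
  · intro hX1
    have hE0 : nl κ t ≠ 0 := by
      intro h0
      apply hne
      have h1 := mx_eq_nl hκ t
      rw [h0, add_zero] at h1
      apply Subtype.ext
      change mx (x * t) = mx (t * x)
      rw [mx_mul, mx_mul, h1, mul_smul_comm, smul_mul_assoc, mul_one, one_mul]
    intro j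
    induction j with
    | zero => intro h; omega
    | succ k ih =>
      intro hj1 hj2 h0
      rcases Nat.eq_zero_or_pos k with hk | hk
      · subst hk
        exact hw h0
      · have hWk := ih hk (by omega)
        have hE := nl_nil hκ hT
        have hc := (chain_cc hn hX hH hκ hT (k + 1) hj2).1
        obtain ⟨hc1, _, hc3⟩ := chain_cc hn hX hH hκ hT k (by omega)
        set h := hs x t a H (k + 1) with hh
        rw [h0] at hc
        have hF : Nil2 (mx h * nl κ t * mx h⁻¹) := by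
          have hdet : (mx h).det * (mx h⁻¹).det = 1 := by rw [mx_det, mx_det, one_mul]
          exact ⟨tr_conj0 hκ hT h, by rw [det_mul, det_mul, hE.det0, mul_zero, zero_mul]⟩
        have h1 : (mx h * nl κ t * mx h⁻¹ * nl κ t).trace = 0 := by
          rw [tr_gEgE hE]
          change 0 = (mx h * nl κ t).trace at hc
          rw [← hc]
          simp
        obtain ⟨μ, hμ⟩ := smul_of_tr hE hF hE0 h1
        have h2 := cc_sq_mu (g := hs x t a H k) hκ hT hμ
        have h3 := chain_form (sg a) (cc κ t H) k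
        rw [h0] at h3
        have h4 : Qc (sg a) (cc κ t H) k ^ 2 = cc κ t (h⁻¹ * hs x t a H k) ^ 2 := by
          rw [hc3]
          split_ifs with hk2
          · have e : (hs x t a H k)⁻¹ * h = (h⁻¹ * hs x t a H k)⁻¹ := by group
            rw [e, cc_inv hκ hT, neg_sq]
          · rfl
        rw [h2, ← hc1] at h4
        have h5 : (μ - 1) * Wc (sg a) (cc κ t H) k ^ 2 = 0 := by
          linear_combination h3 - h4
        have h6 : μ = 1 := by
          rcases mul_eq_zero.1 h5 with h7 | h7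
          · linear_combination h7
          · exact absurd (pow_eq_zero_iff (two_ne_zero) |>.1 h7) hWk
        rw [h6, one_smul] at hμ
        exact hX1 (k + 1) hj1 hj2 (X_one hn hX hH hκ hT hj2 hμ)

end Pool.Agent.HT42
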