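import Pool.Agent.HT42.Shimizu
import Pool.Agent.TBK.Final

/-!
# HT42/Shi3: the Shimizu inequality for the cubes of `T⁻¹ (A T A⁻¹)` and `T (A T A⁻¹)`
-/

set_option autoImplicit false

namespace Pool.Agent.HT42

open Matrix Pool.Agent.DFJ Pool.Agent.TBK

theorem mx_conjT {κ : ℂ} {T : SLC} (hκ : κ ^ 2 = 1) (A : SLC) :
    mx (A * T * A⁻¹) = κ • (1 + mx A * nl κ T * mx A⁻¹) := by
  have e : mx A * mx A⁻¹ = 1 := by rw [← mx_mul, mul_inv_cancel, mx_one]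
  rw [mx_mul, mx_mul]
  conv_lhs => rw [mx_eq_nl hκ T]
  rw [mul_smul_comm, smul_mul_assoc, mul_add, mul_one, add_mul, e]

theorem cube_ineq {G : Subgroup SLC} (hG : DiscreteTopology G) {κ : ℂ} {T : SLC}
    (hκ : κ ^ 2 = 1) (hT : tr T = 2 * κ) (hTG : T ∈ G)
    (htf : ∀ V ∈ G, ∀ k : ℕ, 0 < k → V ^ k = 1 → V = 1) {X : SLC} (hX : X ∈ G)
    {s c : ℂ} (hs : tr X = s) (hc : cc κ T X = c) (hc0 : c ≠ 0) :
    1 ≤ ‖c‖ * ‖s ^ 2 - 1‖ := by
  have h1 : cc κ T (X ^ 3) = al 3 (tr X) * cc κ T X := c_pow (nl_nil hκ hT) X 3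
  have h2 : al 3 (tr X) ≠ 0 := NT_of (fun k hk hk1 => htf X hX k hk hk1) 3 (by norm_num)
  have h3 : al 3 (tr X) = s ^ 2 - 1 := by
    rw [hs, al_step, al_step, al_one, al_zero]
    ring
  rcases shimizu hG hκ hT hTG (G.pow_mem hX 3) with h | h
  · rw [h1, hc] at h
    rcases mul_eq_zero.1 h with h | h
    · exact absurd h h2
    · exact absurd h hc0
  · rw [h1, hc, h3, norm_mul] at h
    linarith [mul_comm ‖s ^ 2 - 1‖ ‖c‖]

theorem shimizu3 {G : Subgroup SLC} (hG : DiscreteTopology G) {κ : ℂ} {T : SLC}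
    (hκ : κ ^ 2 = 1) (hT : tr T = 2 * κ) (hTG : T ∈ G)
    (htf : ∀ V ∈ G, ∀ k : ℕ, 0 < k → V ^ k = 1 → V = 1) {A : SLC} (hA : A ∈ G)
    (h0 : cc κ T A ≠ 0) :
    1 ≤ ‖cc κ T A‖ ∧ 1 ≤ ‖cc κ T A ^ 2‖ * ‖(2 + cc κ T A ^ 2) ^ 2 - 1‖ ∧
      1 ≤ ‖cc κ T A ^ 2‖ * ‖(2 - cc κ T A ^ 2) ^ 2 - 1‖ := by
  have hE := nl_nil hκ hT
  have hsq := nl_sq hκ hT
  have hF0 := tr_conj0 hκ hT A
  have hFE := tr_gEgE hE A
  have hm := mx_conjT hκ (T := T) A
  have hy : cc κ T A = (mx A * nl κ T).trace := rfl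
  rw [← hy] at hFE
  have hS := shimizu hG hκ hT hTG hA
  generalize cc κ T A = y at h0 hFE hS ⊢
  have hEF : (nl κ T * (mx A * nl κ T * mx A⁻¹)).trace = -y ^ 2 := by
    rw [trace_mul_comm]
    exact hFE
  have hEFE : (nl κ T * (mx A * nl κ T * mx A⁻¹) * nl κ T).trace = 0 := by
    rw [trace_mul_comm, ← mul_assoc, hsq, zero_mul, trace_zero]
  have hκκ : κ * κ = 1 := by rw [← pow_two, hκ]
  have hconj : A * T * A⁻¹ ∈ G := G.mul_mem (G.mul_mem hA hTG) (G.inv_mem hA)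
  have hy2 : -y ^ 2 ≠ 0 := neg_ne_zero.2 (pow_ne_zero 2 h0)
  have hn : ‖-y ^ 2‖ = ‖y ^ 2‖ := norm_neg _
  refine ⟨hS.resolve_left h0, ?_, ?_⟩
  · have hU : mx (T⁻¹ * (A * T * A⁻¹)) =
        (1 - nl κ T) * (1 + mx A * nl κ T * mx A⁻¹) := by
      rw [mx_mul, hm, mx_inv_nl hκ hT, smul_mul_smul_comm, hκκ, one_smul]
    have h1 : tr (T⁻¹ * (A * T * A⁻¹)) = 2 + y ^ 2 := by
      unfold tr
      rw [hU, sub_mul, one_mul, mul_add, mul_one, trace_sub, trace_add, trace_add, hF0, hE.tr0,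
        hEF, trace_one]
      simp
    have h2 : cc κ T (T⁻¹ * (A * T * A⁻¹)) = -y ^ 2 := by
      unfold cc
      rw [hU, sub_mul, one_mul, mul_add, mul_one, sub_mul, add_mul, add_mul, hsq, one_mul,
        trace_sub, trace_add, trace_add, hE.tr0, hFE, trace_zero, hEFE]
      ring
    have h3 := cube_ineq hG hκ hT hTG htf (G.mul_mem (G.inv_mem hTG) hconj) h1 h2 hy2
    rwa [hn] at h3
  · have hU : mx (T * (A * T * A⁻¹)) =
        (1 + nl κ T) * (1 + mx A * nl κ T * mx A⁻¹) := by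
      rw [mx_mul, hm]
      conv_lhs => rw [mx_eq_nl hκ T]
      rw [smul_mul_smul_comm, hκκ, one_smul]
    have h1 : tr (T * (A * T * A⁻¹)) = 2 - y ^ 2 := by
      unfold tr
      rw [hU, add_mul, one_mul, mul_add, mul_one, trace_add, trace_add, trace_add, hF0, hE.tr0,
        hEF, trace_one]
      simp
      ring
    have h2 : cc κ T (T * (A * T * A⁻¹)) = -y ^ 2 := by
      unfold cc
      rw [hU, add_mul, one_mul, mul_add, mul_one, add_mul, add_mul, add_mul, hsq, one_mul,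
        trace_add, trace_add, trace_add, hE.tr0, hFE, trace_zero, hEFE]
      ring
    have h3 := cube_ineq hG hκ hT hTG htf (G.mul_mem hTG hconj) h1 h2 hy2
    rwa [hn] at h3

theorem comm_of_cc {κ : ℂ} {T A : SLC} (hκ : κ ^ 2 = 1) (hT : tr T = 2 * κ)
    (h : cc κ T A = 0) : A * T * A⁻¹ * T = T * (A * T * A⁻¹) := by
  have hE := nl_nil hκ hT
  have hF : Nil2 (mx A * nl κ T * mx A⁻¹) :=
    ⟨tr_conj0 hκ hT A, by rw [det_mul, det_mul, hE.det0, mul_zero, zero_mul]⟩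
  have h1 : (mx A * nl κ T * mx A⁻¹ * nl κ T).trace = 0 := by
    rw [tr_gEgE hE]
    change (mx A * nl κ T).trace = 0 at h
    rw [h]
    simp
  have h2 := comm_of_tr hE hF h1
  apply Subtype.ext
  change mx (A * T * A⁻¹ * T) = mx (T * (A * T * A⁻¹))
  rw [mx_mul, mx_mul T, mx_conjT hκ]
  conv_lhs => rw [mx_eq_nl hκ T]
  conv_rhs => rw [mx_eq_nl hκ T]
  generalize mx A * nl κ T * mx A⁻¹ = F at h2
  generalize nl κ T = E at h2
  rw [smul_mul_smul_comm, smul_mul_smul_comm, add_mul, one_mul, mul_add, mul_one, add_mul,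
    one_mul, mul_add, mul_one, h2]
  congr 1
  abel

end Pool.Agent.HT42
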