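import Pool.Agent.TBK.MatA

/-!
# HT42/Shimizu: the Shimizu-Leutbecher inequality

`α : G →* SL(2,C)` with `1` isolated in the image, `α μ = ±(1 + E)` with `E` nilpotent: for every
`g` the number `tr(α(g) E)` is `0` or has modulus at least `1`.
-/

set_option autoImplicit false

namespace Pool.Agent.HT42

open Matrix Filter Topology Pool.Agent.DFJ Pool.Agent.TBK

/-- The unit matrix is isolated in the image of `α` (i.e. the image is discrete). -/
def Isol {G : Type*} [Group G] (α : G →* SLC) : Prop :=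
  ∃ ε : ℝ, 0 < ε ∧ ∀ g : G, (∀ i j, ‖mx (α g) i j - (1 : Matrix (Fin 2) (Fin 2) ℂ) i j‖ < ε) →
    α g = 1

/-- the nilpotent matrix `v vᵀ J` -/
def NN (x y : ℂ) : Matrix (Fin 2) (Fin 2) ℂ := !![-(x * y), x ^ 2; -(y ^ 2), x * y]

theorem exists_NN {E : Matrix (Fin 2) (Fin 2) ℂ} (hE : Nil2 E) : ∃ x y : ℂ, E = NN x y := by
  have h1 := hE.tr0
  have h2 := hE.det0
  rw [trace_fin_two] at h1
  rw [det_fin_two] at h2
  have h3 : E 1 1 = -E 0 0 := by linear_combination h1
  rw [h3] at h2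
  by_cases hq : E 0 1 = 0
  · have hp : E 0 0 = 0 := by
      rw [hq] at h2
      have : E 0 0 ^ 2 = 0 := by linear_combination -h2
      exact pow_eq_zero_iff (two_ne_zero) |>.1 this
    obtain ⟨y, hy⟩ := IsAlgClosed.exists_pow_nat_eq (-(E 1 0)) (n := 2) (by norm_num)
    refine ⟨0, y, ?_⟩
    ext i j
    fin_cases i <;> fin_cases j <;> simp [NN, hq, hp, h3, hy]
  · obtain ⟨x, hx⟩ := IsAlgClosed.exists_pow_nat_eq (E 0 1) (n := 2) (by norm_num)
    have hx0 : x ≠ 0 := by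
      rintro rfl
      apply hq
      rw [← hx]
      norm_num
    refine ⟨x, -(E 0 0) / x, ?_⟩
    ext i j
    fin_cases i <;> fin_cases j <;> simp [NN, h3]
    · field_simp
    · exact hx.symm
    · field_simp
      rw [hx]
      linear_combination -h2
    · field_simp

theorem tr_NN (g : SLC) (x y : ℂ) :
    (mx g * NN x y).trace =
      x * (mx g 1 0 * x + mx g 1 1 * y) - y * (mx g 0 0 * x + mx g 0 1 * y) := by
  simp [trace_fin_two, mul_apply, Fin.sum_univ_two, NN]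
  ring

/-- conjugation of `e (1 + E)` -/
theorem conj_NN (g T : SLC) (e x y : ℂ) (hT : mx T = e • (1 + NN x y)) :
    mx (g * T * g⁻¹) =
      e • (1 + NN (mx g 0 0 * x + mx g 0 1 * y) (mx g 1 0 * x + mx g 1 1 * y)) := by
  have hd := mx_det g
  rw [det_fin_two] at hd
  rw [mx_mul, mx_mul, mx_inv, hT]
  unfold tr
  rw [trace_fin_two]
  ext i j
  fin_cases i <;> fin_cases j <;> simp [mul_apply, Fin.sum_univ_two, NN]
  · linear_combination e * hd
  · ring
  · ring
  · linear_combination e * hd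

/-- the conjugates `g_(n+1) = g_n μ g_n⁻¹` -/
def cj {G : Type*} [Group G] (g μ : G) : ℕ → G
  | 0 => g
  | (n + 1) => cj g μ n * μ * (cj g μ n)⁻¹

theorem seq_bound {c X : ℕ → ℂ} {e x : ℂ} {r : ℝ} (he : ‖e‖ = 1) (hr0 : 0 ≤ r) (hr : r < 1)
    (hc : ∀ n, ‖c n‖ ≤ r) (hX : ∀ n, X (n + 1) = e * (x - c n * X n)) :
    ∀ n, ‖X n‖ ≤ max ‖X 0‖ (‖x‖ / (1 - r)) := by
  intro n
  induction n with
  | zero => exact le_max_left _ _
  | succ n ih =>
    have h1 : (0 : ℝ) < 1 - r := by linarith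
    set M := max ‖X 0‖ (‖x‖ / (1 - r)) with hM
    have h2 : ‖x‖ ≤ M * (1 - r) := by
      have : ‖x‖ / (1 - r) ≤ M := le_max_right _ _
      rwa [div_le_iff₀ h1] at this
    have hM0 : 0 ≤ M := le_trans (norm_nonneg _) (le_max_left _ _)
    rw [hX n, norm_mul, he, one_mul]
    calc ‖x - c n * X n‖ ≤ ‖x‖ + ‖c n * X n‖ := norm_sub_le _ _
      _ = ‖x‖ + ‖c n‖ * ‖X n‖ := by rw [norm_mul]
      _ ≤ M * (1 - r) + r * M := by
          gcongr
          exact hc n
      _ = M := by ring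

theorem seq_tendsto {c X : ℕ → ℂ} {e x : ℂ} {r : ℝ} (he : ‖e‖ = 1) (hr0 : 0 ≤ r) (hr : r < 1)
    (hc : ∀ n, ‖c n‖ ≤ r) (hc0 : Tendsto c atTop (𝓝 0))
    (hX : ∀ n, X (n + 1) = e * (x - c n * X n)) :
    Tendsto (fun n => X (n + 1)) atTop (𝓝 (e * x)) := by
  have hb := seq_bound he hr0 hr hc hX
  have h1 : Tendsto (fun n => c n * X n) atTop (𝓝 0) := by
    apply hc0.zero_mul_isBoundedUnder_le
    refine ⟨max ‖X 0‖ (‖x‖ / (1 - r)), ?_⟩
    simp only [eventually_map]
    exact Eventually.of_forall (fun n => by simpa using hb n)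
  have h2 : Tendsto (fun n => e * (x - c n * X n)) atTop (𝓝 (e * (x - 0))) :=
    (tendsto_const_nhds.sub h1).const_mul e
  rw [sub_zero] at h2
  exact h2.congr (fun n => (hX n).symm)

/-- the inequality of Shimizu and Leutbecher -/
theorem shimizu_hom {G : Type*} [Group G] {α : G →* SLC} (hα : Isol α)
    {E : Matrix (Fin 2) (Fin 2) ℂ} (hE : Nil2 E) {μ : G} {e : ℂ} (he : e ^ 2 = 1)
    (hμ : mx (α μ) = e • (1 + E)) (g : G) :
    (mx (α g) * E).trace = 0 ∨ 1 ≤ ‖(mx (α g) * E).trace‖ := by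
  obtain ⟨x, y, rfl⟩ := exists_NN hE
  have hen : ‖e‖ = 1 := by
    have : ‖e‖ ^ 2 = 1 := by rw [← norm_pow, he, norm_one]
    exact (pow_eq_one_iff_of_nonneg (norm_nonneg _) two_ne_zero).1 this
  by_contra hcon
  push_neg at hcon
  obtain ⟨hne, hlt⟩ := hcon
  let m : ℕ → Matrix (Fin 2) (Fin 2) ℂ := fun n => mx (α (cj g μ n))
  let X : ℕ → ℂ := fun n => m n 0 0 * x + m n 0 1 * y
  let Y : ℕ → ℂ := fun n => m n 1 0 * x + m n 1 1 * y
  let c : ℕ → ℂ := fun n => x * Y n - y * X n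
  have hm : ∀ n, m (n + 1) = e • (1 + NN (X n) (Y n)) := by
    intro n
    have := conj_NN (α (cj g μ n)) (α μ) e x y hμ
    rw [← map_inv, ← map_mul, ← map_mul] at this
    exact this
  have hX : ∀ n, X (n + 1) = e * (x - c n * X n) := by
    intro n
    have h := hm n
    change m (n + 1) 0 0 * x + m (n + 1) 0 1 * y = _
    rw [h]
    simp [c, NN]
    ring
  have hY : ∀ n, Y (n + 1) = e * (y - c n * Y n) := by
    intro n
    have h := hm n
    change m (n + 1) 1 0 * x + m (n + 1) 1 1 * y = _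
    rw [h]
    simp [c, NN]
    ring
  have hc : ∀ n, c (n + 1) = -(e * c n ^ 2) := by
    intro n
    change x * Y (n + 1) - y * X (n + 1) = _
    rw [hX, hY]
    change _ = -(e * (x * Y n - y * X n) ^ 2)
    change x * (e * (y - (x * Y n - y * X n) * Y n)) - y * (e * (x - (x * Y n - y * X n) * X n)) = _
    ring
  have hctr : ∀ n, (mx (α (cj g μ n)) * NN x y).trace = c n := fun n => tr_NN _ _ _
  have hc00 : c 0 ≠ 0 := by rw [← hctr 0]; exact hne
  have hc0lt : ‖c 0‖ < 1 := by rw [← hctr 0]; exact hlt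
  have hcn : ∀ n, c n ≠ 0 := by
    intro n
    induction n with
    | zero => exact hc00
    | succ n ih =>
      rw [hc]
      have he0 : e ≠ 0 := by
        rintro rfl
        norm_num at he
      exact neg_ne_zero.2 (mul_ne_zero he0 (pow_ne_zero 2 ih))
  set r := ‖c 0‖ with hr
  have hr0 : 0 ≤ r := norm_nonneg _
  have hpow : ∀ n, ‖c n‖ ≤ r ^ (n + 1) := by
    intro n
    induction n with
    | zero => simp [hr]
    | succ n ih =>
      rw [hc, norm_neg, norm_mul, hen, one_mul, norm_pow, pow_two]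
      have h1 : ‖c n‖ ≤ r := le_trans ih (pow_le_of_le_one hr0 hc0lt.le (by omega))
      calc ‖c n‖ * ‖c n‖ ≤ r ^ (n + 1) * r := by gcongr
        _ = r ^ (n + 1 + 1) := by ring
  have hcr : ∀ n, ‖c n‖ ≤ r := fun n =>
    le_trans (hpow n) (pow_le_of_le_one hr0 hc0lt.le (by omega))
  have hct : Tendsto c atTop (𝓝 0) := by
    rw [tendsto_zero_iff_norm_tendsto_zero]
    have h1 : Tendsto (fun n : ℕ => r ^ (n + 1)) atTop (𝓝 0) :=
      (tendsto_pow_atTop_nhds_zero_of_lt_one hr0 hc0lt).comp (tendsto_add_atTop_nat 1)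
    exact squeeze_zero (fun n => norm_nonneg _) hpow h1
  have hXt := seq_tendsto hen hr0 hc0lt hcr hct hX
  have hYt := seq_tendsto hen hr0 hc0lt hcr hct hY
  obtain ⟨ε, hε, hiso⟩ := hα
  -- the matrices converge
  have hmt : Tendsto (fun n => m (n + 2)) atTop (𝓝 (mx (α μ))) := by
    have hee : mx (α μ) = e • (1 + NN (e * x) (e * y)) := by
      rw [hμ]
      congr 2
      ext i j
      fin_cases i <;> fin_cases j <;> simp [NN]
      · linear_combination (-(x * y)) * he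
      · linear_combination (-(x ^ 2)) * he
      · linear_combination (-(y ^ 2)) * he
      · linear_combination (-(x * y)) * he
    rw [hee]
    have hNN : Continuous fun p : ℂ × ℂ => e • (1 + NN p.1 p.2) := by
      have h0 : Continuous fun p : ℂ × ℂ => NN p.1 p.2 := by
        apply continuous_matrix
        intro i j
        fin_cases i <;> fin_cases j <;> simp [NN] <;> fun_prop
      exact (continuous_const.add h0).const_smul e
    have h2 : Tendsto (fun n => (X (n + 1), Y (n + 1))) atTop (𝓝 (e * x, e * y)) :=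
      hXt.prodMk_nhds hYt
    have h3 := (hNN.tendsto (e * x, e * y)).comp h2
    refine h3.congr (fun n => ?_)
    exact (hm (n + 1)).symm
  have hht : Tendsto (fun n => mx (α (μ⁻¹ * cj g μ (n + 2)))) atTop
      (𝓝 (1 : Matrix (Fin 2) (Fin 2) ℂ)) := by
    have h1 : (1 : Matrix (Fin 2) (Fin 2) ℂ) = mx (α μ⁻¹) * mx (α μ) := by
      rw [← mx_mul, ← map_mul, inv_mul_cancel, map_one, mx_one]
    rw [h1]
    have h2 : ∀ n, mx (α (μ⁻¹ * cj g μ (n + 2))) = mx (α μ⁻¹) * m (n + 2) := by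
      intro n
      rw [map_mul, mx_mul]
    simp_rw [h2]
    exact (Continuous.matrix_mul continuous_const continuous_id).tendsto _ |>.comp hmt
  have hev : ∀ᶠ n in atTop, ∀ i j, ‖mx (α (μ⁻¹ * cj g μ (n + 2))) i j
      - (1 : Matrix (Fin 2) (Fin 2) ℂ) i j‖ < ε := by
    rw [eventually_all]
    intro i
    rw [eventually_all]
    intro j
    have h1 : Tendsto (fun n => mx (α (μ⁻¹ * cj g μ (n + 2))) i j) atTop
        (𝓝 ((1 : Matrix (Fin 2) (Fin 2) ℂ) i j)) := by
      have hcont : Continuous fun M : Matrix (Fin 2) (Fin 2) ℂ => M i j := by fun_prop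
      exact (hcont.tendsto _).comp hht
    have h2 := (Metric.tendsto_nhds.1 h1) ε hε
    simpa [dist_eq_norm] using h2
  obtain ⟨n, hn⟩ := hev.exists
  have h1 := hiso _ hn
  have h2 : α (cj g μ (n + 2)) = α μ := by
    rw [map_mul, map_inv] at h1
    exact (inv_mul_eq_one.1 h1).symm
  have h3 := hctr (n + 2)
  rw [h2, tr_NN, hμ] at h3
  apply hcn (n + 2)
  rw [← h3]
  simp [NN]
  ring

theorem isol_of_discrete {G : Subgroup SLC} (hG : DiscreteTopology G) : Isol G.subtype := by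
  have h1 : ({1} : Set G) ∈ 𝓝 (1 : G) := by
    rw [nhds_discrete]
    exact Filter.mem_pure.2 rfl
  rw [nhds_subtype_eq_comap, Filter.mem_comap] at h1
  obtain ⟨U, hU, hU1⟩ := h1
  have h2 : U ∈ Filter.comap (Subtype.val : SLC → Matrix (Fin 2) (Fin 2) ℂ)
      (𝓝 (1 : Matrix (Fin 2) (Fin 2) ℂ)) := by
    have : 𝓝 ((1 : G) : SLC) = Filter.comap (Subtype.val : SLC → Matrix (Fin 2) (Fin 2) ℂ)
      (𝓝 (1 : Matrix (Fin 2) (Fin 2) ℂ)) := nhds_subtype_eq_comap
    rwa [← this]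
  obtain ⟨V, hV, hVU⟩ := Filter.mem_comap.1 h2
  let o : Fin 2 → Fin 2 → ℂ := fun i j => (1 : Matrix (Fin 2) (Fin 2) ℂ) i j
  have hV' : ∃ W : Set (Fin 2 → Fin 2 → ℂ), W ∈ 𝓝 o ∧ ∀ M : Matrix (Fin 2) (Fin 2) ℂ,
      (fun i j => M i j) ∈ W → M ∈ V := ⟨V, hV, fun M h => h⟩
  obtain ⟨W, hW, hWV⟩ := hV'
  obtain ⟨ε, hε, hb⟩ := Metric.mem_nhds_iff.1 hW
  refine ⟨ε, hε, fun g hg => ?_⟩
  have h3 : mx (g : SLC) ∈ V := by
    apply hWV
    apply hb
    rw [Metric.mem_ball, dist_pi_lt_iff hε]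
    intro i
    rw [dist_pi_lt_iff hε]
    intro j
    rw [dist_eq_norm]
    exact hg i j
  have h4 : g ∈ ({1} : Set G) := hU1 (hVU h3)
  rw [Set.mem_singleton_iff] at h4
  rw [h4]
  rfl

/-- the inequality of Shimizu and Leutbecher for a discrete subgroup containing a parabolic `T` -/
theorem shimizu {G : Subgroup SLC} (hG : DiscreteTopology G) {κ : ℂ} {T : SLC}
    (hκ : κ ^ 2 = 1) (hT : tr T = 2 * κ) (hTG : T ∈ G) {A : SLC} (hA : A ∈ G) :
    cc κ T A = 0 ∨ 1 ≤ ‖cc κ T A‖ :=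
  shimizu_hom (isol_of_discrete hG) (nl_nil hκ hT) (μ := (⟨T, hTG⟩ : G)) hκ
    (mx_eq_nl hκ T) (⟨A, hA⟩ : G)

end Pool.Agent.HT42
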